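import Pool.Agent.U657.HT.Prod

/-!
Colourings with long blocks which are coded by a weakly mixing minimal set and a rotation of the
circle.
-/

set_option autoImplicit false

namespace Pool.Agent.U657.HT

open Encodable Pool.Agent.Helper446 Pool.Agent.Helper446.Oracle
open Pool.Agent.Y545.HM Pool.Agent.Y545.HM.St
open Filter Topology

variable {k k' : ℕ}

/-- the (codes of) fractions `p / q` below `α` -/
def Below (α : ℝ) : Set ℕ := {n | (n.unpair.1 : ℝ) < n.unpair.2 * α}

/-- the (codes of) fractions `p / q` above `α` -/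
def Above (α : ℝ) : Set ℕ := {n | (n.unpair.2 : ℝ) * α < n.unpair.1}

theorem circle_irr {A : Set ℕ} {c : ℕ → Fin k} (hc : Computes A (fun n => Part.some (c n).val))
    {M : Set (ℕ → Fin k')} (hM : Minimal M) (hw : WeaklyMixing M) (hWM : Enum A (Words M))
    {α : ℝ} (h0 : 0 ≤ α) (hα : Irrational α) (hb : Enum A (Below α)) (ha : Enum A (Above α))
    {F : Fin k' → ℝ → Fin k} (hF : ∀ a x, F a (x + 1) = F a x)
    (hg : ∀ a θ, ∃ i, ∃ ε, 0 < ε ∧ ∀ t, 0 < t → t < ε → F a (θ + t) = i)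
    (h : ∀ L, ∃ n : ℕ, ∃ w ∈ M, ∃ θ : ℝ, ∀ j < L, c (n + j) = F (w j) (θ + j * α)) :
    ∃ X, Solution c X ∧ Computes A (char X) := by
  have : Fact ((0 : ℝ) < 1) := ⟨one_pos⟩
  have hper : ∀ a, Function.Periodic (F a) 1 := hF
  let f : Fin k' → AddCircle (1 : ℝ) → Fin k := fun a => (hper a).lift
  have hf : ∀ a, ∀ x : ℝ, f a (x : AddCircle (1 : ℝ)) = F a x := fun a x => (hper a).lift_coe x
  have hd : DenseRange fun n : ℤ => n • (α : AddCircle (1 : ℝ)) :=
    AddCircle.denseRange_zsmul_coe_iff.2 (by rwa [div_one])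
  refine sol_of_coded (K := AddCircle (1 : ℝ)) hc hM hw hWM hd (U := fun a i => {x | f a x = i})
    ?_ ?_
  · intro θ
    obtain ⟨x, rfl⟩ := QuotientAddGroup.mk_surjective θ
    obtain ⟨ε, hε, hi⟩ : ∃ ε, 0 < ε ∧ ∀ a, ∃ i, ∀ t, 0 < t → t < ε → F a (x + t) = i := by
      choose i ε hε hi using fun a => hg a x
      rcases isEmpty_or_nonempty (Fin k') with he | he
      · exact ⟨1, one_pos, fun a => he.elim a⟩
      · obtain ⟨a0, ha0⟩ := Finite.exists_min ε
        exact ⟨ε a0, hε a0, fun a => ⟨i a, fun t h1 h2 => hi a t h1 (lt_of_lt_of_le h2 (ha0 a))⟩⟩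
    obtain ⟨q, hq⟩ := exists_nat_one_div_lt hε
    let b : ℝ := 1 / ((q : ℝ) + 1)
    have hb0 : 0 < b := by positivity
    refine ⟨(fun t : ℝ => (t : AddCircle (1 : ℝ))) '' Set.Ioo 0 b, ?_, ?_, ?_, fun a => ?_⟩
    · exact QuotientAddGroup.isOpenMap_coe _ isOpen_Ioo
    · have h1 : (0 : ℝ) ∈ closure (Set.Ioo 0 b) := by
        rw [closure_Ioo hb0.ne]
        exact ⟨le_rfl, hb0.le⟩
      have h2 : Continuous fun t : ℝ => (t : AddCircle (1 : ℝ)) := AddCircle.continuous_mk' 1
      exact image_closure_subset_closure_image h2 ⟨0, h1, rfl⟩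
    · rw [enum_iff]
      have h1 : REIn A fun n : ℕ => ∃ m : ℕ, Nat.pair m n ∈ Below α ∧
          Nat.pair ((q + 1) * m + 1) ((q + 1) * n) ∈ Above α := by
        refine REIn.ex (S := fun (n m : ℕ) => Nat.pair m n ∈ Below α ∧
          Nat.pair ((q + 1) * m + 1) ((q + 1) * n) ∈ Above α) (REIn.and ?_ ?_)
        · exact (enum_iff.1 hb).comp (f := fun x : ℕ × ℕ => Nat.pair x.2 x.1) (by fun_prop)
        · exact (enum_iff.1 ha).comp (f := fun x : ℕ × ℕ =>
            Nat.pair ((q + 1) * x.2 + 1) ((q + 1) * x.1)) (by fun_prop)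
      refine h1.of_eq fun n => ?_
      simp only [Below, Above, Set.mem_ofPred_eq, Nat.unpair_pair]
      push_cast
      have hq1 : (0 : ℝ) < (q : ℝ) + 1 := by positivity
      constructor
      · rintro ⟨m, h2, h3⟩
        refine ⟨n * α - m, ⟨by linarith, ?_⟩, ?_⟩
        · show n * α - m < 1 / ((q : ℝ) + 1)
          rw [lt_div_iff₀ hq1]
          nlinarith
        · show ((n * α - m : ℝ) : AddCircle (1 : ℝ)) = n • (α : AddCircle (1 : ℝ))
          rw [← AddCircle.coe_nsmul, ← sub_eq_zero, ← AddCircle.coe_sub, AddCircle.coe_eq_zero_iff]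
          refine ⟨-m, ?_⟩
          simp
      · rintro ⟨t, ⟨ht0, htb⟩, ht⟩
        have h4 : ((n • α - t : ℝ) : AddCircle (1 : ℝ)) = 0 := by
          rw [AddCircle.coe_sub, AddCircle.coe_nsmul, sub_eq_zero]
          exact ht.symm
        obtain ⟨m, hm⟩ := (AddCircle.coe_eq_zero_iff (1 : ℝ)).1 h4
        have h5 : (m : ℝ) = n * α - t := by
          have h6 : m • (1 : ℝ) = n • α - t := hm
          rw [zsmul_eq_mul, mul_one, nsmul_eq_mul] at h6
          exact h6
        have hb1 : b ≤ 1 := by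
          show 1 / ((q : ℝ) + 1) ≤ 1
          rw [div_le_one hq1]
          have : (0 : ℝ) ≤ q := Nat.cast_nonneg q
          linarith
        have h6 : -1 < (m : ℝ) := by
          have : 0 ≤ (n : ℝ) * α := by positivity
          rw [h5]
          have : t < b := htb
          linarith
        have h7 : 0 ≤ m := by
          have : -1 < m := by exact_mod_cast h6
          omega
        obtain ⟨m', rfl⟩ := Int.eq_ofNat_of_zero_le h7
        have h8 : ((m' : ℕ) : ℝ) = n * α - t := by exact_mod_cast h5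
        refine ⟨m', by linarith, ?_⟩
        have h9 : t * ((q : ℝ) + 1) < 1 := by
          have : t < 1 / ((q : ℝ) + 1) := htb
          rwa [lt_div_iff₀ hq1] at this
        have h10 : (n : ℝ) * α = m' + t := by linarith
        have h11 : ((q : ℝ) + 1) * n * α = ((q : ℝ) + 1) * (m' + t) := by
          rw [mul_assoc, h10]
        rw [h11]
        nlinarith
    · obtain ⟨i, hi⟩ := hi a
      refine ⟨i, ?_⟩
      rintro v ⟨t, ⟨ht0, htb⟩, rfl⟩
      have h1 : ((x : ℝ) : AddCircle (1 : ℝ)) + (t : AddCircle (1 : ℝ)) =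
          ((x + t : ℝ) : AddCircle (1 : ℝ)) := (AddCircle.coe_add (1 : ℝ) x t).symm
      show f a ((x : AddCircle (1 : ℝ)) + (t : AddCircle (1 : ℝ))) = i
      rw [h1, hf]
      exact hi t ht0 (lt_trans htb hq)
  · intro L
    obtain ⟨n, w, hwM, θ, hn⟩ := h L
    refine ⟨n, w, hwM, (θ : AddCircle (1 : ℝ)), fun j hj i hi => ?_⟩
    rw [hn j hj, ← hf, ← show f (w j) ((θ : AddCircle (1 : ℝ)) + j • (α : AddCircle (1 : ℝ))) = i
      from hi]
    congr 1
    rw [AddCircle.coe_add, ← AddCircle.coe_nsmul, nsmul_eq_mul]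

/-- rational rotation numbers -/
theorem circle_rat {A : Set ℕ} {c : ℕ → Fin k} (hc : Computes A (fun n => Part.some (c n).val))
    {M : Set (ℕ → Fin k')} (hM : Minimal M) (hw : WeaklyMixing M) (hWM : Enum A (Words M))
    (r : ℚ) {F : Fin k' → ℝ → Fin k} (hF : ∀ a x, F a (x + 1) = F a x)
    (h : ∀ L, ∃ n : ℕ, ∃ w ∈ M, ∃ θ : ℝ, ∀ j < L, c (n + j) = F (w j) (θ + j * (r : ℝ))) :
    ∃ X, Solution c X ∧ Computes A (char X) := by
  have hq : 0 < r.den := r.pos
  have hne : NeZero r.den := ⟨hq.ne'⟩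
  let : TopologicalSpace (ZMod r.den) := ⊥
  have : DiscreteTopology (ZMod r.den) := ⟨rfl⟩
  choose n w hwM θ hn using h
  let f : ℕ → Fin k' → ZMod r.den → Fin k := fun L a x => F a (θ L + x.val * (r : ℝ))
  have hf : ∀ L a, ∀ j : ℕ, f L a (j : ZMod r.den) = F a (θ L + j * (r : ℝ)) := by
    intro L a j
    have hper : Function.Periodic (F a) 1 := hF a
    show F a (θ L + (j : ZMod r.den).val * (r : ℝ)) = _
    rw [ZMod.val_natCast]
    have h1 : θ L + (j : ℝ) * (r : ℝ) = θ L + ((j % r.den : ℕ) : ℝ) * (r : ℝ) +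
        (((j / r.den : ℕ) : ℤ) * r.num : ℤ) * 1 := by
      have h2 : (r.num : ℝ) = (r.den : ℝ) * (r : ℝ) := by
        exact_mod_cast (Rat.den_mul_eq_num r).symm
      have h3 : (j : ℝ) = ((j % r.den : ℕ) : ℝ) + r.den * ((j / r.den : ℕ) : ℝ) := by
        exact_mod_cast (Nat.mod_add_div j r.den).symm
      rw [Int.cast_mul, Int.cast_natCast, h2]
      nth_rewrite 1 [h3]
      ring
    rw [h1]
    exact (hper.int_mul _ _).symm
  obtain ⟨f0, hf0⟩ := Finite.exists_infinite_fiber f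
  have hinf : (f ⁻¹' {f0}).Infinite := Set.infinite_coe_iff.1 hf0
  refine sol_of_coded (K := ZMod r.den) (α := 1) hc hM hw hWM ?_
    (U := fun a i => {x | f0 a x = i}) ?_ ?_
  · refine Function.Surjective.denseRange fun x => ?_
    obtain ⟨n, hn⟩ := ZMod.intCast_surjective x
    exact ⟨n, by simpa using hn⟩
  · refine fun θ => ⟨{0}, isOpen_discrete _, subset_closure rfl, ?_, fun a => ⟨f0 a θ, ?_⟩⟩
    · rw [enum_iff]
      have h1 : REIn A fun n : ℕ => n % r.den = 0 :=
        REIn.of_re (RE.eq (Primrec.nat_mod.comp Primrec.id (Primrec.const _)).to_comp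
          (by fun_prop))
      refine h1.of_eq fun n => ?_
      simp only [Set.mem_ofPred_eq, Set.mem_singleton_iff]
      rw [nsmul_one, ZMod.natCast_eq_zero_iff, Nat.dvd_iff_mod_eq_zero]
    · rintro v rfl
      simp
  · intro L
    obtain ⟨L', hL', hLL⟩ := hinf.exists_gt L
    have hL0 : f L' = f0 := hL'
    refine ⟨n L', w L', hwM L', 0, fun j hj i hi => ?_⟩
    rw [hn L' j (by omega), ← hf, hL0, ← show f0 (w L' j) (0 + j • (1 : ZMod r.den)) = i from hi]
    congr 1
    simp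

theorem circle {A : Set ℕ} {c : ℕ → Fin k} (hc : Computes A (fun n => Part.some (c n).val))
    {M : Set (ℕ → Fin k')} (hM : Minimal M) (hw : WeaklyMixing M) (hWM : Enum A (Words M))
    {α : ℝ} (h0 : 0 ≤ α) (hb : Enum A (Below α)) (ha : Enum A (Above α))
    {F : Fin k' → ℝ → Fin k} (hF : ∀ a x, F a (x + 1) = F a x)
    (hg : ∀ a θ, ∃ i, ∃ ε, 0 < ε ∧ ∀ t, 0 < t → t < ε → F a (θ + t) = i)
    (h : ∀ L, ∃ n : ℕ, ∃ w ∈ M, ∃ θ : ℝ, ∀ j < L, c (n + j) = F (w j) (θ + j * α)) :
    ∃ X, Solution c X ∧ Computes A (char X) := by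
  by_cases hα : Irrational α
  · exact circle_irr hc hM hw hWM h0 hα hb ha hF hg h
  · unfold Irrational at hα
    push Not at hα
    obtain ⟨r, rfl⟩ := hα
    exact circle_rat hc hM hw hWM r hF h

/-- Solutions for `n ↦ c (m n)` give solutions for `c`. -/
theorem dilate {A : Set ℕ} {k : ℕ} {c : ℕ → Fin k} {m : ℕ} (hm : 0 < m)
    (h : ∃ X, Solution (fun n => c (m * n)) X ∧ Computes A (char X)) :
    ∃ X, Solution c X ∧ Computes A (char X) := by
  classical
  obtain ⟨X, ⟨h1, h2, i, h3⟩, h4⟩ := h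
  have hinj : Function.Injective fun x : ℕ => m * x := fun a b hab =>
    Nat.eq_of_mul_eq_mul_left hm hab
  have hX : ∀ n, n ∈ (fun x => m * x) '' X ↔ m * (n / m) = n ∧ n / m ∈ X := by
    intro n
    constructor
    · rintro ⟨x, hx, rfl⟩
      have h5 : m * x / m = x := Nat.mul_div_cancel_left x hm
      show m * (m * x / m) = m * x ∧ m * x / m ∈ X
      rw [h5]
      exact ⟨rfl, hx⟩
    · rintro ⟨h5, h6⟩
      exact ⟨n / m, h6, h5⟩
  refine ⟨(fun x => m * x) '' X, ⟨h1.image hinj.injOn, ?_, i, ?_⟩, computes_set.2 ?_⟩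
  · rintro ⟨x, hx, hx0⟩
    rcases Nat.mul_eq_zero.1 hx0 with h | h
    · omega
    · exact h2 (h ▸ hx)
  · intro F hF hne
    let F' : Finset ℕ := F.preimage (fun n => m * n) hinj.injOn
    have e1 : F'.image (fun n => m * n) = F := by
      rw [Finset.image_preimage, Finset.filter_true_of_mem]
      intro x hx
      obtain ⟨y, -, hy⟩ := hF hx
      exact ⟨y, hy⟩
    have e2 : ∑ x ∈ F, x = m * ∑ n ∈ F', n := by
      rw [← e1, Finset.sum_image (fun a _ b _ hab => hinj hab), Finset.mul_sum]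
    rw [e2]
    refine h3 F' (fun x hx => ?_) ?_
    · have h5 : m * x ∈ F := Finset.mem_preimage.1 hx
      obtain ⟨y, hy, hxy⟩ := hF h5
      rwa [← hinj hxy]
    · rw [← e1] at hne
      exact Finset.image_nonempty.1 hne
  · have h5 : DP A fun n : ℕ => n ∈ X := computes_set.1 h4
    have hd : Computable fun n : ℕ => n / m := (Primrec.nat_div.comp Primrec.id
      (Primrec.const m)).to_comp
    have hm' : Computable fun n : ℕ => m * (n / m) :=
      (Primrec.nat_mul.comp (Primrec.const m)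
        (Primrec.nat_div.comp Primrec.id (Primrec.const m))).to_comp
    have h6 : DP A fun n : ℕ => m * (n / m) = n ∧ n / m ∈ X :=
      (dp_eq hm' Computable.id).and (h5.comp hd)
    exact ⟨h6.1.of_eq fun n => (hX n).symm, h6.2.of_eq fun n => not_congr (hX n).symm⟩

end Pool.Agent.U657.HT
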