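import Pool.Agent.U657.HT.WM

/-!
Minimal sets whose words are enumerable in the double jump.
-/

set_option autoImplicit false

namespace Pool.Agent.U657.HT

open Encodable Pool.Agent.Helper446 Pool.Agent.Helper446.Oracle
open Pool.Agent.Y545.HM Pool.Agent.Y545.HM.St
open Pool.Agent.Helper578.JD (jump)

variable {k : ℕ}

/-- the word `w` occurs in `g` at the place `p` -/
def Oc (g : ℕ → Fin k) (w : List ℕ) (p : ℕ) : Prop :=
  ∀ x < w.length, w[x]? = some (g (p + x)).val

/-- every interval of length `L` contains an occurrence of a word of `F` -/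
def Hit (g : ℕ → Fin k) (F : List (List ℕ)) (L : ℕ) : Prop :=
  ∀ n, ∃ j < L, ∃ w ∈ F, Oc g w (n + j)

/-- no member of the orbit closure omits all words of `F` -/
def Em (g : ℕ → Fin k) (F : List (List ℕ)) : Prop := ∃ L, Hit g F L

theorem re_not_oc {A : Set ℕ} {c : ℕ → Fin k} (hc : Gr A c) :
    REIn A fun p : List ℕ × ℕ => ¬ Oc c p.1 p.2 := by
  have h1 : REIn A fun p : List ℕ × ℕ => ∃ x : ℕ, x < p.1.length ∧ ∃ v : Fin k,
      c (p.2 + x) = v ∧ p.1[x]? ≠ some v.val := by
    refine REIn.ex (S := fun (p : List ℕ × ℕ) (x : ℕ) => x < p.1.length ∧ ∃ v : Fin k,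
      c (p.2 + x) = v ∧ p.1[x]? ≠ some v.val) (REIn.and
        (REIn.of_re (RE.lt (by fun_prop) (by fun_prop))) ?_)
    refine REIn.ex (S := fun (p : (List ℕ × ℕ) × ℕ) (v : Fin k) =>
      c (p.1.2 + p.2) = v ∧ p.1.1[p.2]? ≠ some v.val) (REIn.and ?_ (REIn.of_re (RE.ne
        (by fun_prop) ?_)))
    · exact REIn.comp hc (f := fun y : ((List ℕ × ℕ) × ℕ) × Fin k =>
        (y.1.1.2 + y.1.2, y.2)) (by fun_prop)
    · exact Computable.option_some.comp (Primrec.fin_val.to_comp.comp Computable.snd)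
  refine h1.of_eq fun p => ?_
  unfold Oc
  push Not
  constructor
  · rintro ⟨x, hx, v, rfl, h⟩
    exact ⟨x, hx, h⟩
  · rintro ⟨x, hx, h⟩
    exact ⟨x, hx, _, rfl, h⟩

theorem re_em {A : Set ℕ} {c : ℕ → Fin k} (hc : Gr A c) : REIn (jump A) fun F => Em c F := by
  have h1 : REIn A fun p : List (List ℕ) × ℕ => ∃ n : ℕ, ∀ j < p.2, ∀ w ∈ p.1,
      ¬ Oc c w (n + j) := by
    refine REIn.ex (S := fun (p : List (List ℕ) × ℕ) (n : ℕ) => ∀ j < p.2, ∀ w ∈ p.1,
      ¬ Oc c w (n + j)) ?_
    refine REIn.all_lt (S := fun (x : (List (List ℕ) × ℕ) × ℕ) (j : ℕ) => ∀ w ∈ x.1.1,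
      ¬ Oc c w (x.2 + j)) ?_ (by fun_prop)
    refine REIn.all_mem (S := fun (x : ((List (List ℕ) × ℕ) × ℕ) × ℕ) (w : List ℕ) =>
      ¬ Oc c w (x.1.2 + x.2)) (l := fun x => x.1.1.1) ?_ (by fun_prop)
    exact (re_not_oc hc).comp (f := fun y : (((List (List ℕ) × ℕ) × ℕ) × ℕ) × List ℕ =>
      (y.2, y.1.1.2 + y.1.2)) (by fun_prop)
  have h2 : REIn (jump A) fun p : List (List ℕ) × ℕ => Hit c p.1 p.2 := by
    refine REIn.of_eq (Pool.Agent.R603.HCB.bridge.2
      (Pool.Agent.R603.HCB.rein_neg (Pool.Agent.R603.HCB.bridge.1 h1))) fun p => ?_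
    unfold Hit
    push Not
    rfl
  exact REIn.ex (S := fun (F : List (List ℕ)) (L : ℕ) => Hit c F L) h2

/-- the sequence of the lists of forbidden words -/
noncomputable def stp (c : ℕ → Fin k) (p : ℕ × List (List ℕ)) : ℕ × List (List ℕ) := by
  classical exact (p.1 + 1, if Em c (p.2 ++ [(decode p.1).getD []]) then p.2
    else p.2 ++ [(decode p.1).getD []])

theorem gr_stp {A : Set ℕ} {c : ℕ → Fin k} (hc : Gr A c) : Gr (jump (jump A)) (stp c) := by
  classical
  have hd : Computable fun p : ℕ × List (List ℕ) =>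
      p.2 ++ [(decode (α := List ℕ) p.1).getD []] := by
    have h1 : Primrec fun p : ℕ × List (List ℕ) => (decode (α := List ℕ) p.1).getD [] :=
      Primrec.option_getD.comp (Primrec.decode.comp Primrec.fst) (Primrec.const [])
    exact (Primrec.list_append.comp Primrec.snd
      (Primrec.list_cons.comp h1 (Primrec.const []))).to_comp
  have h1 : REIn (jump (jump A)) fun F => Em c F :=
    Pool.Agent.R603.HCB.bridge.2 (Pool.Agent.R603.HCB.rein_jump
      (Pool.Agent.R603.HCB.bridge.1 (re_em hc)))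
  have h2 : REIn (jump (jump A)) fun F => ¬ Em c F :=
    Pool.Agent.R603.HCB.bridge.2 (Pool.Agent.R603.HCB.rein_neg
      (Pool.Agent.R603.HCB.bridge.1 (re_em hc)))
  have h3 : REIn (jump (jump A)) fun x : (ℕ × List (List ℕ)) × (ℕ × List (List ℕ)) =>
      (Em c (x.1.2 ++ [(decode (α := List ℕ) x.1.1).getD []]) ∧ (x.1.1 + 1, x.1.2) = x.2) ∨
      (¬ Em c (x.1.2 ++ [(decode (α := List ℕ) x.1.1).getD []]) ∧
        (x.1.1 + 1, x.1.2 ++ [(decode (α := List ℕ) x.1.1).getD []]) = x.2) := by
    refine REIn.or (REIn.and ?_ ?_) (REIn.and ?_ ?_)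
    · exact h1.comp (f := fun x : (ℕ × List (List ℕ)) × (ℕ × List (List ℕ)) =>
        x.1.2 ++ [(decode (α := List ℕ) x.1.1).getD []]) (hd.comp Computable.fst)
    · exact REIn.of_re (RE.eq (by fun_prop) (by fun_prop))
    · exact h2.comp (f := fun x : (ℕ × List (List ℕ)) × (ℕ × List (List ℕ)) =>
        x.1.2 ++ [(decode (α := List ℕ) x.1.1).getD []]) (hd.comp Computable.fst)
    · refine REIn.of_re (RE.eq ?_ (by fun_prop))
      exact Computable.pair (by fun_prop) (hd.comp Computable.fst)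
  refine h3.of_eq fun x => ?_
  unfold stp
  by_cases h : Em c (x.1.2 ++ [(decode (α := List ℕ) x.1.1).getD []])
  · simp only [h, true_and, not_true_eq_false, false_and, or_false, if_true]
  · simp only [h, false_and, not_false_eq_true, true_and, false_or, if_false]

/-- **Minimal sets which omit given words.** -/
theorem greedy (c : ℕ → Fin k) (F0 : List (List ℕ)) (h0 : ¬ Em c F0) :
    ∃ M : Set (ℕ → Fin k), Minimal M ∧ M ⊆ OrbitClosure c ∧
      (∀ g ∈ M, ∀ w ∈ F0, ∀ p, ¬ Oc g w p) ∧
      ∀ A : Set ℕ, Gr A c → REIn (jump (jump A)) (· ∈ Words M) := by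
  classical
  let s : ℕ → ℕ × List (List ℕ) := fun i => (stp c)^[i] (0, F0)
  have s1 : ∀ i, (s i).1 = i := by
    intro i
    induction i with
    | zero => rfl
    | succ i ih =>
      show ((stp c)^[i + 1] (0, F0)).1 = i + 1
      rw [Function.iterate_succ_apply']
      show (s i).1 + 1 = i + 1
      rw [ih]
  let F : ℕ → List (List ℕ) := fun i => (s i).2
  let w : ℕ → List ℕ := fun i => (decode i).getD []
  have F1 : ∀ i, F (i + 1) = if Em c (F i ++ [w i]) then F i else F i ++ [w i] := by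
    intro i
    have h1 : s (i + 1) = stp c (s i) := Function.iterate_succ_apply' _ _ _
    show (s (i + 1)).2 = _
    rw [h1]
    show (if Em c ((s i).2 ++ [(decode (s i).1).getD []]) then (s i).2
      else (s i).2 ++ [(decode (s i).1).getD []]) = _
    rw [s1]
  have Fne : ∀ i, ¬ Em c (F i) := by
    intro i
    induction i with
    | zero => exact h0
    | succ i ih =>
      rw [F1]
      split_ifs with h
      · exact ih
      · exact h
  have Fmono : ∀ i j, i ≤ j → ∀ v ∈ F i, v ∈ F j := by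
    intro i j hij
    induction hij with
    | refl => exact fun v hv => hv
    | step h ih =>
      intro v hv
      rw [F1]
      split_ifs
      · exact ih v hv
      · exact List.mem_append_left _ (ih v hv)
  let M : Set (ℕ → Fin k) := {g | g ∈ OrbitClosure c ∧ ∀ i, ∀ v ∈ F i, ∀ p, ¬ Oc g v p}
  have Mne : M.Nonempty := by
    have h1 : ∀ i, ∃ n, ∀ j < i, ∀ v ∈ F i, ¬ Oc c v (n + j) := by
      intro i
      by_contra hno
      push Not at hno
      exact Fne i ⟨i, hno⟩
    choose n hn using h1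
    let U : Ultrafilter ℕ := Filter.hyperfilter ℕ
    obtain ⟨g, hg⟩ := Pool.Agent.R603.HCB.exists_lim_fun U fun i x => c (n i + x)
    refine ⟨g, oc_iff.2 fun L => ?_, fun i v hv p hp => ?_⟩
    · obtain ⟨l, hl⟩ := (hg L).exists
      exact ⟨n l, hl⟩
    · have h3 : ∀ᶠ l in (U : Filter ℕ), i + p < l :=
        Nat.hyperfilter_le_atTop (Filter.eventually_gt_atTop (i + p))
      obtain ⟨l, hl, hl2⟩ := ((hg (p + v.length)).and h3).exists
      refine hn l p (by omega) v (Fmono i l (by omega) v hv) fun x hx => ?_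
      rw [hp x hx, add_assoc, hl (p + x) (by omega)]
  have Mcl : IsClosed M := by
    have e : M = OrbitClosure c ∩ ⋂ i, ⋂ v ∈ F i, ⋂ p, {g | ¬ Oc g v p} := by
      ext h; simp [M]
    rw [e]
    refine isClosed_closure.inter ?_
    refine isClosed_iInter fun i => isClosed_iInter fun v => isClosed_iInter fun _ =>
      isClosed_iInter fun p => ?_
    rw [← isOpen_compl_iff]
    have e2 : {g : ℕ → Fin k | ¬ Oc g v p}ᶜ =
        ⋂ x ∈ Finset.range v.length, {g | v[x]? = some (g (p + x)).val} := by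
      ext h; simp [Oc]
    rw [e2]
    refine isOpen_biInter_finset fun x _ => ?_
    have h2 : Continuous fun h : ℕ → Fin k => h (p + x) := continuous_apply _
    exact (isOpen_discrete {q : Fin k | v[x]? = some q.val}).preimage h2
  have Msh : ∀ g ∈ M, (fun x => g (1 + x)) ∈ M := by
    rintro g ⟨h1, h2⟩
    refine ⟨oc_iff.2 fun L => ?_, fun i v hv p hp => h2 i v hv (1 + p) fun x hx => ?_⟩
    · obtain ⟨n, hn⟩ := oc_iff.1 h1 (L + 1)
      refine ⟨n + 1, fun x hx => ?_⟩
      rw [show n + 1 + x = n + (1 + x) by omega]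
      exact hn (1 + x) (by omega)
    · rw [add_assoc]
      exact hp x hx
  -- a word which was not forbidden occurs in every member
  have occ : ∀ g ∈ M, ∀ i, Em c (F i ++ [w i]) → ∃ p, Oc g (w i) p := by
    rintro g ⟨h1, h2⟩ i ⟨L, hL⟩
    have h3 : ∃ B, ∀ v ∈ F i ++ [w i], v.length ≤ B :=
      ⟨((F i ++ [w i]).map List.length).sum, fun v hv =>
        List.le_sum_of_mem (List.mem_map.2 ⟨v, hv, rfl⟩)⟩
    obtain ⟨B, hB⟩ := h3
    obtain ⟨n, hn⟩ := oc_iff.1 h1 (L + B)
    obtain ⟨j, hj, v, hv, hv2⟩ := hL n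
    have h4 : Oc g v j := fun x hx => by
      have h5 := hB v hv
      rw [hv2 x hx, ← hn (j + x) (by omega), add_assoc]
    rcases List.mem_append.1 hv with hv' | hv'
    · exact absurd h4 (h2 i v hv' j)
    · rw [List.mem_singleton] at hv'
      exact ⟨j, hv' ▸ h4⟩
  have pre : ∀ h ∈ M, ∀ i, Oc h (w i) 0 → Em c (F i ++ [w i]) := by
    rintro h ⟨-, h2⟩ i hi
    by_contra hno
    refine h2 (i + 1) (w i) ?_ 0 hi
    rw [F1, if_neg hno]
    exact List.mem_append_right _ (List.mem_singleton.2 rfl)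
  have hM : Minimal M := by
    refine ⟨Mne, Mcl, Msh, fun g hg h hh => oc_iff.2 fun L => ?_⟩
    let v : List ℕ := (List.range L).map fun x => (h x).val
    have hv : w (encode v) = v := by
      simp only [w]
      rw [encodek, Option.getD_some]
    have hvl : v.length = L := by simp [v]
    have hv0 : Oc h v 0 := by
      intro x hx
      rw [hvl] at hx
      rw [List.getElem?_map, List.getElem?_range hx, zero_add]
      rfl
    obtain ⟨p, hp⟩ := occ g hg (encode v) (pre h hh _ (by rw [hv]; exact hv0))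
    rw [hv] at hp
    refine ⟨p, fun x hx => ?_⟩
    have h1 := hp x (by omega)
    have h2 := hv0 x (by omega)
    rw [h1, zero_add] at h2
    exact Fin.ext (Option.some.inj h2)
  refine ⟨M, hM, fun g hg => hg.1, fun g hg v hv p => hg.2 0 v hv p, fun A hA => ?_⟩
  have hs : Gr (jump (jump A)) s := (gr_stp hA).iter (0, F0)
  have hF : Gr (jump (jump A)) fun i => F i ++ [w i] := by
    have h1 : Primrec fun p : ℕ × (ℕ × List (List ℕ)) =>
        p.2.2 ++ [(decode (α := List ℕ) p.1).getD []] := by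
      have h1 : Primrec fun p : ℕ × (ℕ × List (List ℕ)) => (decode (α := List ℕ) p.1).getD [] :=
        Primrec.option_getD.comp (Primrec.decode.comp Primrec.fst) (Primrec.const [])
      exact Primrec.list_append.comp (Primrec.snd.comp Primrec.snd)
        (Primrec.list_cons.comp h1 (Primrec.const []))
    exact Gr.post h1.to_comp ((Gr.of_comp (f := fun i : ℕ => i) (by fun_prop)).pair hs)
  have h1 : REIn (jump (jump A)) fun F => Em c F :=
    Pool.Agent.R603.HCB.bridge.2 (Pool.Agent.R603.HCB.rein_jump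
      (Pool.Agent.R603.HCB.bridge.1 (re_em hA)))
  have h2 : REIn (jump (jump A)) fun i : ℕ => (∃ v : List ℕ, encode v = i) ∧
      Em c (F i ++ [w i]) := by
    refine REIn.and ?_ (re_gr h1 hF)
    refine REIn.ex (S := fun (i : ℕ) (v : List ℕ) => encode v = i) ?_
    exact REIn.of_re (RE.eq (Computable.encode.comp Computable.snd) (by fun_prop))
  refine h2.of_eq fun i => ?_
  constructor
  · rintro ⟨⟨v, rfl⟩, hv⟩
    obtain ⟨g, hg⟩ := Mne
    obtain ⟨p, hp⟩ := occ g hg _ hv
    have hw : w (encode v) = v := by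
      simp only [w]
      rw [encodek, Option.getD_some]
    rw [hw] at hp
    refine ⟨_, hM.shifts hg p, v.length, ?_⟩
    congr 1
    refine List.ext_getElem? fun x => ?_
    rcases lt_or_ge x v.length with hx | hx
    · rw [hp x hx, List.getElem?_map, List.getElem?_range hx]
      rfl
    · rw [List.getElem?_eq_none hx, List.getElem?_eq_none (by simpa using hx)]
  · rintro ⟨g, hg, L, rfl⟩
    refine ⟨⟨_, rfl⟩, pre g hg _ ?_⟩
    have hw : w (encode ((List.range L).map fun x => (g x).val)) =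
        (List.range L).map fun x => (g x).val := by
      simp only [w]
      rw [encodek, Option.getD_some]
    rw [hw]
    intro x hx
    have hx' : x < L := by simpa using hx
    rw [List.getElem?_map, List.getElem?_range hx', zero_add]
    rfl

end Pool.Agent.U657.HT
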