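import Pool.Agent.U657.HT.Circ
import Pool.Agent.U657.HT.Gre

/-!
Minimal sets which are coded by a rotation of the circle.
-/

set_option autoImplicit false

namespace Pool.Agent.U657.HT

open Encodable Pool.Agent.Helper446 Pool.Agent.Helper446.Oracle
open Pool.Agent.Y545.HM Pool.Agent.Y545.HM.St
open Filter Topology
open Pool.Agent.Helper578.JD (jump)

variable {k : ℕ}

section group

variable {K : Type} [AddCommGroup K] [TopologicalSpace K] [IsTopologicalAddGroup K] [CompactSpace K]

/-- long blocks coded by a rotation -/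
theorem sol_of_blocks {A : Set ℕ} {c : ℕ → Fin k} (hc : Computes A (fun n => Part.some (c n).val))
    {α : K} (hd : DenseRange fun n : ℤ => n • α) {U : Fin k → Set K}
    (hf : ∀ θ, ∃ R : Set K, IsOpen R ∧ (0 : K) ∈ closure R ∧ Enum A {n : ℕ | n • α ∈ R} ∧
      ∃ i, ∀ v ∈ R, θ + v ∈ U i)
    (h : ∀ L, ∃ n θ, ∀ j < L, ∀ i, θ + j • α ∈ U i → c (n + j) = i) :
    ∃ X, Solution c X ∧ Computes A (char X) := by
  have hM : Minimal (Set.univ : Set (ℕ → Fin 1)) := by
    refine ⟨⟨fun _ => 0, Set.mem_univ _⟩, isClosed_univ, fun _ _ => Set.mem_univ _, ?_⟩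
    exact fun g _ g' _ => oc_iff.2 fun L => ⟨0, fun x _ => Subsingleton.elim _ _⟩
  have hw : WeaklyMixing (Set.univ : Set (ℕ → Fin 1)) := by
    rintro U₁ V₁ U₂ V₂ - - - - ⟨a, ha⟩ ⟨b, hb⟩ ⟨a', ha'⟩ ⟨b', hb'⟩
    exact ⟨0, ⟨a, ha, (Subsingleton.elim b fun x => a (0 + x)) ▸ hb.2⟩, a', ha',
      (Subsingleton.elim b' fun x => a' (0 + x)) ▸ hb'.2⟩
  have hWM : Enum A (Words (Set.univ : Set (ℕ → Fin 1))) := by
    rw [enum_iff]
    have h1 : REIn A fun w : ℕ => ∃ L : ℕ, encode ((List.range L).map fun _ => (0 : ℕ)) = w := by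
      refine REIn.ex (S := fun (w : ℕ) (L : ℕ) =>
        encode ((List.range L).map fun _ => (0 : ℕ)) = w) (REIn.of_re (RE.eq ?_ (by fun_prop)))
      have h2 : Primrec fun x : ℕ × ℕ => (List.range x.2).map fun _ => (0 : ℕ) :=
        Primrec.list_map (Primrec.list_range.comp Primrec.snd) (Primrec.const 0).to₂
      exact Computable.encode.comp h2.to_comp
    refine h1.of_eq fun w => ?_
    constructor
    · rintro ⟨L, rfl⟩
      exact ⟨fun _ => 0, Set.mem_univ _, L, by simp⟩
    · rintro ⟨g, -, L, rfl⟩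
      exact ⟨L, by simp⟩
  refine sol_of_coded hc hM hw hWM hd (U := fun _ => U) (fun θ => ?_) fun L => ?_
  · obtain ⟨R, h1, h2, h3, h4⟩ := hf θ
    exact ⟨R, h1, h2, h3, fun _ => h4⟩
  · obtain ⟨n, θ, hn⟩ := h L
    exact ⟨n, fun _ => 0, Set.mem_univ _, θ, hn⟩

/-- long codes determine the phases -/
theorem sep {α : K} (hd : DenseRange fun n : ℤ => n • α) {f : K → Fin k}
    (hS : ∀ x y : K, ∃ S : Set K, IsOpen S ∧ S.Nonempty ∧ ∀ v ∈ S, f (x + v) = f x ∧ f (y + v) = f y)
    (hmin : ∀ t, (∀ x, f (x + t) = f x) → t = 0) {V : Set K} (hV : V ∈ 𝓝 (0 : K)) :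
    ∃ l : ℕ, ∀ θ θ' : K, (∀ j < l, f (θ + j • α) = f (θ' + j • α)) → θ' - θ ∈ V := by
  by_contra hcon
  push Not at hcon
  choose θ θ' h1 h2 using hcon
  let U : Ultrafilter ℕ := hyperfilter ℕ
  obtain ⟨a, -, ha⟩ := isCompact_univ.ultrafilter_le_nhds (U.map θ) (by simp)
  obtain ⟨a', -, ha'⟩ := isCompact_univ.ultrafilter_le_nhds (U.map θ') (by simp)
  have ta : Tendsto θ (U : Filter ℕ) (𝓝 a) := ha
  have ta' : Tendsto θ' (U : Filter ℕ) (𝓝 a') := ha'
  have ht : a' - a = 0 := by
    refine hmin _ fun x => ?_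
    obtain ⟨S, hSo, hSn, hS⟩ := hS x (x + (a' - a))
    obtain ⟨G, hG⟩ := rot_gap hd hSo hSn
    obtain ⟨j, -, hj⟩ := hG (a - x)
    have e1 : ∀ᶠ l in (U : Filter ℕ), θ l + j • α - x ∈ S := by
      have h3 : Tendsto (fun l => θ l + j • α - x) U (𝓝 (a + j • α - x)) :=
        (ta.add_const _).sub_const _
      refine h3.eventually (hSo.mem_nhds ?_)
      have e : a + j • α - x = a - x + j • α := by abel
      rwa [e]
    have e2 : ∀ᶠ l in (U : Filter ℕ), θ' l + j • α - (x + (a' - a)) ∈ S := by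
      have h3 : Tendsto (fun l => θ' l + j • α - (x + (a' - a))) U
          (𝓝 (a' + j • α - (x + (a' - a)))) := (ta'.add_const _).sub_const _
      refine h3.eventually (hSo.mem_nhds ?_)
      have e : a' + j • α - (x + (a' - a)) = a - x + j • α := by abel
      rwa [e]
    have e3 : ∀ᶠ l in (U : Filter ℕ), j < l := Nat.hyperfilter_le_atTop (eventually_gt_atTop j)
    obtain ⟨l, ⟨h3, h4⟩, h5⟩ := ((e1.and e2).and e3).exists
    have h6 := (hS _ h3).1
    have h7 := (hS _ h4).2
    rw [add_sub_cancel] at h6 h7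
    rw [← h7, ← h6]
    exact (h1 l j h5).symm
  have h3 : Tendsto (fun l => θ' l - θ l) U (𝓝 0) := by
    rw [← ht]
    exact ta'.sub ta
  obtain ⟨l, hl⟩ := (h3.eventually hV).exists
  exact h2 l hl

end group

/-- The minimal set `N` is coded by a rotation of the circle `ℝ / ℤ` and a partition of the circle
into finitely many intervals (or points): `F` has period `1` and constant germs at both sides of
each point, and there are arbitrarily long `F θ, F (θ + α), F (θ + 2 α), …` in `N`. -/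
def Coded (N : Set (ℕ → Fin k)) : Prop :=
  ∃ (α : ℝ) (F : ℝ → Fin k), (∀ x, F (x + 1) = F x) ∧
    (∀ x, ∃ i i', ∃ ε, 0 < ε ∧ ∀ t, 0 < t → t < ε → F (x + t) = i ∧ F (x - t) = i') ∧
    ∀ L, ∃ g ∈ N, ∃ θ : ℝ, ∀ j < L, g j = F (θ + j * α)

theorem small {P : ℕ → ℝ → Prop} (h : ∀ j, ∃ ε, 0 < ε ∧ ∀ t, 0 < t → t < ε → P j t) (L : ℕ) :
    ∃ ε, 0 < ε ∧ ∀ j < L, ∀ t, 0 < t → t < ε → P j t := by
  induction L with
  | zero => exact ⟨1, one_pos, fun j hj => absurd hj (by omega)⟩
  | succ L ih =>
    obtain ⟨ε, hε, h1⟩ := ih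
    obtain ⟨ε', hε', h2⟩ := h L
    refine ⟨min ε ε', lt_min hε hε', fun j hj t ht ht2 => ?_⟩
    rcases Nat.lt_succ_iff_lt_or_eq.1 hj with hj | rfl
    · exact h1 j hj t ht (lt_of_lt_of_le ht2 (min_le_left _ _))
    · exact h2 t ht (lt_of_lt_of_le ht2 (min_le_right _ _))

/-- the case of a right-continuous coding with least period `T` -/
theorem cod_irr {A : Set ℕ} {c : ℕ → Fin k} (hc : Computes A (fun n => Part.some (c n).val))
    {N : Set (ℕ → Fin k)} (hN : Minimal N) (hNc : N ⊆ OrbitClosure c) (hW : Enum A (Words N))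
    {α : ℝ} {f : ℝ → Fin k} {T : ℝ} (hT : 0 < T) (hfT : ∀ x, f (x + T) = f x)
    (hfr : ∀ x, ∃ ε, 0 < ε ∧ ∀ t, 0 < t → t < ε → f (x + t) = f x)
    (hfl : ∀ x, ∃ i, ∃ ε, 0 < ε ∧ ∀ t, 0 < t → t < ε → f (x - t) = i)
    (hmin : ∀ t, (∀ x, f (x + t) = f x) → ∃ m : ℤ, t = m * T) (hαT : Irrational (α / T))
    (w1 : ∀ (θ : ℝ) (L : ℕ), ∃ g ∈ N, ∀ j < L, g j = f (θ + j * α))
    (w2 : ∀ g ∈ N, ∀ L : ℕ, ∃ θ : ℝ, ∀ j < L, g j = f (θ + j * α)) :
    ∃ X, Solution c X ∧ Computes A (char X) := by
  have : Fact (0 < T) := ⟨hT⟩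
  have hper : Function.Periodic f T := hfT
  let fh : AddCircle T → Fin k := hper.lift
  have hfh : ∀ x : ℝ, fh (x : AddCircle T) = f x := fun x => hper.lift_coe x
  have hd : DenseRange fun n : ℤ => n • (α : AddCircle T) :=
    AddCircle.denseRange_zsmul_coe_iff.2 hαT
  -- a discontinuity
  obtain ⟨b, i, ε0, hε0, hbi, hib⟩ : ∃ b i, ∃ ε0, 0 < ε0 ∧ (∀ t, 0 < t → t < ε0 → f (b - t) = i) ∧
      i ≠ f b := by
    by_contra hcon
    push Not at hcon
    have hl : IsLocallyConstant f := by
      rw [IsLocallyConstant.iff_eventually_eq]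
      intro x
      obtain ⟨ε, hε, h1⟩ := hfr x
      obtain ⟨i, ε', hε', h2⟩ := hfl x
      have h3 := hcon x i ε' hε' h2
      filter_upwards [Metric.ball_mem_nhds x (lt_min hε hε')] with y hy
      rw [Metric.mem_ball, Real.dist_eq, abs_lt] at hy
      obtain ⟨hy1, hy2⟩ := hy
      have := min_le_left ε ε'
      have := min_le_right ε ε'
      rcases lt_trichotomy y x with h | h | h
      · have h4 := h2 (x - y) (by linarith) (by linarith)
        rw [sub_sub_cancel] at h4
        rw [h4, h3]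
      · rw [h]
      · have h4 := h1 (y - x) (by linarith) (by linarith)
        rwa [add_sub_cancel] at h4
    obtain ⟨m, hm⟩ := hmin (T / 2) fun x => hl.apply_eq_of_preconnectedSpace _ _
    have h5 : ((2 * m : ℤ) : ℝ) = (1 : ℤ) := by
      push_cast
      field_simp at hm
      linarith
    have h6 : 2 * m = 1 := by exact_mod_cast h5
    omega
  obtain ⟨ε00, hε00, hbr⟩ := hfr b
  have hS : ∀ x y : AddCircle T, ∃ S : Set (AddCircle T), IsOpen S ∧ S.Nonempty ∧
      ∀ v ∈ S, fh (x + v) = fh x ∧ fh (y + v) = fh y := by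
    intro x y
    obtain ⟨x, rfl⟩ := QuotientAddGroup.mk_surjective x
    obtain ⟨y, rfl⟩ := QuotientAddGroup.mk_surjective y
    obtain ⟨ε, hε, h1⟩ := hfr x
    obtain ⟨ε', hε', h2⟩ := hfr y
    refine ⟨(fun t : ℝ => (t : AddCircle T)) '' Set.Ioo 0 (min ε ε'),
      QuotientAddGroup.isOpenMap_coe _ isOpen_Ioo,
      (Set.nonempty_Ioo.2 (lt_min hε hε')).image _, ?_⟩
    rintro v ⟨t, ⟨ht0, ht1⟩, rfl⟩
    have e1 : (x : AddCircle T) + (t : AddCircle T) = ((x + t : ℝ) : AddCircle T) :=
      (AddCircle.coe_add T x t).symm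
    have e2 : (y : AddCircle T) + (t : AddCircle T) = ((y + t : ℝ) : AddCircle T) :=
      (AddCircle.coe_add T y t).symm
    constructor
    · show fh ((x : AddCircle T) + (t : AddCircle T)) = fh (x : AddCircle T)
      rw [e1, hfh, hfh]
      exact h1 t ht0 (lt_of_lt_of_le ht1 (min_le_left _ _))
    · show fh ((y : AddCircle T) + (t : AddCircle T)) = fh (y : AddCircle T)
      rw [e2, hfh, hfh]
      exact h2 t ht0 (lt_of_lt_of_le ht1 (min_le_right _ _))
  have hmin' : ∀ t : AddCircle T, (∀ x, fh (x + t) = fh x) → t = 0 := by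
    intro t ht
    obtain ⟨t, rfl⟩ := QuotientAddGroup.mk_surjective t
    obtain ⟨m, hm⟩ := hmin t fun x => by
      rw [← hfh, ← hfh, AddCircle.coe_add]
      exact ht _
    refine (AddCircle.coe_eq_zero_iff T).2 ⟨m, ?_⟩
    rw [hm, zsmul_eq_mul]
  refine sol_of_blocks (K := AddCircle T) hc hd (U := fun i => {x | fh x = i}) ?_ ?_
  · intro θ
    obtain ⟨x, rfl⟩ := QuotientAddGroup.mk_surjective θ
    obtain ⟨ε, hε, hx⟩ := hfr x
    let ε1 : ℝ := min ε (min ε0 ε00) / 4
    have hε1 : 0 < ε1 := by positivity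
    have hε1a : 4 * ε1 ≤ ε := by
      show 4 * (min ε (min ε0 ε00) / 4) ≤ ε
      have := min_le_left ε (min ε0 ε00)
      linarith
    have hε1b : 4 * ε1 ≤ ε0 := by
      show 4 * (min ε (min ε0 ε00) / 4) ≤ ε0
      have := (min_le_right ε (min ε0 ε00)).trans (min_le_left ε0 ε00)
      linarith
    have hε1c : 4 * ε1 ≤ ε00 := by
      show 4 * (min ε (min ε0 ε00) / 4) ≤ ε00
      have := (min_le_right ε (min ε0 ε00)).trans (min_le_right ε0 ε00)
      linarith
    have hV : (fun t : ℝ => (t : AddCircle T)) '' Set.Ioo (-ε1) ε1 ∈ 𝓝 (0 : AddCircle T) := by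
      refine (QuotientAddGroup.isOpenMap_coe _ isOpen_Ioo).mem_nhds ⟨0, ⟨by linarith, hε1⟩, ?_⟩
      exact AddCircle.coe_zero T
    obtain ⟨l, hl⟩ := sep hd hS hmin' hV
    obtain ⟨δ0, hδ0, hδ⟩ := small (P := fun j t => f (b + j * α - t) = (hfl (b + j * α)).choose)
      (fun j => (hfl (b + j * α)).choose_spec) (l + 1)
    let δ : ℝ := min δ0 ε1
    have hδp : 0 < δ := lt_min hδ0 hε1
    have hδa : δ ≤ δ0 := min_le_left _ _
    have hδb : δ ≤ ε1 := min_le_right _ _
    let R' : Set ℝ := {r | ∃ y : ℝ, (∀ j < l + 1, f (y + j * α) = f (b - δ / 2 + j * α)) ∧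
      ∀ j < l + 1, f (y + r + j * α) = f (b + j * α)}
    have hR' : IsOpen R' := by
      rw [Metric.isOpen_iff]
      rintro r ⟨y, hy1, hy2⟩
      obtain ⟨η, hη, h1⟩ := small (P := fun j t => f (y + j * α + t) = f (y + j * α))
        (fun j => hfr (y + j * α)) (l + 1)
      obtain ⟨η', hη', h2⟩ := small (P := fun j t => f (y + r + j * α + t) = f (y + r + j * α))
        (fun j => hfr (y + r + j * α)) (l + 1)
      refine ⟨min η η', lt_min hη hη', fun r' hr' => ?_⟩
      rw [Metric.mem_ball, Real.dist_eq, abs_lt] at hr'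
      have := min_le_left η η'
      have := min_le_right η η'
      rcases lt_trichotomy r' r with h | h | h
      · refine ⟨y + (r - r'), fun j hj => ?_, fun j hj => ?_⟩
        · rw [← hy1 j hj, ← h1 j hj (r - r') (by linarith) (by linarith)]
          congr 1
          ring
        · rw [← hy2 j hj]
          congr 1
          ring
      · rw [h]
        exact ⟨y, hy1, hy2⟩
      · refine ⟨y, hy1, fun j hj => ?_⟩
        rw [← hy2 j hj, ← h2 j hj (r' - r) (by linarith) (by linarith)]
        congr 1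
        ring
    refine ⟨(fun t : ℝ => (t : AddCircle T)) '' R', QuotientAddGroup.isOpenMap_coe _ hR', ?_, ?_,
      f x, ?_⟩
    · have h1 : (0 : ℝ) ∈ closure (Set.Ioo 0 δ) := by
        rw [closure_Ioo hδp.ne]
        exact ⟨le_rfl, hδp.le⟩
      have h2 : Continuous fun t : ℝ => (t : AddCircle T) := AddCircle.continuous_mk' T
      have h3 : Set.Ioo 0 δ ⊆ R' := by
        rintro t ⟨ht0, ht1⟩
        refine ⟨b - t, fun j hj => ?_, fun j hj => ?_⟩
        · have h4 := hδ j hj t ht0 (by linarith)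
          have h5 := hδ j hj (δ / 2) (by linarith) (by linarith)
          rw [show b - t + j * α = b + j * α - t by ring, h4,
            show b - δ / 2 + j * α = b + j * α - δ / 2 by ring, h5]
        · rw [sub_add_cancel]
      exact image_closure_subset_closure_image h2 ⟨0, closure_mono h3 h1, rfl⟩
    · rw [enum_iff]
      let u : List (ℕ × ℕ) := (List.range (l + 1)).map fun j => (j, (f (b - δ / 2 + j * α)).val)
      let v : List (ℕ × ℕ) := (List.range (l + 1)).map fun j => (j, (f (b + j * α)).val)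
      have h1 : REIn A fun n : ℕ => ∃ w : List ℕ, encode w ∈ Words N ∧
          (∀ p ∈ u, w[p.1]? = some p.2) ∧ ∀ p ∈ v, w[n + p.1]? = some p.2 := by
        refine REIn.ex (S := fun (n : ℕ) (w : List ℕ) => encode w ∈ Words N ∧
          (∀ p ∈ u, w[p.1]? = some p.2) ∧ ∀ p ∈ v, w[n + p.1]? = some p.2)
          (REIn.and ?_ (REIn.and ?_ ?_))
        · exact (enum_iff.1 hW).comp (f := fun x : ℕ × List ℕ => encode x.2)
            (Computable.encode.comp (by fun_prop))
        · refine REIn.all_mem (S := fun (x : ℕ × List ℕ) (p : ℕ × ℕ) => x.2[p.1]? = some p.2)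
            (l := fun _ => u) ?_ (Computable.const u)
          exact REIn.of_re (RE.eq (by fun_prop) (by fun_prop))
        · refine REIn.all_mem (S := fun (x : ℕ × List ℕ) (p : ℕ × ℕ) =>
            x.2[x.1 + p.1]? = some p.2) (l := fun _ => v) ?_ (Computable.const v)
          exact REIn.of_re (RE.eq (by fun_prop) (by fun_prop))
      refine h1.of_eq fun n => ?_
      constructor
      · rintro ⟨w, ⟨g, hg, L, hL⟩, hw1, hw2⟩
        have hw' : w = (List.range L).map fun x => (g x).val := encode_injective hL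
        subst hw'
        have key : ∀ s (a : Fin k), ((List.range L).map fun x => (g x).val)[s]? = some a.val →
            g s = a := by
          intro s a hs
          rw [List.getElem?_map] at hs
          have h2 : s < L := by
            by_contra hcon
            rw [List.getElem?_eq_none (by simpa using hcon)] at hs
            cases hs
          rw [List.getElem?_range h2] at hs
          exact Fin.ext (Option.some.inj hs)
        obtain ⟨y, hy⟩ := w2 g hg (n + (l + 1))
        refine ⟨n * α, ⟨y, fun j hj => ?_, fun j hj => ?_⟩, ?_⟩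
        · rw [← hy j (by omega)]
          exact key j _ (hw1 (j, _) (List.mem_map.2 ⟨j, List.mem_range.2 hj, rfl⟩))
        · have h3 := hy (n + j) (by omega)
          rw [show y + n * α + j * α = y + ((n + j : ℕ) : ℝ) * α by push_cast; ring, ← h3]
          exact key (n + j) _ (hw2 (j, _) (List.mem_map.2 ⟨j, List.mem_range.2 hj, rfl⟩))
        · show ((n * α : ℝ) : AddCircle T) = n • (α : AddCircle T)
          rw [← AddCircle.coe_nsmul, nsmul_eq_mul]
      · rintro ⟨r, ⟨y, hy1, hy2⟩, hr⟩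
        have h4 : ((n • α - r : ℝ) : AddCircle T) = 0 := by
          rw [AddCircle.coe_sub, AddCircle.coe_nsmul, sub_eq_zero]
          exact hr.symm
        obtain ⟨m, hm⟩ := (AddCircle.coe_eq_zero_iff T).1 h4
        have h5 : (n : ℝ) * α = r + m * T := by
          have h6 : m • T = n • α - r := hm
          rw [zsmul_eq_mul, nsmul_eq_mul] at h6
          linarith
        obtain ⟨g, hg, hgy⟩ := w1 y (n + (l + 1))
        refine ⟨(List.range (n + (l + 1))).map fun x => (g x).val, ⟨g, hg, _, rfl⟩, ?_, ?_⟩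
        · rintro p hp
          obtain ⟨j, hj, rfl⟩ := List.mem_map.1 hp
          have hj' := List.mem_range.1 hj
          show ((List.range (n + (l + 1))).map fun x => (g x).val)[j]? = _
          rw [List.getElem?_map, List.getElem?_range (by omega)]
          show some (g j).val = some (f (b - δ / 2 + j * α)).val
          rw [hgy j (by omega), hy1 j hj']
        · rintro p hp
          obtain ⟨j, hj, rfl⟩ := List.mem_map.1 hp
          have hj' := List.mem_range.1 hj
          show ((List.range (n + (l + 1))).map fun x => (g x).val)[n + j]? = _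
          rw [List.getElem?_map, List.getElem?_range (by omega)]
          show some (g (n + j)).val = some (f (b + j * α)).val
          rw [hgy (n + j) (by omega), ← hy2 j hj']
          have h7 : y + ((n + j : ℕ) : ℝ) * α = y + r + j * α + m * T := by
            push_cast
            linear_combination h5
          rw [h7, hper.int_mul m _]
    · rintro v ⟨r, ⟨y, hy1, hy2⟩, rfl⟩
      have cv : ∀ (z : ℝ) (j : ℕ), fh ((z : AddCircle T) + j • (α : AddCircle T)) =
          f (z + j * α) := by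
        intro z j
        rw [← hfh, AddCircle.coe_add, ← nsmul_eq_mul, AddCircle.coe_nsmul]
      have lift : ∀ z z' : ℝ, (∀ j < l + 1, f (z + j * α) = f (z' + j * α)) →
          ∃ s, -ε1 < s ∧ s < ε1 ∧ ∃ m : ℤ, z' - z = s + m * T := by
        intro z z' hz
        obtain ⟨s, ⟨hs1, hs2⟩, hs3⟩ := hl (z : AddCircle T) (z' : AddCircle T) fun j hj => by
          rw [cv, cv]
          exact hz j (by omega)
        have h4 : ((z' - z - s : ℝ) : AddCircle T) = 0 := by
          rw [AddCircle.coe_sub, AddCircle.coe_sub, sub_eq_zero]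
          exact hs3.symm
        obtain ⟨m, hm⟩ := (AddCircle.coe_eq_zero_iff T).1 h4
        refine ⟨s, hs1, hs2, m, ?_⟩
        have h6 : m • T = z' - z - s := hm
        rw [zsmul_eq_mul] at h6
        linarith
      obtain ⟨s, hs1, hs2, m, hm⟩ := lift _ _ hy1
      obtain ⟨s', hs1', hs2', m', hm'⟩ := lift _ _ hy2
      have f1 : f (b - δ / 2 - s) = i := by
        have h1 := hy1 0 (by omega)
        rw [Nat.cast_zero, zero_mul, add_zero, add_zero, hbi (δ / 2) (by linarith) (by linarith)]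
          at h1
        rw [← h1, ← hper.int_mul m y]
        congr 1
        linarith
      have f2 : f (b - s') = f b := by
        have h1 := hy2 0 (by omega)
        rw [Nat.cast_zero, zero_mul, add_zero, add_zero] at h1
        rw [← h1, ← hper.int_mul m' (y + r)]
        congr 1
        linarith
      have p1 : 0 < δ / 2 + s := by
        by_contra hcon
        push Not at hcon
        rcases hcon.lt_or_eq with h | h
        · apply hib
          rw [← f1, ← hbr (-(δ / 2 + s)) (by linarith) (by linarith)]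
          congr 1
          ring
        · apply hib
          rw [← f1]
          congr 1
          linarith
      have p2 : s' ≤ 0 := by
        by_contra hcon
        push Not at hcon
        apply hib
        rw [← f2]
        exact (hbi s' hcon (by linarith)).symm
      show fh ((x : AddCircle T) + (r : AddCircle T)) = f x
      rw [← AddCircle.coe_add, hfh, ← hx (δ / 2 + s - s') (by linarith) (by linarith),
        ← hper.int_mul (m - m') (x + (δ / 2 + s - s'))]
      congr 1
      push_cast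
      linarith
  · intro L
    obtain ⟨g, hg⟩ := hN.nonempty
    obtain ⟨n, hn⟩ := oc_iff.1 (hNc hg) L
    obtain ⟨θ, hθ⟩ := w2 g hg L
    refine ⟨n, (θ : AddCircle T), fun j hj i hi => ?_⟩
    rw [hn j hj, hθ j hj, ← hfh, ← show fh ((θ : AddCircle T) + j • (α : AddCircle T)) = i from hi]
    congr 1
    rw [AddCircle.coe_add, ← AddCircle.coe_nsmul, nsmul_eq_mul]

/-- **Minimal sets coded by a rotation of the circle** -/
theorem sol_of_codedSet {A : Set ℕ} {c : ℕ → Fin k}
    (hc : Computes A (fun n => Part.some (c n).val))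
    {N : Set (ℕ → Fin k)} (hN : Minimal N) (hNc : N ⊆ OrbitClosure c) (hW : Enum A (Words N))
    (hcod : Coded N) : ∃ X, Solution c X ∧ Computes A (char X) := by
  obtain ⟨α, F, hF, hg, hb⟩ := hcod
  have hperF : Function.Periodic F 1 := hF
  -- periodic blocks
  have per : ∀ q, 0 < q → (∀ L, ∃ g ∈ N, ∀ j < L, g (j + q) = g j) →
      ∃ X, Solution c X ∧ Computes A (char X) := by
    intro q hq h
    obtain ⟨g, hg1, hg2⟩ := rec_of_blocks (c := c) hq fun L => by
      obtain ⟨g, hg, hgL⟩ := h L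
      obtain ⟨n, hn⟩ := oc_iff.1 (hNc hg) (L + q)
      refine ⟨n, fun j hj => ?_⟩
      rw [add_assoc, hn (j + q) (by omega), hn j (by omega), hgL j hj]
    exact sol_of_rec hc (comp_periodic hq hg1) hg2
  by_cases hα : Irrational α
  swap
  · unfold Irrational at hα
    push Not at hα
    obtain ⟨r, hr⟩ := hα
    refine per r.den r.pos fun L => ?_
    obtain ⟨g, hg, θ, hθ⟩ := hb (L + r.den)
    refine ⟨g, hg, fun j hj => ?_⟩
    rw [hθ (j + r.den) (by omega), hθ j (by omega)]
    have h1 : θ + ((j + r.den : ℕ) : ℝ) * α = θ + j * α + (r.num : ℤ) * 1 := by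
      rw [← hr]
      have h2 : (r.den : ℝ) * (r : ℝ) = r.num := by
        exact_mod_cast Rat.den_mul_eq_num r
      push_cast
      rw [add_mul, h2]
      ring
    rw [h1]
    exact hperF.int_mul r.num _
  choose f f' ε hε hfe using hg
  have hf1 : ∀ x, f (x + 1) = f x := by
    intro x
    have h1 : 0 < min (ε x) (ε (x + 1)) := lt_min (hε _) (hε _)
    have h2 := min_le_left (ε x) (ε (x + 1))
    have h3 := min_le_right (ε x) (ε (x + 1))
    rw [← (hfe x (min (ε x) (ε (x + 1)) / 2) (by linarith) (by linarith)).1,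
      ← (hfe (x + 1) (min (ε x) (ε (x + 1)) / 2) (by linarith) (by linarith)).1,
      ← hF (x + min (ε x) (ε (x + 1)) / 2)]
    congr 1
    ring
  have hfr : ∀ x, ∃ ε, 0 < ε ∧ ∀ t, 0 < t → t < ε → f (x + t) = f x := by
    refine fun x => ⟨ε x, hε x, fun t ht0 ht1 => ?_⟩
    have h1 : 0 < min (ε (x + t)) (ε x - t) := lt_min (hε _) (by linarith)
    have h2 := min_le_left (ε (x + t)) (ε x - t)
    have h3 := min_le_right (ε (x + t)) (ε x - t)
    rw [← (hfe x (t + min (ε (x + t)) (ε x - t) / 2) (by linarith) (by linarith)).1,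
      ← (hfe (x + t) (min (ε (x + t)) (ε x - t) / 2) (by linarith) (by linarith)).1]
    congr 1
    ring
  have hfl : ∀ x, ∃ i, ∃ ε, 0 < ε ∧ ∀ t, 0 < t → t < ε → f (x - t) = i := by
    refine fun x => ⟨f' x, ε x, hε x, fun t ht0 ht1 => ?_⟩
    have h1 : 0 < min (ε (x - t)) t := lt_min (hε _) ht0
    have h2 := min_le_left (ε (x - t)) t
    have h3 := min_le_right (ε (x - t)) t
    rw [← (hfe x (t - min (ε (x - t)) t / 2) (by linarith) (by linarith)).2,
      ← (hfe (x - t) (min (ε (x - t)) t / 2) (by linarith) (by linarith)).1]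
    congr 1
    ring
  have w1 : ∀ (θ : ℝ) (L : ℕ), ∃ g ∈ N, ∀ j < L, g j = f (θ + j * α) := by
    intro θ L
    have : Fact ((0 : ℝ) < 1) := ⟨one_pos⟩
    have hd : DenseRange fun n : ℤ => n • (α : AddCircle (1 : ℝ)) :=
      AddCircle.denseRange_zsmul_coe_iff.2 (by rwa [div_one])
    obtain ⟨η, hη, h1⟩ := small (P := fun j t => F (θ + j * α + t) = f (θ + j * α))
      (fun j => ⟨_, hε (θ + j * α), fun t h1 h2 => (hfe _ t h1 h2).1⟩) L
    obtain ⟨G, hG⟩ := rot_gap hd (W := (fun t : ℝ => (t : AddCircle (1 : ℝ))) ''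
      Set.Ioo θ (θ + η)) (QuotientAddGroup.isOpenMap_coe _ isOpen_Ioo)
      ((Set.nonempty_Ioo.2 (by linarith)).image _)
    obtain ⟨g, hg, θ', hθ'⟩ := hb (G + L)
    obtain ⟨p, hp, t, ⟨ht1, ht2⟩, ht3⟩ := hG (θ' : AddCircle (1 : ℝ))
    have h4 : ((θ' + p * α - t : ℝ) : AddCircle (1 : ℝ)) = 0 := by
      rw [AddCircle.coe_sub, AddCircle.coe_add, ← nsmul_eq_mul, AddCircle.coe_nsmul, sub_eq_zero]
      exact ht3.symm
    obtain ⟨m, hm⟩ := (AddCircle.coe_eq_zero_iff (1 : ℝ)).1 h4
    have h5 : θ' + p * α = t + m * 1 := by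
      have h6 : m • (1 : ℝ) = θ' + p * α - t := hm
      rw [zsmul_eq_mul] at h6
      linarith
    refine ⟨_, hN.shifts hg p, fun j hj => ?_⟩
    show g (p + j) = _
    rw [hθ' (p + j) (by omega), ← h1 j hj (t - θ) (by linarith) (by linarith),
      ← hperF.int_mul m (θ + j * α + (t - θ))]
    congr 1
    push_cast
    linear_combination h5
  have w2 : ∀ g ∈ N, ∀ L : ℕ, ∃ θ : ℝ, ∀ j < L, g j = f (θ + j * α) := by
    intro g hg L
    obtain ⟨G, hG⟩ := hN.gap hg L
    obtain ⟨h, hh, hh2⟩ := w1 0 (G + L)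
    obtain ⟨p, hp, hp2⟩ := hG h hh
    refine ⟨p * α, fun j hj => ?_⟩
    rw [← hp2 j hj, hh2 (p + j) (by omega)]
    congr 1
    push_cast
    ring
  -- the periods
  let P : AddSubgroup ℝ :=
    { carrier := {t | ∀ x, f (x + t) = f x}
      zero_mem' := fun x => by rw [add_zero]
      add_mem' := fun {a b} ha hb x => by rw [← add_assoc, hb, ha]
      neg_mem' := fun {a} ha x => by
        have h1 := ha (x + -a)
        rw [neg_add_cancel_right] at h1
        exact h1.symm }
  have hP : ∀ t, t ∈ P ↔ ∀ x, f (x + t) = f x := fun t => Iff.rfl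
  rcases AddSubgroup.dense_or_cyclic P with hd | ⟨a, ha⟩
  · -- `f` is constant
    have hcon : ∀ x y, f x = f y := by
      intro x y
      obtain ⟨η, hη, h1⟩ := hfr x
      obtain ⟨s, hs, hs2⟩ := hd.exists_mem_open (U := Set.Ioo (x - y) (x - y + η)) isOpen_Ioo
        (Set.nonempty_Ioo.2 (by linarith))
      rw [← (hP s).1 hs y, ← h1 (y + s - x) (by linarith [hs2.1]) (by linarith [hs2.2])]
      congr 1
      ring
    refine per 1 one_pos fun L => ?_
    obtain ⟨g, hg⟩ := hN.nonempty
    obtain ⟨θ, hθ⟩ := w2 g hg (L + 1)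
    exact ⟨g, hg, fun j hj => by rw [hθ (j + 1) (by omega), hθ j (by omega)]; exact hcon _ _⟩
  · have h1 : (1 : ℝ) ∈ P := (hP 1).2 hf1
    have hmem : ∀ t, t ∈ P ↔ ∃ m : ℤ, m • a = t := by
      intro t
      rw [ha, ← AddSubgroup.zmultiples_eq_closure, AddSubgroup.mem_zmultiples_iff]
    obtain ⟨p, hp⟩ := (hmem 1).1 h1
    rw [zsmul_eq_mul] at hp
    have ha0 : a ≠ 0 := by
      rintro rfl
      simp at hp
    have hp0 : p ≠ 0 := by
      rintro rfl
      simp at hp
    have habs : |a| ∈ P := by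
      rcases abs_choice a with h | h
      · rw [h]
        exact (hmem a).2 ⟨1, one_smul _ _⟩
      · rw [h]
        exact (hmem (-a)).2 ⟨-1, by simp⟩
    refine cod_irr hc hN hNc hW (abs_pos.2 ha0) ((hP _).1 habs) hfr hfl (fun t ht => ?_) ?_ w1 w2
    · obtain ⟨m, hm⟩ := (hmem t).1 ((hP t).2 ht)
      rw [zsmul_eq_mul] at hm
      rcases abs_choice a with h | h
      · exact ⟨m, by rw [h, hm]⟩
      · exact ⟨-m, by rw [h, ← hm]; push_cast; ring⟩
    · have h2 : α / a = α * p := by
        rw [div_eq_iff ha0, mul_assoc, hp, mul_one]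
      rcases abs_choice a with h | h
      · rw [h, h2]
        exact hα.mul_intCast hp0
      · rw [h, div_neg, h2]
        exact (hα.mul_intCast hp0).neg

/-- The words of the minimal set, if it is the only one. -/
theorem words_unique {A : Set ℕ} {k : ℕ} {c : ℕ → Fin k} (hc : Gr A c) {M : Set (ℕ → Fin k)}
    (hM : ∀ M', Minimal M' ∧ M' ⊆ OrbitClosure c ↔ M' = M) : REIn (jump A) (· ∈ Words M) := by
  obtain ⟨hmin, hsub⟩ := (hM M).2 rfl
  have h1 : ∀ v : List ℕ, (∃ g ∈ M, Oc g v 0) ↔ Em c [v] := by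
    intro v
    constructor
    · rintro ⟨g, hg, hv⟩
      by_contra hno
      obtain ⟨M', h1, h2, h3, -⟩ := greedy c [v] hno
      have h4 : M' = M := (hM M').1 ⟨h1, h2⟩
      subst h4
      exact h3 g hg v (List.mem_singleton.2 rfl) 0 hv
    · rintro ⟨L, hL⟩
      obtain ⟨g, hg⟩ := hmin.nonempty
      obtain ⟨n, hn⟩ := oc_iff.1 (hsub hg) (L + v.length)
      obtain ⟨j, hj, w, hw, hw2⟩ := hL n
      rw [List.mem_singleton] at hw
      subst hw
      refine ⟨_, hmin.shifts hg j, fun x hx => ?_⟩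
      rw [hw2 x hx, zero_add, ← hn (j + x) (by omega), add_assoc]
  have h2 : REIn (jump A) fun i : ℕ => ∃ v : List ℕ, encode v = i ∧ Em c [v] := by
    refine REIn.ex (S := fun (i : ℕ) (v : List ℕ) => encode v = i ∧ Em c [v]) (REIn.and ?_ ?_)
    · exact REIn.of_re (RE.eq (Computable.encode.comp Computable.snd) (by fun_prop))
    · exact (re_em hc).comp (f := fun x : ℕ × List ℕ => [x.2])
        (Primrec.list_cons.comp Primrec.snd (Primrec.const [])).to_comp
  refine h2.of_eq fun i => ?_
  constructor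
  · rintro ⟨v, rfl, hv⟩
    obtain ⟨g, hg, hgv⟩ := (h1 v).2 hv
    refine ⟨g, hg, v.length, ?_⟩
    congr 1
    refine List.ext_getElem? fun x => ?_
    rcases lt_or_ge x v.length with hx | hx
    · rw [hgv x hx, List.getElem?_map, List.getElem?_range hx, zero_add]
      rfl
    · rw [List.getElem?_eq_none hx, List.getElem?_eq_none (by simpa using hx)]
  · rintro ⟨g, hg, L, rfl⟩
    refine ⟨_, rfl, (h1 _).1 ⟨g, hg, fun x hx => ?_⟩⟩
    have hx' : x < L := by simpa using hx
    rw [List.getElem?_map, List.getElem?_range hx', zero_add]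
    rfl

end Pool.Agent.U657.HT
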