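import Pool.Agent.R603.HCB.Fin

/-!
Dependent choice for relations enumerable in an oracle, and a greedy construction guided by an
enumerable set of words.
-/

set_option autoImplicit false

namespace Pool.Agent.U657.HT

open Encodable Pool.Agent.Helper446 Pool.Agent.Helper446.Oracle
open Pool.Agent.Y545.HM Pool.Agent.Y545.HM.St

section dep

variable {α : Type*} [Primcodable α] {A : Set ℕ}

/-- enumeration of a nonempty set enumerable in `A` -/
theorem exists_enum_in {S : α → Prop} (hS : REIn A S) {a0 : α} (h0 : S a0) :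
    ∃ e : ℕ → α, Gr A e ∧ ∀ a, S a ↔ ∃ i, e i = a := by
  classical
  obtain ⟨R0, hR0, hS0⟩ := hS
  obtain ⟨q, hq, hq2⟩ := RE.re_iff.1 hR0
  let t0 : α × ((List ℕ × List ℕ) × ℕ) := (a0, (([], []), 0))
  let d : ℕ → α × ((List ℕ × List ℕ) × ℕ) := fun e =>
    (decode (α := α × ((List ℕ × List ℕ) × ℕ)) e).getD t0
  have hd : Computable d := Primrec.option_getD.to_comp.comp (by fun_prop) (by fun_prop)
  have hq' : Computable fun x : ℕ => q ((d x).1, (d x).2.1) (d x).2.2 :=
    hq.comp (g := fun x : ℕ => ((d x).1, (d x).2.1))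
      (h := fun x : ℕ => (d x).2.2) (by fun_prop) (by fun_prop)
  let Good : ℕ → Prop := fun e => q ((d e).1, (d e).2.1) (d e).2.2 = true ∧ Ok A (d e).2.1
  have hg1 : REIn A fun x : ℕ => Good x := by
    refine REIn.and (REIn.of_re (RE.of_bool hq')) ?_
    exact re_ok (by fun_prop)
  have hg2 : REIn A fun x : ℕ => ¬ Good x := by
    have h3 : REIn A fun x : ℕ => (q ((d x).1, (d x).2.1) (d x).2.2 ≠ true) ∨
        ¬ Ok A (d x).2.1 := by
      refine REIn.or (REIn.of_re (RE.ne hq' (by fun_prop))) ?_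
      exact re_not_ok (by fun_prop)
    exact h3.of_eq fun x => not_and_or.symm
  refine ⟨fun i => if Good i then (d i).1 else a0, ?_, fun a => ?_⟩
  · have h4 : REIn A fun p : ℕ × α => (Good p.1 ∧ (d p.1).1 = p.2) ∨ (¬ Good p.1 ∧ a0 = p.2) := by
      refine REIn.or (REIn.and ?_ (REIn.of_re (RE.eq (by fun_prop) (by fun_prop))))
        (REIn.and ?_ (REIn.of_re (RE.eq (by fun_prop) (by fun_prop))))
      · exact hg1.comp (f := fun x : ℕ × α => x.1) (by fun_prop)
      · exact hg2.comp (f := fun x : ℕ × α => x.1) (by fun_prop)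
    refine h4.of_eq fun p => ?_
    show _ ↔ (if Good p.1 then (d p.1).1 else a0) = p.2
    by_cases hp : Good p.1
    · simp [hp]
    · simp [hp]
  · constructor
    · intro ha
      obtain ⟨c, hc, hok⟩ := (hS0 a).1 ha
      obtain ⟨t, ht⟩ := (hq2 (a, c)).1 hc
      have hdi : d (encode (a, (c, t))) = (a, (c, t)) := by
        simp only [d]
        rw [encodek, Option.getD_some]
      have hgd : Good (encode (a, (c, t))) := by
        simp only [Good, hdi]
        exact ⟨ht, hok⟩
      refine ⟨encode (a, (c, t)), ?_⟩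
      show (if Good _ then (d _).1 else a0) = a
      rw [if_pos hgd, hdi]
    · rintro ⟨i, rfl⟩
      show S (if Good i then (d i).1 else a0)
      by_cases hi : Good i
      · rw [if_pos hi]
        exact (hS0 _).2 ⟨_, (hq2 ((d i).1, (d i).2.1)).2 ⟨_, hi.1⟩, hi.2⟩
      · rw [if_neg hi]
        exact h0

/-- dependent choice inside a set enumerable in `A` -/
theorem exists_seq {R : α → α → Prop} (hR : REIn A fun x : α × α => R x.1 x.2)
    {S : α → Prop} (hS : REIn A S) {a0 : α} (h0 : S a0)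
    (h : ∀ a, S a → ∃ b, S b ∧ R a b) :
    ∃ s : ℕ → α, Gr A s ∧ s 0 = a0 ∧ ∀ n, S (s n) ∧ R (s n) (s (n + 1)) := by
  obtain ⟨e, he, he2⟩ := exists_enum_in hS h0
  have h1 : REIn A fun x : ℕ × ℕ => R (e x.1) (e x.2) := by
    refine re_gr (S := fun x : α × α => R x.1 x.2) hR (f := fun x : ℕ × ℕ => (e x.1, e x.2)) ?_
    exact (he.pre (g := fun x : ℕ × ℕ => x.1) (by fun_prop)).pair
      (he.pre (g := fun x : ℕ × ℕ => x.2) (by fun_prop))
  obtain ⟨f, hf, hf2⟩ := choice (R := fun i j => R (e i) (e j)) h1 (by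
    intro i
    obtain ⟨b, hb, hb2⟩ := h (e i) ((he2 _).2 ⟨i, rfl⟩)
    obtain ⟨j, rfl⟩ := (he2 b).1 hb
    exact ⟨j, hb2⟩)
  obtain ⟨i0, hi0⟩ := (he2 a0).1 h0
  refine ⟨fun n => e (f^[n] i0), he.comp (hf.iter i0), hi0, fun n => ⟨(he2 _).2 ⟨_, rfl⟩, ?_⟩⟩
  show R (e (f^[n] i0)) (e (f^[n + 1] i0))
  rw [Function.iterate_succ_apply']
  exact hf2 _

end dep

variable {k : ℕ}

/-- The codes of the initial segments of the members of `M`. -/
def Words (M : Set (ℕ → Fin k)) : Set ℕ :=
  {w | ∃ g ∈ M, ∃ L, w = encode ((List.range L).map fun x => (g x).val)}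

/-- The construction of a sequence all of whose sums have the same colour, guided by the words. -/
theorem core {A : Set ℕ} {c : ℕ → Fin k} (hc : Gr A c) {M : Set (ℕ → Fin k)} (hne : M.Nonempty)
    (hM : REIn A (· ∈ Words M))
    (h : ∀ g ∈ M, ∀ N, ∃ g' ∈ M, ∃ y, N ≤ y ∧ (∀ x < N, g' x = g x) ∧
      ∀ x < N, c (x + y) = g x ∧ g' (x + y) = g x) :
    ∃ (i : Fin k) (y : ℕ → ℕ), Gr A y ∧ StrictMono y ∧ 0 < y 0 ∧
      ∀ F : Finset ℕ, F.Nonempty → c (∑ n ∈ F, y n) = i := by
  obtain ⟨g0, hg0⟩ := hne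
  generalize hi : g0 0 = i
  let S : ℕ × List ℕ → Prop := fun p => 0 ∈ p.2 ∧ ∃ w : List ℕ, encode w ∈ Words M ∧
    ∀ s ∈ p.2, w[s]? = some i.val
  let R : ℕ × List ℕ → ℕ × List ℕ → Prop := fun p q => p.1 < q.1 ∧
    q.2 = p.2 ++ p.2.map (fun s => s + q.1) ∧ ∀ s ∈ p.2, c (s + q.1) = i
  have hSiff : ∀ p, S p ↔ 0 ∈ p.2 ∧ ∃ g ∈ M, ∀ s ∈ p.2, g s = i := by
    intro p
    refine and_congr_right fun _ => ⟨?_, ?_⟩
    · rintro ⟨w, ⟨g, hg, L, hL⟩, hw⟩
      have hw' : w = (List.range L).map fun x => (g x).val := encode_injective hL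
      subst hw'
      refine ⟨g, hg, fun s hs => ?_⟩
      have h1 := hw s hs
      rw [List.getElem?_map] at h1
      have h2 : s < L := by
        by_contra hcon
        rw [List.getElem?_eq_none (by simpa using hcon)] at h1
        cases h1
      rw [List.getElem?_range h2] at h1
      exact Fin.ext (Option.some.inj h1)
    · rintro ⟨g, hg, hs⟩
      refine ⟨(List.range (p.2.sum + 1)).map fun x => (g x).val, ⟨g, hg, _, rfl⟩, fun s hsm => ?_⟩
      have h1 : s < p.2.sum + 1 := Nat.lt_succ_of_le (List.le_sum_of_mem hsm)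
      rw [List.getElem?_map, List.getElem?_range h1]
      show some (g s).val = some i.val
      rw [hs s hsm]
  have hS : REIn A S := by
    refine REIn.and (REIn.of_re (RE.mem_list (by fun_prop) (by fun_prop))) ?_
    refine REIn.ex (S := fun (p : ℕ × List ℕ) (w : List ℕ) => encode w ∈ Words M ∧
      ∀ s ∈ p.2, w[s]? = some i.val) (REIn.and ?_ ?_)
    · exact hM.comp (f := fun x : (ℕ × List ℕ) × List ℕ => encode x.2)
        (Computable.encode.comp (by fun_prop))
    · refine REIn.all_mem (S := fun (x : (ℕ × List ℕ) × List ℕ) (s : ℕ) => x.2[s]? = some i.val)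
        (l := fun x => x.1.2) ?_ (by fun_prop)
      exact REIn.of_re (RE.eq (by fun_prop) (by fun_prop))
  have hR : REIn A fun x : (ℕ × List ℕ) × (ℕ × List ℕ) => R x.1 x.2 := by
    refine REIn.and (REIn.of_re (RE.lt (by fun_prop) (by fun_prop))) (REIn.and ?_ ?_)
    · refine REIn.of_re (RE.eq (by fun_prop) ?_)
      have hmap : Primrec fun x : (ℕ × List ℕ) × (ℕ × List ℕ) =>
          x.1.2 ++ x.1.2.map (fun s => s + x.2.1) := by
        refine Primrec.list_append.comp (Primrec.snd.comp Primrec.fst) ?_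
        refine Primrec.list_map (Primrec.snd.comp Primrec.fst) ?_
        exact Primrec.nat_add.comp Primrec.snd
          ((Primrec.fst.comp Primrec.snd).comp Primrec.fst)
      exact hmap.to_comp
    · refine REIn.all_mem (S := fun (x : (ℕ × List ℕ) × (ℕ × List ℕ)) (s : ℕ) =>
        c (s + x.2.1) = i) (l := fun x => x.1.2) ?_ (by fun_prop)
      exact REIn.comp hc (f := fun y : ((ℕ × List ℕ) × (ℕ × List ℕ)) × ℕ =>
        (y.2 + y.1.2.1, i)) (by fun_prop)
  obtain ⟨s, hs, hs0, hs1⟩ := exists_seq hR hS (a0 := (0, [0])) ((hSiff _).2 ⟨by simp, g0, hg0, by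
    simpa using hi⟩) (by
    intro p hp
    obtain ⟨hp0, g, hg, hgi⟩ := (hSiff p).1 hp
    obtain ⟨g', hg', y, hy, h1, h2⟩ := h g hg (p.1 + p.2.sum + 1)
    have hlt : ∀ s ∈ p.2, s < p.1 + p.2.sum + 1 := fun s hs => by
      have := List.le_sum_of_mem hs
      omega
    refine ⟨(y, p.2 ++ p.2.map (fun s => s + y)), (hSiff _).2 ⟨?_, g', hg', ?_⟩, ?_, rfl, ?_⟩
    · exact List.mem_append_left _ hp0
    · intro s hs
      rcases List.mem_append.1 hs with hs | hs
      · rw [h1 s (hlt s hs), hgi s hs]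
      · obtain ⟨t, ht, rfl⟩ := List.mem_map.1 hs
        rw [(h2 t (hlt t ht)).2, hgi t ht]
    · show p.1 < y
      omega
    · intro s hs
      show c (s + y) = i
      rw [(h2 s (hlt s hs)).1, hgi s hs])
  have key : ∀ n, ∀ F : Finset ℕ, (∀ j ∈ F, j < n) → ∑ j ∈ F, (s (j + 1)).1 ∈ (s n).2 ∧
      (F.Nonempty → c (∑ j ∈ F, (s (j + 1)).1) = i) := by
    intro n
    induction n with
    | zero =>
      intro F hF
      have h1 : F = ∅ := Finset.eq_empty_of_forall_notMem fun j hj => absurd (hF j hj) (by omega)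
      subst h1
      rw [hs0]
      simp
    | succ n ih =>
      intro F hF
      obtain ⟨-, h2, h3⟩ := (hs1 n).2
      by_cases hn : n ∈ F
      · obtain ⟨h4, -⟩ := ih (F.erase n) fun j hj => by
          have h5 := hF j (Finset.mem_of_mem_erase hj)
          have h6 := Finset.ne_of_mem_erase hj
          omega
        rw [← Finset.sum_erase_add F _ hn]
        refine ⟨?_, fun _ => h3 _ h4⟩
        rw [h2]
        exact List.mem_append_right _ (List.mem_map.2 ⟨_, h4, rfl⟩)
      · obtain ⟨h4, h5⟩ := ih F fun j hj => by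
          have h6 := hF j hj
          have h7 : j ≠ n := fun h => hn (h ▸ hj)
          omega
        refine ⟨?_, h5⟩
        rw [h2]
        exact List.mem_append_left _ h4
  refine ⟨i, fun n => (s (n + 1)).1, ?_, strictMono_nat_of_lt_succ fun n => (hs1 (n + 1)).2.1, ?_,
    fun F hF => ?_⟩
  · exact Gr.post (g := fun p : ℕ × List ℕ => p.1) (by fun_prop)
      (hs.pre (g := fun n : ℕ => n + 1) (by fun_prop))
  · have := (hs1 0).2.1
    show 0 < (s (0 + 1)).1
    omega
  · exact (key (F.sup id + 1) F fun j hj => Nat.lt_succ_of_le (Finset.le_sup (f := id) hj)).2 hF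

/-- From the sequence to a solution. -/
theorem sol_of_seq {A : Set ℕ} {c : ℕ → Fin k} {m : ℕ} (hm : 0 < m) {i : Fin k} {y : ℕ → ℕ}
    (hy : Gr A y) (hmono : StrictMono y) (h0 : 0 < y 0)
    (h : ∀ F : Finset ℕ, F.Nonempty → c (m * ∑ n ∈ F, y n) = i) :
    ∃ X, Solution c X ∧ Computes A (char X) := by
  classical
  have hz : StrictMono fun n => m * y n := fun a b hab => Nat.mul_lt_mul_of_pos_left (hmono hab) hm
  have hg : Gr A fun n => m * y n := Gr.post (g := fun v : ℕ => m * v) (by fun_prop) hy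
  refine ⟨Set.range fun n => m * y n, ⟨Set.infinite_range_of_injective hz.injective, ?_, i, ?_⟩,
    computes_set.2 (range_dec hg hz)⟩
  · rintro ⟨n, hn⟩
    have h1 : y 0 ≤ y n := hmono.monotone (Nat.zero_le n)
    have h2 : 0 < m * y n := Nat.mul_pos hm (by omega)
    have h3 : m * y n = 0 := hn
    omega
  · intro F hF hne
    let F' : Finset ℕ := F.preimage (fun n => m * y n) hz.injective.injOn
    have h1 : F'.image (fun n => m * y n) = F := by
      rw [Finset.image_preimage, Finset.filter_true_of_mem]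
      intro x hx
      exact hF hx
    have h2 : ∑ x ∈ F, x = m * ∑ n ∈ F', y n := by
      rw [← h1, Finset.sum_image (fun a _ b _ hab => hz.injective hab), Finset.mul_sum]
    rw [h2]
    refine h F' ?_
    rw [← h1] at hne
    exact Finset.image_nonempty.1 hne

end Pool.Agent.U657.HT
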