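import Pool.Agent.U657.HT.Cod
import Pool.Agent.H623R3.JC.P_LIMIT

/-!
A rotation number which cannot be found from partial information: the construction.
-/

set_option autoImplicit false

namespace Pool.Agent.U657.HT

open Encodable Pool.Agent.Helper446 Pool.Agent.Helper446.Oracle
open Pool.Agent.Y545.HM Pool.Agent.Y545.HM.St
open Filter Topology
open Pool.Agent.Helper578.JD (jump)
open Nat.Partrec (Code)

/-- the number with the binary digits `σ` -/
def val (σ : List Bool) : ℕ := σ.foldl (fun a b => 2 * a + b.toNat) 0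

theorem val_append (σ : List Bool) (b : Bool) : val (σ ++ [b]) = 2 * val σ + b.toNat := by
  simp [val]

/-- a power of two -/
def pw (σ : List Bool) : ℕ := σ.foldl (fun a _ => 2 * a) 1

theorem pw_append (σ : List Bool) (b : Bool) : pw (σ ++ [b]) = 2 * pw σ := by
  simp [pw]

theorem pw_eq (σ : List Bool) : pw σ = 2 ^ σ.length := by
  induction σ using List.reverseRecOn with
  | nil => rfl
  | append_singleton l b ih => rw [pw_append, ih, List.length_append, List.length_singleton,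
      pow_succ, mul_comm]

theorem val_bounds (σ ρ : List Bool) : val σ * 2 ^ ρ.length ≤ val (σ ++ ρ) ∧
    val (σ ++ ρ) + 1 ≤ (val σ + 1) * 2 ^ ρ.length := by
  induction ρ using List.reverseRecOn with
  | nil => simp
  | append_singleton l b ih =>
    obtain ⟨h1, h2⟩ := ih
    rw [← List.append_assoc, val_append, List.length_append, List.length_singleton, pow_succ,
      ← mul_assoc, ← mul_assoc]
    have : b.toNat ≤ 1 := by cases b <;> simp
    constructor <;> omega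

theorem exists_ext (d : ℕ) : ∀ (σ : List Bool) (m : ℕ), val σ * 2 ^ d ≤ m →
    m < (val σ + 1) * 2 ^ d → ∃ ρ : List Bool, ρ.length = d ∧ val (σ ++ ρ) = m := by
  induction d with
  | zero =>
    intro σ m h1 h2
    refine ⟨[], rfl, ?_⟩
    rw [List.append_nil]
    simp only [pow_zero, mul_one] at h1 h2
    omega
  | succ d ih =>
    intro σ m h1 h2
    rw [pow_succ, ← mul_assoc] at h1 h2
    obtain ⟨ρ, hρ, hv⟩ := ih σ (m / 2) (by omega) (by omega)
    refine ⟨ρ ++ [decide (m % 2 = 1)], by simp [hρ], ?_⟩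
    rw [← List.append_assoc, val_append, hv]
    rcases Nat.mod_two_eq_zero_or_one m with h | h
    · rw [h]; simp; omega
    · rw [h]; simp; omega

/-- `n` is in the `e`-th set enumerable in `B` -/
def En (B : Set ℕ) (e n : ℕ) : Prop := ∃ c : List ℕ × List ℕ,
  Pool.Agent.Helper578.JD.W e (encode (n, c)) ∧ Ok B c

theorem re_en (B : Set ℕ) : REIn B fun p : ℕ × ℕ => En B p.1 p.2 := by
  refine ⟨fun p c => Pool.Agent.Helper578.JD.W p.1 (encode (p.2, c)), ?_, fun p => Iff.rfl⟩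
  exact RE.comp Pool.Agent.Helper578.JD.W_re
    (f := fun x : (ℕ × ℕ) × (List ℕ × List ℕ) => (x.1.1, encode (x.1.2, x.2)))
    (Computable.pair (by fun_prop) (Computable.encode.comp (by fun_prop)))

theorem exists_en {B : Set ℕ} {S : ℕ → Prop} (hS : REIn B S) : ∃ e, ∀ n, En B e n ↔ S n := by
  obtain ⟨R, hR, h⟩ := hS
  obtain ⟨g, -, hg⟩ := Pool.Agent.Helper578.JD.smn (α := Unit) (β := ℕ × (List ℕ × List ℕ))
    (P := fun _ x => R x.1 x.2) (RE.comp hR (f := fun x : Unit × (ℕ × (List ℕ × List ℕ)) => x.2)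
      (by fun_prop))
  refine ⟨g (), fun n => ?_⟩
  rw [h n]
  exact exists_congr fun c => and_congr_left fun _ => hg () (n, c)

/-- the `e`-th requirement for the interval given by `τ`, with witnesses -/
def Wit (B : Set ℕ) (e : ℕ) (τ : List Bool) : Prop := ∃ w : (ℕ × ℕ) × (ℕ × ℕ),
  En B e w.1.1 ∧ En B e w.1.2 ∧ 0 < w.1.1 ∧ w.1.1 < w.1.2 ∧
    (32 * w.2.1 + 15) * pw τ ≤ 32 * w.1.1 * val τ ∧
    32 * w.1.1 * (val τ + 1) ≤ (32 * w.2.1 + 17) * pw τ ∧
    (32 * w.2.2 + 7) * pw τ ≤ 32 * w.1.2 * val τ ∧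
    32 * w.1.2 * (val τ + 1) ≤ (32 * w.2.2 + 9) * pw τ

/-- there are large members -/
def Large (B : Set ℕ) (e : ℕ) (σ : List Bool) : Prop := ∃ w : ℕ × ℕ,
  En B e w.1 ∧ En B e w.2 ∧ 2 * pw σ ≤ w.1 ∧ 32 * w.1 ≤ w.2

theorem comp_val {α : Type*} [Primcodable α] {f : α → List Bool} (hf : Computable f) :
    Computable fun a => val (f a) := by
  have h1 : Primrec val := by
    refine Primrec.list_foldl (f := fun σ : List Bool => σ) (g := fun _ => 0)
      (h := fun _ (p : ℕ × Bool) => 2 * p.1 + p.2.toNat) Primrec.id (Primrec.const 0) ?_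
    refine Primrec.nat_add.comp (Primrec.nat_mul.comp (Primrec.const 2)
      (Primrec.fst.comp Primrec.snd)) ?_
    exact (Primrec.dom_finite Bool.toNat).comp (Primrec.snd.comp Primrec.snd)
  exact h1.to_comp.comp hf

theorem comp_pw {α : Type*} [Primcodable α] {f : α → List Bool} (hf : Computable f) :
    Computable fun a => pw (f a) := by
  have h1 : Primrec pw := by
    refine Primrec.list_foldl (f := fun σ : List Bool => σ) (g := fun _ => 1)
      (h := fun _ (p : ℕ × Bool) => 2 * p.1) Primrec.id (Primrec.const 1) ?_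
    exact Primrec.nat_mul.comp (Primrec.const 2) (Primrec.fst.comp Primrec.snd)
  exact h1.to_comp.comp hf

theorem re_large (B : Set ℕ) : REIn B fun p : ℕ × List Bool => Large B p.1 p.2 := by
  refine REIn.ex (S := fun (p : ℕ × List Bool) (w : ℕ × ℕ) =>
    En B p.1 w.1 ∧ En B p.1 w.2 ∧ 2 * pw p.2 ≤ w.1 ∧ 32 * w.1 ≤ w.2)
    (REIn.and ?_ (REIn.and ?_ (REIn.and ?_ ?_)))
  · exact (re_en B).comp (f := fun x : (ℕ × List Bool) × (ℕ × ℕ) => (x.1.1, x.2.1)) (by fun_prop)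
  · exact (re_en B).comp (f := fun x : (ℕ × List Bool) × (ℕ × ℕ) => (x.1.1, x.2.2)) (by fun_prop)
  · refine REIn.of_re (RE.le ?_ (by fun_prop))
    exact Primrec.nat_mul.to_comp.comp (Computable.const 2)
      (comp_pw (f := fun x : (ℕ × List Bool) × (ℕ × ℕ) => x.1.2) (by fun_prop))
  · exact REIn.of_re (RE.le (by fun_prop) (by fun_prop))

theorem re_wit (B : Set ℕ) : REIn B fun p : ℕ × List Bool => Wit B p.1 p.2 := by
  have hv : Computable fun x : (ℕ × List Bool) × ((ℕ × ℕ) × (ℕ × ℕ)) => val x.1.2 :=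
    comp_val (by fun_prop)
  have hp : Computable fun x : (ℕ × List Bool) × ((ℕ × ℕ) × (ℕ × ℕ)) => pw x.1.2 :=
    comp_pw (by fun_prop)
  have mul : ∀ {f g : (ℕ × List Bool) × ((ℕ × ℕ) × (ℕ × ℕ)) → ℕ}, Computable f → Computable g →
      Computable fun x => f x * g x := fun hf hg =>
    Primrec.nat_mul.to_comp.comp hf hg
  have hv1 : Computable fun x : (ℕ × List Bool) × ((ℕ × ℕ) × (ℕ × ℕ)) => val x.1.2 + 1 :=
    Computable.succ.comp hv
  refine REIn.ex (S := fun (p : ℕ × List Bool) (w : (ℕ × ℕ) × (ℕ × ℕ)) =>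
    En B p.1 w.1.1 ∧ En B p.1 w.1.2 ∧ 0 < w.1.1 ∧ w.1.1 < w.1.2 ∧
    (32 * w.2.1 + 15) * pw p.2 ≤ 32 * w.1.1 * val p.2 ∧
    32 * w.1.1 * (val p.2 + 1) ≤ (32 * w.2.1 + 17) * pw p.2 ∧
    (32 * w.2.2 + 7) * pw p.2 ≤ 32 * w.1.2 * val p.2 ∧
    32 * w.1.2 * (val p.2 + 1) ≤ (32 * w.2.2 + 9) * pw p.2)
    (REIn.and ?_ (REIn.and ?_ (REIn.and ?_ (REIn.and ?_ (REIn.and ?_ (REIn.and ?_
      (REIn.and ?_ ?_)))))))
  · exact (re_en B).comp (f := fun x : (ℕ × List Bool) × ((ℕ × ℕ) × (ℕ × ℕ)) =>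
      (x.1.1, x.2.1.1)) (by fun_prop)
  · exact (re_en B).comp (f := fun x : (ℕ × List Bool) × ((ℕ × ℕ) × (ℕ × ℕ)) =>
      (x.1.1, x.2.1.2)) (by fun_prop)
  · exact REIn.of_re (RE.lt (by fun_prop) (by fun_prop))
  · exact REIn.of_re (RE.lt (by fun_prop) (by fun_prop))
  · exact REIn.of_re (RE.le (mul (by fun_prop) hp) (mul (by fun_prop) hv))
  · exact REIn.of_re (RE.le (mul (by fun_prop) hv1) (mul (by fun_prop) hp))
  · exact REIn.of_re (RE.le (mul (by fun_prop) hp) (mul (by fun_prop) hv))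
  · exact REIn.of_re (RE.le (mul (by fun_prop) hv1) (mul (by fun_prop) hp))

/-- one more requirement can be satisfied -/
theorem step (B : Set ℕ) (e : ℕ) (σ : List Bool) :
    ∃ ρ : List Bool, ρ ≠ [] ∧ (Wit B e (σ ++ ρ) ∨ ¬ Large B e σ) := by
  by_cases h : Large B e σ
  swap
  · exact ⟨[true], by simp, Or.inr h⟩
  obtain ⟨⟨y, y'⟩, hy, hy', h1, h2⟩ := h
  simp only at hy hy' h1 h2
  have hp : 0 < pw σ := by rw [pw_eq]; positivity
  have hpR : (0 : ℝ) < pw σ := by exact_mod_cast hp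
  have hy0 : 0 < y := by omega
  have hy0' : 0 < y' := by omega
  have hyR : (0 : ℝ) < y := by exact_mod_cast hy0
  have hyR' : (0 : ℝ) < y' := by exact_mod_cast hy0'
  have h1R : 2 * (pw σ : ℝ) ≤ y := by exact_mod_cast h1
  have h2R : 32 * (y : ℝ) ≤ y' := by exact_mod_cast h2
  have cl : ∀ x z : ℝ, 0 ≤ x → x + 2 ≤ z → ∃ a : ℕ, x ≤ a ∧ (a : ℝ) + 1 ≤ z := by
    intro x z hx hz
    refine ⟨⌈x⌉₊, Nat.le_ceil _, ?_⟩
    have := Nat.ceil_lt_add_one hx
    linarith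
  obtain ⟨a, ha1, ha3⟩ := cl ((y : ℝ) * val σ / pw σ) ((y : ℝ) * (val σ + 1) / pw σ)
    (by positivity) (by
      have : (2 : ℝ) ≤ y / pw σ := by rw [le_div_iff₀ hpR]; exact h1R
      have e : (y : ℝ) * (val σ + 1) / pw σ = y * val σ / pw σ + y / pw σ := by ring
      rw [e]
      linarith)
  obtain ⟨b, hb1, hb3⟩ := cl ((y' : ℝ) * (32 * a + 15) / (32 * y))
    ((y' : ℝ) * (32 * a + 17) / (32 * y)) (by positivity) (by
      have : (2 : ℝ) ≤ y' * 2 / (32 * y) := by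
        rw [le_div_iff₀ (by positivity)]
        linarith
      have e : (y' : ℝ) * (32 * a + 17) / (32 * y) = y' * (32 * a + 15) / (32 * y) +
          y' * 2 / (32 * y) := by ring
      rw [e]
      linarith)
  obtain ⟨d, hd0, hd⟩ : ∃ d : ℕ, d ≠ 0 ∧ (32 * y' : ℝ) ≤ 2 ^ d := by
    refine ⟨32 * y' + 1, by omega, ?_⟩
    have h3 : 32 * y' + 1 < 2 ^ (32 * y' + 1) := Nat.lt_two_pow_self
    have h4 : ((32 * y' : ℕ) : ℝ) ≤ ((2 ^ (32 * y' + 1) : ℕ) : ℝ) := by
      exact_mod_cast (by omega : 32 * y' ≤ 2 ^ (32 * y' + 1))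
    rw [Nat.cast_pow, Nat.cast_mul] at h4
    exact_mod_cast h4
  obtain ⟨Q, hQe⟩ : ∃ Q : ℝ, Q = pw σ * 2 ^ d := ⟨_, rfl⟩
  have hQ : 0 < Q := by rw [hQe]; positivity
  have hdQ : (32 * y' : ℝ) ≤ Q := by
    have h3 : (1 : ℝ) ≤ pw σ := by exact_mod_cast hp
    have h4 : (2 : ℝ) ^ d ≤ Q := by
      rw [hQe]
      nlinarith [show (0 : ℝ) < 2 ^ d by positivity]
    linarith
  obtain ⟨m, hm1, hm3⟩ := cl (Q * (32 * b + 7) / (32 * y')) (Q * (32 * b + 9) / (32 * y'))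
    (by positivity) (by
      have : (2 : ℝ) ≤ Q * 2 / (32 * y') := by
        rw [le_div_iff₀ (by positivity)]
        linarith
      have e : Q * (32 * b + 9) / (32 * y') = Q * (32 * b + 7) / (32 * y') +
          Q * 2 / (32 * y') := by ring
      rw [e]
      linarith)
  -- bounds for m / Q
  have k1 : (32 * (b : ℝ) + 7) / (32 * y') ≤ m / Q := by
    rw [le_div_iff₀ hQ]
    calc (32 * (b : ℝ) + 7) / (32 * y') * Q = Q * (32 * b + 7) / (32 * y') := by ring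
      _ ≤ m := hm1
  have k2 : ((m : ℝ) + 1) / Q ≤ (32 * b + 9) / (32 * y') := by
    rw [div_le_iff₀ hQ]
    calc (m : ℝ) + 1 ≤ Q * (32 * b + 9) / (32 * y') := hm3
      _ = (32 * (b : ℝ) + 9) / (32 * y') * Q := by ring
  have k3 : (32 * (a : ℝ) + 15) / (32 * y) ≤ b / y' := by
    rw [le_div_iff₀ hyR']
    calc (32 * (a : ℝ) + 15) / (32 * y) * y' = (y' : ℝ) * (32 * a + 15) / (32 * y) := by ring
      _ ≤ b := hb1
  have k4 : ((b : ℝ) + 1) / y' ≤ (32 * (a : ℝ) + 17) / (32 * y) := by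
    rw [div_le_iff₀ hyR']
    calc (b : ℝ) + 1 ≤ (y' : ℝ) * (32 * a + 17) / (32 * y) := hb3
      _ = (32 * (a : ℝ) + 17) / (32 * y) * y' := by ring
  have k5 : (b : ℝ) / y' ≤ (32 * (b : ℝ) + 7) / (32 * y') := by
    rw [div_le_div_iff₀ hyR' (by positivity)]
    nlinarith
  have k6 : (32 * (b : ℝ) + 9) / (32 * y') ≤ ((b : ℝ) + 1) / y' := by
    rw [div_le_div_iff₀ (by positivity) hyR']
    nlinarith
  have k7 : (val σ : ℝ) / pw σ ≤ a / y := by
    rw [div_le_div_iff₀ hpR hyR]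
    rw [div_le_iff₀ hpR] at ha1
    linarith
  have k8 : ((a : ℝ) + 1) / y ≤ (val σ + 1) / pw σ := by
    rw [div_le_div_iff₀ hyR hpR]
    rw [le_div_iff₀ hpR] at ha3
    linarith
  have k9 : (a : ℝ) / y ≤ (32 * (a : ℝ) + 15) / (32 * y) := by
    rw [div_le_div_iff₀ hyR (by positivity)]
    nlinarith
  have k10 : (32 * (a : ℝ) + 17) / (32 * y) ≤ ((a : ℝ) + 1) / y := by
    rw [div_le_div_iff₀ (by positivity) hyR]
    nlinarith
  have l1 : (32 * (a : ℝ) + 15) / (32 * y) ≤ m / Q := by linarith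
  have l2 : ((m : ℝ) + 1) / Q ≤ (32 * (a : ℝ) + 17) / (32 * y) := by linarith
  have l3 : (val σ : ℝ) / pw σ ≤ m / Q := by linarith
  have l4 : ((m : ℝ) + 1) / Q ≤ (val σ + 1) / pw σ := by linarith
  obtain ⟨ρ, hρ, hv⟩ := exists_ext d σ m (by
      have h5 : (val σ : ℝ) * 2 ^ d ≤ m := by
        rw [div_le_div_iff₀ hpR hQ] at l3
        have e : (val σ : ℝ) * Q = val σ * 2 ^ d * pw σ := by rw [hQe]; ring
        rw [e] at l3
        exact le_of_mul_le_mul_right l3 hpR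
      exact_mod_cast h5) (by
      have h5 : (m : ℝ) + 1 ≤ (val σ + 1) * 2 ^ d := by
        rw [div_le_div_iff₀ hQ hpR] at l4
        have e : ((val σ : ℝ) + 1) * Q = (val σ + 1) * 2 ^ d * pw σ := by rw [hQe]; ring
        rw [e] at l4
        exact le_of_mul_le_mul_right l4 hpR
      have h6 : m + 1 ≤ (val σ + 1) * 2 ^ d := by exact_mod_cast h5
      omega)
  have hpw : (pw (σ ++ ρ) : ℝ) = Q := by
    rw [hQe, pw_eq, pw_eq, List.length_append, hρ, pow_add]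
    push_cast
    ring
  refine ⟨ρ, ?_, Or.inl ⟨((y, y'), (a, b)), hy, hy', hy0, by show y < y'; omega, ?_, ?_, ?_, ?_⟩⟩
  · rintro rfl
    exact hd0 hρ.symm
  · show (32 * a + 15) * pw (σ ++ ρ) ≤ 32 * y * val (σ ++ ρ)
    rw [div_le_div_iff₀ (by positivity) hQ, ← hpw] at l1
    rw [hv]
    have h5 : ((32 * a + 15 : ℕ) : ℝ) * pw (σ ++ ρ) ≤ ((32 * y : ℕ) : ℝ) * m := by
      push_cast
      linarith
    exact_mod_cast h5
  · show 32 * y * (val (σ ++ ρ) + 1) ≤ (32 * a + 17) * pw (σ ++ ρ)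
    rw [div_le_div_iff₀ hQ (by positivity), ← hpw] at l2
    rw [hv]
    have h5 : ((32 * y : ℕ) : ℝ) * ((m + 1 : ℕ) : ℝ) ≤ ((32 * a + 17 : ℕ) : ℝ) * pw (σ ++ ρ) := by
      push_cast
      linarith
    exact_mod_cast h5
  · show (32 * b + 7) * pw (σ ++ ρ) ≤ 32 * y' * val (σ ++ ρ)
    rw [div_le_div_iff₀ (by positivity) hQ, ← hpw] at k1
    rw [hv]
    have h5 : ((32 * b + 7 : ℕ) : ℝ) * pw (σ ++ ρ) ≤ ((32 * y' : ℕ) : ℝ) * m := by
      push_cast
      linarith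
    exact_mod_cast h5
  · show 32 * y' * (val (σ ++ ρ) + 1) ≤ (32 * b + 9) * pw (σ ++ ρ)
    rw [div_le_div_iff₀ hQ (by positivity), ← hpw] at k2
    rw [hv]
    have h5 : ((32 * y' : ℕ) : ℝ) * ((m + 1 : ℕ) : ℝ) ≤ ((32 * b + 9 : ℕ) : ℝ) * pw (σ ++ ρ) := by
      push_cast
      linarith
    exact_mod_cast h5

end Pool.Agent.U657.HT
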