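import Pool.Agent.U657.HT.Low

/-!
A rotation number which cannot be found from partial information: approximations and the colouring.
-/

set_option autoImplicit false

namespace Pool.Agent.U657.HT

open Encodable Pool.Agent.Helper446 Pool.Agent.Helper446.Oracle
open Pool.Agent.Y545.HM Pool.Agent.Y545.HM.St
open Filter Topology
open Pool.Agent.Helper578.JD (jump)

/-- the digits and their approximations -/
theorem approx {A B : Set ℕ} (hBA : Dec (jump A) (jump B)) :
    ∃ s : ℕ → List Bool, (∀ n, ∃ ρ, ρ ≠ [] ∧ s (n + 1) = s n ++ ρ ∧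
      (Wit B n (s (n + 1)) ∨ ¬ Large B n (s n))) ∧
      ∃ b : ℕ × ℕ → Bool, Gr A b ∧ ∀ n, ∃ k0, ∀ k ≥ k0, ∀ j < (s n).length,
        (s n)[j]? = some (b (j, k)) := by
  classical
  let R : ℕ × List Bool → ℕ × List Bool → Prop := fun p q => q.1 = p.1 + 1 ∧
    (∃ ρ : List Bool, ρ ≠ [] ∧ q.2 = p.2 ++ ρ) ∧ (Wit B p.1 q.2 ∨ ¬ Large B p.1 p.2)
  have hR : REIn (jump B) fun x : (ℕ × List Bool) × (ℕ × List Bool) => R x.1 x.2 := by
    refine REIn.and (REIn.of_re (RE.eq (by fun_prop) (by fun_prop))) (REIn.and ?_ (REIn.or ?_ ?_))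
    · refine REIn.ex (S := fun (x : (ℕ × List Bool) × (ℕ × List Bool)) (ρ : List Bool) =>
        ρ ≠ [] ∧ x.2.2 = x.1.2 ++ ρ) (REIn.of_re ?_)
      exact RE.and (RE.ne (by fun_prop) (by fun_prop)) (RE.eq (by fun_prop) (by fun_prop))
    · have h1 : REIn (jump B) fun p : ℕ × List Bool => Wit B p.1 p.2 :=
        Pool.Agent.R603.HCB.bridge.2 (Pool.Agent.R603.HCB.rein_jump
          (Pool.Agent.R603.HCB.bridge.1 (re_wit B)))
      exact h1.comp (f := fun x : (ℕ × List Bool) × (ℕ × List Bool) => (x.1.1, x.2.2))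
        (by fun_prop)
    · have h1 : REIn (jump B) fun p : ℕ × List Bool => ¬ Large B p.1 p.2 :=
        Pool.Agent.R603.HCB.bridge.2 (Pool.Agent.R603.HCB.rein_neg
          (Pool.Agent.R603.HCB.bridge.1 (re_large B)))
      exact h1.comp (f := fun x : (ℕ × List Bool) × (ℕ × List Bool) => (x.1.1, x.1.2))
        (by fun_prop)
  obtain ⟨u, hu, hu0, hu1⟩ := exists_seq (S := fun _ => True) hR
    (REIn.of_re (RE.const True)) (a0 := (0, [])) trivial (by
      rintro ⟨n, σ⟩ -
      obtain ⟨ρ, h1, h2⟩ := step B n σ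
      exact ⟨(n + 1, σ ++ ρ), trivial, rfl, ⟨ρ, h1, rfl⟩, h2⟩)
  have hidx : ∀ n, (u n).1 = n := by
    intro n
    induction n with
    | zero => rw [hu0]
    | succ n ih => rw [(hu1 n).2.1, ih]
  have hstep : ∀ n, ∃ ρ, ρ ≠ [] ∧ (u (n + 1)).2 = (u n).2 ++ ρ ∧
      (Wit B n (u (n + 1)).2 ∨ ¬ Large B n (u n).2) := by
    intro n
    obtain ⟨-, -, ⟨ρ, h1, h2⟩, h3⟩ := hu1 n
    rw [hidx n] at h3
    exact ⟨ρ, h1, h2, h3⟩
  -- coherence
  have hcoh : ∀ m n, m ≤ n → ∀ (j : ℕ) (x : Bool), (u m).2[j]? = some x → (u n).2[j]? = some x := by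
    intro m n hmn j x hx
    induction n, hmn using Nat.le_induction with
    | base => exact hx
    | succ n _ ih =>
      obtain ⟨ρ, -, h2, -⟩ := hstep n
      have hj : j < (u n).2.length := by
        by_contra hcon
        rw [List.getElem?_eq_none (by omega)] at ih
        cases ih
      rw [h2, List.getElem?_append_left hj]
      exact ih
  have hlen : ∀ n, n ≤ (u n).2.length := by
    intro n
    induction n with
    | zero => exact Nat.zero_le _
    | succ n ih =>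
      obtain ⟨ρ, h1, h2, -⟩ := hstep n
      have h3 : 0 < ρ.length := List.length_pos_iff.2 h1
      rw [h2, List.length_append]
      omega
  have hex : ∀ j, ∃ x, (u (j + 1)).2[j]? = some x := by
    intro j
    have h1 := hlen (j + 1)
    exact ⟨_, List.getElem?_eq_getElem (by omega)⟩
  let P : ℕ → Prop := fun j => ∃ n, (u n).2[j]? = some true
  have hPx : ∀ x : Bool, REIn (jump B) fun j : ℕ => ∃ n, (u n).2[j]? = some x := by
    intro x
    refine REIn.of_eq (S := fun j : ℕ => ∃ n : ℕ, ∃ l : ℕ × List Bool, u n = l ∧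
      l.2[j]? = some x) ?_ (fun j => ⟨fun ⟨n, l, h1, h2⟩ => ⟨n, h1 ▸ h2⟩,
        fun ⟨n, h⟩ => ⟨n, _, rfl, h⟩⟩)
    refine REIn.ex (S := fun (j : ℕ) (n : ℕ) => ∃ l : ℕ × List Bool, u n = l ∧
      l.2[j]? = some x) ?_
    refine REIn.ex (S := fun (y : ℕ × ℕ) (l : ℕ × List Bool) => u y.2 = l ∧
      l.2[y.1]? = some x) (REIn.and ?_ ?_)
    · exact REIn.comp hu (f := fun z : (ℕ × ℕ) × (ℕ × List Bool) => (z.1.2, z.2)) (by fun_prop)
    · exact REIn.of_re (RE.eq (by fun_prop) (by fun_prop))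
  have hneg : ∀ j, (∃ n, (u n).2[j]? = some false) ↔ ¬ P j := by
    intro j
    constructor
    · rintro ⟨n, hn⟩ ⟨m, hm⟩
      have h1 := hcoh n (max n m) (le_max_left _ _) j _ hn
      have h2 := hcoh m (max n m) (le_max_right _ _) j _ hm
      rw [h1] at h2
      cases h2
    · intro h
      obtain ⟨x, hx⟩ := hex j
      cases x with
      | true => exact absurd ⟨_, hx⟩ h
      | false => exact ⟨_, hx⟩
  have hdec : Pool.Agent.H623R3.JC.DecIn (jump A) P :=
    ⟨Pool.Agent.R603.HCB.bridge.1 (re_lift (hPx true) hBA),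
      Pool.Agent.R603.HCB.bridge.1 (re_lift ((hPx false).of_eq hneg) hBA)⟩
  obtain ⟨b, hb, hb2⟩ := Pool.Agent.H623R3.JC.prf_limit ℕ A P hdec
  refine ⟨fun n => (u n).2, hstep, b, hb, fun n => ?_⟩
  choose k0 hk0 using hb2
  refine ⟨(Finset.range (u n).2.length).sup k0, fun k hk j hj => ?_⟩
  have h1 := hk0 j k (le_trans (Finset.le_sup (f := k0) (Finset.mem_range.2 hj)) hk)
  rw [List.getElem?_eq_getElem hj]
  congr 1
  cases hx : (u n).2[j] with
  | true =>
    have h2 : P j := ⟨n, by rw [List.getElem?_eq_getElem hj, hx]⟩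
    exact (h1.2 h2).symm
  | false =>
    have h2 : ¬ P j := (hneg j).1 ⟨n, by rw [List.getElem?_eq_getElem hj, hx]⟩
    cases hb3 : b (j, k) with
    | true => exact absurd (h1.1 hb3) h2
    | false => rfl

/-- the first `k` digits at the stage `k` -/
def dig (b : ℕ × ℕ → Bool) (k : ℕ) : List Bool := (List.range k).map fun j => b (j, k)

/-- the colouring -/
def col (b : ℕ × ℕ → Bool) (n : ℕ) : Fin 2 :=
  if 2 * ((n * val (dig b n.sqrt)) % pw (dig b n.sqrt)) < pw (dig b n.sqrt) then 0 else 1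

theorem gr_col {A : Set ℕ} {b : ℕ × ℕ → Bool} (hb : Gr A b) : Gr A (col b) := by
  classical
  have hb' : Pool.Agent.H623R3.JC.CompIn A fun p : ℕ × ℕ => b (p.2, p.1) :=
    Pool.Agent.H623R3.JC.CompIn.comp (f := b) (g := fun p : ℕ × ℕ => (p.2, p.1)) hb (by fun_prop)
  have h1 : Pool.Agent.H623R3.JC.CompIn A (dig b) :=
    Pool.Agent.H623R3.JC.CompIn.list_map (f := fun p : ℕ × ℕ => b (p.2, p.1))
      (l := fun k : ℕ => List.range k) hb'
      (Pool.Agent.H623R3.JC.CompIn.of_comp Primrec.list_range.to_comp)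
  have h2 : Pool.Agent.H623R3.JC.CompIn A fun n : ℕ => dig b n.sqrt :=
    h1.comp (Pool.Agent.H623R3.JC.CompIn.of_comp Primrec.nat_sqrt.to_comp)
  have hv : Computable val := comp_val (f := fun σ : List Bool => σ) Computable.id
  have hp : Computable pw := comp_pw (f := fun σ : List Bool => σ) Computable.id
  have h3 : Pool.Agent.H623R3.JC.CompIn A fun n : ℕ => pw (dig b n.sqrt) :=
    Pool.Agent.H623R3.JC.CompIn.comp_of hp h2
  have h4 : Pool.Agent.H623R3.JC.CompIn A fun n : ℕ => n * val (dig b n.sqrt) :=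
    Pool.Agent.H623R3.JC.CompIn.comp₂ Primrec.nat_mul.to_comp
      (Pool.Agent.H623R3.JC.CompIn.of_comp Computable.id)
      (Pool.Agent.H623R3.JC.CompIn.comp_of hv h2)
  have h5 : Pool.Agent.H623R3.JC.CompIn A fun n : ℕ =>
      2 * ((n * val (dig b n.sqrt)) % pw (dig b n.sqrt)) :=
    Pool.Agent.H623R3.JC.CompIn.comp₂ Primrec.nat_mul.to_comp
      (Pool.Agent.H623R3.JC.CompIn.of_comp (Computable.const 2))
      (Pool.Agent.H623R3.JC.CompIn.comp₂ Primrec.nat_mod.to_comp h4 h3)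
  have h6 := Pool.Agent.H623R3.JC.CompIn.ite (Pool.Agent.H623R3.JC.DecIn.lt h5 h3)
    (Pool.Agent.H623R3.JC.CompIn.of_comp (Computable.const (0 : Fin 2)))
    (Pool.Agent.H623R3.JC.CompIn.of_comp (Computable.const (1 : Fin 2)))
  refine REIn.of_eq (S := _) h6 fun p => ?_
  unfold col
  by_cases h : 2 * ((p.1 * val (dig b p.1.sqrt)) % pw (dig b p.1.sqrt)) < pw (dig b p.1.sqrt)
  · simp only [if_pos h]
  · simp only [if_neg h]

end Pool.Agent.U657.HT
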