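import Pool.Agent.U657.HT.Low2

/-!
A rotation number which cannot be found from partial information: no solution.
-/

set_option autoImplicit false

namespace Pool.Agent.U657.HT

open Encodable Pool.Agent.Helper446 Pool.Agent.Helper446.Oracle
open Pool.Agent.Y545.HM Pool.Agent.Y545.HM.St
open Filter Topology
open Pool.Agent.Helper578.JD (jump)

/-- the approximations of the rotation number -/
noncomputable def aa (b : ℕ × ℕ → Bool) (k : ℕ) : ℝ := (val (dig b k) : ℝ) / pw (dig b k)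

/-- the coding by two half circles -/
noncomputable def half (x : ℝ) : Fin 2 := if Int.fract x < 1 / 2 then 0 else 1

theorem pw_pos (σ : List Bool) : (0 : ℝ) < pw σ := by
  rw [pw_eq]
  positivity

theorem col_eq (b : ℕ × ℕ → Bool) (n : ℕ) : col b n = half (n * aa b n.sqrt) := by
  unfold col half aa
  have hp := pw_pos (dig b n.sqrt)
  generalize pw (dig b n.sqrt) = P at hp
  generalize val (dig b n.sqrt) = V
  have e : (n : ℝ) * ((V : ℝ) / P) = ((n * V : ℕ) : ℝ) / (P : ℕ) := by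
    push_cast
    ring
  have hiff : Int.fract ((n : ℝ) * ((V : ℝ) / P)) < 1 / 2 ↔ 2 * ((n * V) % P) < P := by
    rw [e, Int.fract_div_natCast_eq_div_natCast_mod, div_lt_div_iff₀ hp two_pos]
    constructor
    · intro h
      have h1 : ((2 * (n * V % P) : ℕ) : ℝ) < (P : ℝ) := by
        push_cast
        linarith
      exact_mod_cast h1
    · intro h
      have h1 : ((2 * (n * V % P) : ℕ) : ℝ) < (P : ℝ) := by exact_mod_cast h
      push_cast at h1
      linarith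
  by_cases h : 2 * ((n * V) % P) < P
  · rw [if_pos h, if_pos (hiff.2 h)]
  · rw [if_neg h, if_neg (fun h' => h (hiff.1 h'))]

theorem half_iff {x y : ℝ} (h : half x = half y) : Int.fract x < 1 / 2 ↔ Int.fract y < 1 / 2 := by
  unfold half at h
  by_cases h1 : Int.fract x < 1 / 2
  · by_cases h2 : Int.fract y < 1 / 2
    · exact ⟨fun _ => h2, fun _ => h1⟩
    · rw [if_pos h1, if_neg h2] at h
      exact absurd h (by decide)
  · by_cases h2 : Int.fract y < 1 / 2
    · rw [if_neg h1, if_pos h2] at h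
      exact absurd h (by decide)
    · exact ⟨fun h' => absurd h' h1, fun h' => absurd h' h2⟩

/-- nested intervals -/
theorem nest (σ ρ : List Bool) : (val σ : ℝ) / pw σ ≤ val (σ ++ ρ) / pw (σ ++ ρ) ∧
    ((val (σ ++ ρ) : ℝ) + 1) / pw (σ ++ ρ) ≤ (val σ + 1) / pw σ := by
  obtain ⟨h1, h2⟩ := val_bounds σ ρ
  have e : (pw (σ ++ ρ) : ℝ) = pw σ * 2 ^ ρ.length := by
    rw [pw_eq, pw_eq, List.length_append, pow_add]
    push_cast
    ring
  have hp := pw_pos σ
  have h1' : (val σ : ℝ) * 2 ^ ρ.length ≤ val (σ ++ ρ) := by exact_mod_cast h1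
  have h2' : (val (σ ++ ρ) : ℝ) + 1 ≤ (val σ + 1) * 2 ^ ρ.length := by exact_mod_cast h2
  constructor
  · rw [div_le_div_iff₀ hp (pw_pos _), e]
    nlinarith
  · rw [div_le_div_iff₀ (pw_pos _) hp, e]
    nlinarith

theorem fr {x v : ℝ} (h0 : 0 ≤ v) (h2 : v < 2) (n : ℤ) (hx : x = n + v) :
    (v < 1 ∧ Int.fract x = v) ∨ (1 ≤ v ∧ Int.fract x = v - 1) := by
  rcases lt_or_ge v 1 with h | h
  · refine Or.inl ⟨h, ?_⟩
    rw [hx, Int.fract_intCast_add]
    exact Int.fract_eq_self.2 ⟨h0, h⟩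
  · refine Or.inr ⟨h, ?_⟩
    have e : x = ((n + 1 : ℤ) : ℝ) + (v - 1) := by
      rw [hx]
      push_cast
      ring
    rw [e, Int.fract_intCast_add]
    exact Int.fract_eq_self.2 ⟨by linarith, by linarith⟩

/-- four phases which are not in one half circle -/
theorem spread {u p q : ℝ} {m1 m2 : ℤ} (hp1 : m1 + 15 / 32 ≤ p) (hp2 : p ≤ m1 + 17 / 32)
    (hq1 : m2 + 7 / 32 ≤ q) (hq2 : q ≤ m2 + 9 / 32)
    (e1 : Int.fract u < 1 / 2 ↔ Int.fract (u + p) < 1 / 2)
    (e2 : Int.fract u < 1 / 2 ↔ Int.fract (u + q) < 1 / 2)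
    (e3 : Int.fract u < 1 / 2 ↔ Int.fract (u + (p + q)) < 1 / 2) : False := by
  have h0 := Int.fract_nonneg u
  have h1 := Int.fract_lt_one u
  have hu := Int.floor_add_fract u
  have f1 := fr (x := u + p) (v := Int.fract u + (p - m1)) (by linarith) (by linarith)
    (⌊u⌋ + m1) (by push_cast; linarith)
  have f2 := fr (x := u + q) (v := Int.fract u + (q - m2)) (by linarith) (by linarith)
    (⌊u⌋ + m2) (by push_cast; linarith)
  have f3 := fr (x := u + (p + q)) (v := Int.fract u + (p - m1) + (q - m2)) (by linarith)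
    (by linarith) (⌊u⌋ + m1 + m2) (by push_cast; linarith)
  rcases lt_or_ge (Int.fract u) (1 / 2) with h | h
  · have g1 := e1.1 h
    have g2 := e2.1 h
    have g3 := e3.1 h
    rcases f1 with ⟨f1, f1'⟩ | ⟨f1, f1'⟩ <;> rcases f2 with ⟨f2, f2'⟩ | ⟨f2, f2'⟩ <;>
      rcases f3 with ⟨f3, f3'⟩ | ⟨f3, f3'⟩ <;> rw [f1'] at g1 <;> rw [f2'] at g2 <;>
      rw [f3'] at g3 <;> linarith
  · have g1 : 1 / 2 ≤ Int.fract (u + p) := not_lt.1 fun h' => absurd (e1.2 h') (not_lt.2 h)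
    have g2 : 1 / 2 ≤ Int.fract (u + q) := not_lt.1 fun h' => absurd (e2.2 h') (not_lt.2 h)
    have g3 : 1 / 2 ≤ Int.fract (u + (p + q)) := not_lt.1 fun h' => absurd (e3.2 h') (not_lt.2 h)
    rcases f1 with ⟨f1, f1'⟩ | ⟨f1, f1'⟩ <;> rcases f2 with ⟨f2, f2'⟩ | ⟨f2, f2'⟩ <;>
      rcases f3 with ⟨f3, f3'⟩ | ⟨f3, f3'⟩ <;> rw [f1'] at g1 <;> rw [f2'] at g2 <;>
      rw [f3'] at g3 <;> linarith

/-- the digits at late stages extend `s n` -/
theorem dig_ext {s : ℕ → List Bool} {b : ℕ × ℕ → Bool}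
    (hb : ∀ n, ∃ k0, ∀ k ≥ k0, ∀ j < (s n).length, (s n)[j]? = some (b (j, k))) (n : ℕ) :
    ∃ k0, ∀ k ≥ k0, ∃ ρ, dig b k = s n ++ ρ := by
  obtain ⟨k0, hk0⟩ := hb n
  refine ⟨max k0 (s n).length, fun k hk => ⟨(dig b k).drop (s n).length, ?_⟩⟩
  have h1 : (dig b k).take (s n).length = s n := by
    refine List.ext_getElem? fun j => ?_
    rcases lt_or_ge j (s n).length with hj | hj
    · rw [List.getElem?_take_of_lt hj, hk0 k (le_trans (le_max_left _ _) hk) j hj]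
      unfold dig
      rw [List.getElem?_map, List.getElem?_range (lt_of_lt_of_le hj
        (le_trans (le_max_right _ _) hk))]
      rfl
    · rw [List.getElem?_eq_none (by rw [List.length_take]; omega), List.getElem?_eq_none hj]
  conv_lhs => rw [← List.take_append_drop (s n).length (dig b k), h1]

/-- a witness gives two multiples of the approximations -/
theorem wit_bounds {B : Set ℕ} {e : ℕ} {τ : List Bool} (h : Wit B e τ) :
    ∃ y y' m1 m2 : ℕ, En B e y ∧ En B e y' ∧ 0 < y ∧ y < y' ∧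
      ∀ x : ℝ, (val τ : ℝ) / pw τ ≤ x → x ≤ (val τ + 1) / pw τ →
        (m1 + 15 / 32 ≤ y * x ∧ y * x ≤ m1 + 17 / 32) ∧
        (m2 + 7 / 32 ≤ y' * x ∧ y' * x ≤ m2 + 9 / 32) := by
  obtain ⟨⟨⟨y, y'⟩, m1, m2⟩, h1, h2, h3, h4, h5, h6, h7, h8⟩ := h
  refine ⟨y, y', m1, m2, h1, h2, h3, h4, fun x hx1 hx2 => ?_⟩
  have hp := pw_pos τ
  have h5' : (32 * (m1 : ℝ) + 15) * pw τ ≤ 32 * y * val τ := by exact_mod_cast h5
  have h6' : 32 * (y : ℝ) * (val τ + 1) ≤ (32 * m1 + 17) * pw τ := by exact_mod_cast h6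
  have h7' : (32 * (m2 : ℝ) + 7) * pw τ ≤ 32 * y' * val τ := by exact_mod_cast h7
  have h8' : 32 * (y' : ℝ) * (val τ + 1) ≤ (32 * m2 + 9) * pw τ := by exact_mod_cast h8
  have lo : ∀ z c : ℝ, 0 ≤ z → c * pw τ ≤ 32 * z * val τ → c / 32 ≤ z * x := by
    intro z c hz hc
    have e1 : c ≤ 32 * z * (val τ / pw τ) := by
      have e2 : 32 * z * (val τ / pw τ : ℝ) = 32 * z * val τ / pw τ := by ring
      rw [e2, le_div_iff₀ hp]
      exact hc
    have e3 : z * (val τ / pw τ : ℝ) ≤ z * x := mul_le_mul_of_nonneg_left hx1 hz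
    linarith
  have hi : ∀ z c : ℝ, 0 ≤ z → 32 * z * (val τ + 1) ≤ c * pw τ → z * x ≤ c / 32 := by
    intro z c hz hc
    have e1 : 32 * z * ((val τ + 1) / pw τ) ≤ c := by
      have e2 : 32 * z * ((val τ + 1) / pw τ : ℝ) = 32 * z * (val τ + 1) / pw τ := by ring
      rw [e2, div_le_iff₀ hp]
      exact hc
    have e3 : z * x ≤ z * ((val τ + 1) / pw τ : ℝ) := mul_le_mul_of_nonneg_left hx2 hz
    linarith
  have a1 := lo y _ (Nat.cast_nonneg y) h5'
  have a2 := hi y _ (Nat.cast_nonneg y) h6'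
  have a3 := lo y' _ (Nat.cast_nonneg y') h7'
  have a4 := hi y' _ (Nat.cast_nonneg y') h8'
  refine ⟨⟨by linarith, by linarith⟩, by linarith, by linarith⟩

/-- infinite sets have witnesses -/
theorem wit_of_infinite {B : Set ℕ} {s : ℕ → List Bool}
    (hs : ∀ n, Wit B n (s (n + 1)) ∨ ¬ Large B n (s n)) {S : Set ℕ} (hS : REIn B (· ∈ S))
    (hinf : S.Infinite) : ∃ e, (∀ n, En B e n ↔ n ∈ S) ∧ Wit B e (s (e + 1)) := by
  obtain ⟨e, he⟩ := exists_en hS
  refine ⟨e, he, (hs e).resolve_right fun h => h ?_⟩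
  obtain ⟨y, hy, hy2⟩ := hinf.exists_gt (2 * pw (s e))
  obtain ⟨y', hy', hy2'⟩ := hinf.exists_gt (32 * y)
  exact ⟨(y, y'), (he y).2 hy, (he y').2 hy', hy2.le, hy2'.le⟩

/-- **no solution** -/
theorem no_sol {B : Set ℕ} {s : ℕ → List Bool} {b : ℕ × ℕ → Bool}
    (hs : ∀ n, Wit B n (s (n + 1)) ∨ ¬ Large B n (s n))
    (hb : ∀ n, ∃ k0, ∀ k ≥ k0, ∀ j < (s n).length, (s n)[j]? = some (b (j, k))) :
    ¬ ∃ X, Solution (col b) X ∧ Computes B (char X) := by
  rintro ⟨X, ⟨hinf, h0, i, hi⟩, hX⟩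
  obtain ⟨e, he, hw⟩ := wit_of_infinite hs (computes_set.1 hX).1 hinf
  obtain ⟨y, y', m1, m2, hy, hy', hy0, hyy, hx⟩ := wit_bounds hw
  rw [he] at hy hy'
  obtain ⟨k1, hk1⟩ := dig_ext hb (e + 1)
  have hk : ∀ k ≥ k1, (m1 + 15 / 32 ≤ y * aa b k ∧ y * aa b k ≤ m1 + 17 / 32) ∧
      (m2 + 7 / 32 ≤ y' * aa b k ∧ y' * aa b k ≤ m2 + 9 / 32) := by
    intro k hk
    obtain ⟨ρ, hρ⟩ := hk1 k hk
    obtain ⟨n1, n2⟩ := nest (s (e + 1)) ρ
    rw [← hρ] at n1 n2
    refine hx _ n1 (le_trans ?_ n2)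
    exact div_le_div_of_nonneg_right (by linarith) (pw_pos _).le
  -- the sums
  obtain ⟨n1, hn1, hn1C⟩ := hinf.exists_gt (y + y')
  obtain ⟨n2, hn2, hn2C⟩ := hinf.exists_gt ((k1 + n1 + y + y') * (k1 + n1 + y + y'))
  have hsq : k1 + n1 + y + y' ≤ n2.sqrt := Nat.le_sqrt.2 hn2C.le
  have hn2n : n1 < n2 := by nlinarith
  obtain ⟨l1, l2⟩ := (Nat.eq_sqrt (n := n2) (a := n2.sqrt)).1 rfl
  obtain ⟨F, hFX, hFne, hyF, hyF', k, hkk, hF⟩ : ∃ F : Finset ℕ, (F : Set ℕ) ⊆ X ∧ F.Nonempty ∧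
      y ∉ F ∧ y' ∉ F ∧ ∃ k ≥ k1, ∀ t ≤ y + y', Nat.sqrt (∑ x ∈ F, x + t) = k := by
    rcases lt_or_ge (n2 + (y + y')) ((n2.sqrt + 1) * (n2.sqrt + 1)) with h | h
    · refine ⟨{n2}, by simpa using hn2, by simp, by simp; omega, by simp; omega, n2.sqrt, by omega,
        fun t ht => ?_⟩
      rw [Finset.sum_singleton]
      exact (Nat.eq_sqrt.2 ⟨by omega, by omega⟩).symm
    · refine ⟨{n1, n2}, ?_, by simp, by simp; omega, by simp; omega, n2.sqrt + 1, by omega,
        fun t ht => ?_⟩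
      · intro x hx
        simp only [Finset.coe_insert, Finset.coe_singleton, Set.mem_insert_iff,
          Set.mem_singleton_iff] at hx
        rcases hx with rfl | rfl <;> assumption
      · rw [Finset.sum_pair (by omega)]
        refine (Nat.eq_sqrt.2 ⟨by omega, ?_⟩).symm
        have e : (n2.sqrt + 1 + 1) * (n2.sqrt + 1 + 1) =
            (n2.sqrt + 1) * (n2.sqrt + 1) + (2 * n2.sqrt + 3) := by ring
        rw [e]
        omega
  have hyy' : y ≠ y' := hyy.ne
  have c0 : col b (∑ x ∈ F, x) = i := hi F hFX hFne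
  have c1 : col b (∑ x ∈ F, x + y) = i := by
    have h1 := hi (insert y F) (by
      intro x hx
      rcases Finset.mem_insert.1 (Finset.mem_coe.1 hx) with rfl | hx
      · exact hy
      · exact hFX hx) (Finset.insert_nonempty _ _)
    rwa [Finset.sum_insert hyF, add_comm] at h1
  have c2 : col b (∑ x ∈ F, x + y') = i := by
    have h1 := hi (insert y' F) (by
      intro x hx
      rcases Finset.mem_insert.1 (Finset.mem_coe.1 hx) with rfl | hx
      · exact hy'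
      · exact hFX hx) (Finset.insert_nonempty _ _)
    rwa [Finset.sum_insert hyF', add_comm] at h1
  have c3 : col b (∑ x ∈ F, x + (y + y')) = i := by
    have h1 := hi (insert y (insert y' F)) (by
      intro x hx
      rcases Finset.mem_insert.1 (Finset.mem_coe.1 hx) with rfl | hx
      · exact hy
      · rcases Finset.mem_insert.1 hx with rfl | hx
        · exact hy'
        · exact hFX hx) (Finset.insert_nonempty _ _)
    rw [Finset.sum_insert (by
      rw [Finset.mem_insert, not_or]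
      exact ⟨hyy', hyF⟩), Finset.sum_insert hyF'] at h1
    rw [← h1]
    congr 1
    omega
  rw [col_eq] at c0 c1 c2 c3
  rw [hF y (by omega)] at c1
  rw [hF y' (by omega)] at c2
  rw [hF (y + y') le_rfl] at c3
  have h4 := hF 0 (by omega)
  rw [add_zero] at h4
  rw [h4] at c0
  obtain ⟨⟨a1, a2⟩, a3, a4⟩ := hk k hkk
  refine spread (u := ((∑ x ∈ F, x : ℕ) : ℝ) * aa b k) (p := y * aa b k) (q := y' * aa b k)
    (m1 := m1) (m2 := m2) (by exact_mod_cast a1) (by exact_mod_cast a2) (by exact_mod_cast a3)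
    (by exact_mod_cast a4) (half_iff ?_) (half_iff ?_) (half_iff ?_)
  · rw [c0, ← c1]
    congr 1
    push_cast
    ring
  · rw [c0, ← c2]
    congr 1
    push_cast
    ring
  · rw [c0, ← c3]
    congr 1
    push_cast
    ring

end Pool.Agent.U657.HT
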