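import Pool.Agent.U657.HT.Low3

/-!
A rotation number which cannot be found from partial information: the minimal set.
-/

set_option autoImplicit false

namespace Pool.Agent.U657.HT

open Encodable Pool.Agent.Helper446 Pool.Agent.Helper446.Oracle
open Pool.Agent.Y545.HM Pool.Agent.Y545.HM.St
open Filter Topology
open Pool.Agent.Helper578.JD (jump)

theorem exists_alpha {s : ℕ → List Bool} (hs : ∀ n, ∃ ρ, ρ ≠ [] ∧ s (n + 1) = s n ++ ρ) :
    ∃ α : ℝ, ∀ n, (val (s n) : ℝ) / pw (s n) ≤ α ∧ α ≤ (val (s n) + 1) / pw (s n) := by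
  let lo : ℕ → ℝ := fun n => (val (s n) : ℝ) / pw (s n)
  let hi : ℕ → ℝ := fun n => ((val (s n) : ℝ) + 1) / pw (s n)
  have h1 : Monotone lo := monotone_nat_of_le_succ fun n => by
    obtain ⟨ρ, -, h⟩ := hs n
    have := (nest (s n) ρ).1
    rw [← h] at this
    exact this
  have h2 : Antitone hi := antitone_nat_of_succ_le fun n => by
    obtain ⟨ρ, -, h⟩ := hs n
    have := (nest (s n) ρ).2
    rw [← h] at this
    exact this
  have h3 : ∀ n, lo n ≤ hi n := fun n =>
    div_le_div_of_nonneg_right (by linarith) (pw_pos _).le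
  have h4 : ∀ m n, lo m ≤ hi n := fun m n =>
    (h1 (le_max_left m n)).trans ((h3 _).trans (h2 (le_max_right m n)))
  have hbdd : BddAbove (Set.range lo) := ⟨hi 0, by
    rintro _ ⟨m, rfl⟩
    exact h4 m 0⟩
  exact ⟨⨆ n, lo n, fun n => ⟨le_ciSup hbdd n, ciSup_le fun m => h4 m n⟩⟩

theorem fract_eq {x v : ℝ} (h0 : 0 ≤ v) (h1 : v < 1) (n : ℤ) (hx : x = n + v) :
    Int.fract x = v := by
  rcases fr h0 (by linarith) n hx with ⟨-, h⟩ | ⟨h, -⟩
  · exact h
  · linarith

theorem half_right (x : ℝ) : ∃ ε, 0 < ε ∧ ∀ t, 0 < t → t < ε → half (x + t) = half x := by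
  have h0 := Int.fract_nonneg x
  have h1 := Int.fract_lt_one x
  have hx := Int.floor_add_fract x
  rcases lt_or_ge (Int.fract x) (1 / 2) with h | h
  · refine ⟨1 / 2 - Int.fract x, by linarith, fun t ht0 ht1 => ?_⟩
    have e := fract_eq (x := x + t) (v := Int.fract x + t) (by linarith) (by linarith) ⌊x⌋
      (by linarith)
    unfold half
    rw [e, if_pos (by linarith), if_pos h]
  · refine ⟨1 - Int.fract x, by linarith, fun t ht0 ht1 => ?_⟩
    have e := fract_eq (x := x + t) (v := Int.fract x + t) (by linarith) (by linarith) ⌊x⌋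
      (by linarith)
    unfold half
    rw [e, if_neg (by linarith), if_neg (by linarith)]

/-- the left germ; it agrees with the value except at the multiples of `1 / 2` -/
theorem half_left (x : ℝ) : ∃ i, ∃ ε, 0 < ε ∧ (∀ t, 0 < t → t < ε → half (x - t) = i) ∧
    (Int.fract x ≠ 0 → Int.fract x ≠ 1 / 2 → i = half x) := by
  have h0 := Int.fract_nonneg x
  have h1 := Int.fract_lt_one x
  have hx := Int.floor_add_fract x
  rcases h0.eq_or_lt with h | h
  · refine ⟨1, 1 / 2, by norm_num, fun t ht0 ht1 => ?_, fun h' => absurd h.symm h'⟩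
    have e := fract_eq (x := x - t) (v := 1 - t) (by linarith) (by linarith) (⌊x⌋ - 1)
      (by push_cast; linarith)
    unfold half
    rw [e, if_neg (by linarith)]
  · rcases le_or_gt (Int.fract x) (1 / 2) with h' | h'
    · refine ⟨0, Int.fract x, h, fun t ht0 ht1 => ?_, fun _ h2 => ?_⟩
      · have e := fract_eq (x := x - t) (v := Int.fract x - t) (by linarith) (by linarith) ⌊x⌋
          (by linarith)
        unfold half
        rw [e, if_pos (by linarith)]
      · unfold half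
        rw [if_pos (lt_of_le_of_ne h' h2)]
    · refine ⟨1, Int.fract x - 1 / 2, by linarith, fun t ht0 ht1 => ?_, fun _ _ => ?_⟩
      · have e := fract_eq (x := x - t) (v := Int.fract x - t) (by linarith) (by linarith) ⌊x⌋
          (by linarith)
        unfold half
        rw [e, if_neg (by linarith)]
      · unfold half
        rw [if_neg (by linarith)]

theorem half_int (x : ℝ) (m : ℤ) : half (x + m) = half x := by
  unfold half
  rw [Int.fract_add_intCast]

/-- the words of the coding of `1 / 4` occur in all minimal sets -/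
theorem low_blocks {s : ℕ → List Bool} {b : ℕ × ℕ → Bool} {α : ℝ}
    (hs : ∀ n, ∃ ρ, ρ ≠ [] ∧ s (n + 1) = s n ++ ρ)
    (hα : ∀ n, (val (s n) : ℝ) / pw (s n) ≤ α ∧ α ≤ (val (s n) + 1) / pw (s n))
    (hirr : Irrational α)
    (hb : ∀ n, ∃ k0, ∀ k ≥ k0, ∀ j < (s n).length, (s n)[j]? = some (b (j, k)))
    {N : Set (ℕ → Fin 2)} (hN : Minimal N) (hNc : N ⊆ OrbitClosure (col b)) (L : ℕ) :
    ∃ g ∈ N, ∀ j < L, g j = half (1 / 4 + j * α) := by
  have : Fact ((0 : ℝ) < 1) := ⟨one_pos⟩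
  -- local constancy
  obtain ⟨η, hη, hη2⟩ : ∃ η, 0 < η ∧ ∀ j < L, ∀ v : ℝ, |v| < η →
      half (1 / 4 + j * α + v) = half (1 / 4 + j * α) := by
    obtain ⟨η, hη, h⟩ := small (P := fun j t => half (1 / 4 + j * α + t) = half (1 / 4 + j * α) ∧
      half (1 / 4 + j * α - t) = half (1 / 4 + j * α)) (fun j => by
        obtain ⟨ε, hε, h1⟩ := half_right (1 / 4 + j * α)
        obtain ⟨i, ε', hε', h2, h3⟩ := half_left (1 / 4 + j * α)
        have hx := Int.floor_add_fract (1 / 4 + (j : ℝ) * α)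
        have hne : ∀ r : ℚ, (j : ℝ) * α ≠ r ∨ j = 0 := by
          intro r
          rcases Nat.eq_zero_or_pos j with hj | hj
          · exact Or.inr hj
          · exact Or.inl fun h => (hirr.natCast_mul hj.ne').ne_rat r h
        have h4 : Int.fract (1 / 4 + (j : ℝ) * α) ≠ 0 := by
          intro h5
          rcases hne ((⌊1 / 4 + (j : ℝ) * α⌋ : ℚ) - 1 / 4) with h | h
          · apply h
            push_cast
            linarith
          · subst h
            have h6 := fract_eq (x := 1 / 4 + ((0 : ℕ) : ℝ) * α) (v := 1 / 4) (by norm_num)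
              (by norm_num) 0 (by push_cast; ring)
            rw [h6] at h5
            norm_num at h5
        have h4' : Int.fract (1 / 4 + (j : ℝ) * α) ≠ 1 / 2 := by
          intro h5
          rcases hne ((⌊1 / 4 + (j : ℝ) * α⌋ : ℚ) + 1 / 4) with h | h
          · apply h
            push_cast
            linarith
          · subst h
            have h6 := fract_eq (x := 1 / 4 + ((0 : ℕ) : ℝ) * α) (v := 1 / 4) (by norm_num)
              (by norm_num) 0 (by push_cast; ring)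
            rw [h6] at h5
            norm_num at h5
        refine ⟨min ε ε', lt_min hε hε', fun t ht0 ht1 => ⟨?_, ?_⟩⟩
        · exact h1 t ht0 (lt_of_lt_of_le ht1 (min_le_left _ _))
        · rw [h2 t ht0 (lt_of_lt_of_le ht1 (min_le_right _ _)), h3 h4 h4']) L
    refine ⟨η, hη, fun j hj v hv => ?_⟩
    rcases lt_trichotomy v 0 with hv0 | hv0 | hv0
    · rw [abs_of_neg hv0] at hv
      have := (h j hj (-v) (by linarith) hv).2
      rwa [sub_neg_eq_add] at this
    · rw [hv0, add_zero]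
    · rw [abs_of_pos hv0] at hv
      exact (h j hj v hv0 hv).1
  -- bounded gaps of the rotation
  have hd : DenseRange fun n : ℤ => n • (α : AddCircle (1 : ℝ)) :=
    AddCircle.denseRange_zsmul_coe_iff.2 (by rwa [div_one])
  obtain ⟨G, hG⟩ := rot_gap hd (W := (fun t : ℝ => (t : AddCircle (1 : ℝ))) ''
    Set.Ioo (1 / 4) (1 / 4 + η / 2)) (QuotientAddGroup.isOpenMap_coe _ isOpen_Ioo)
    ((Set.nonempty_Ioo.2 (by linarith)).image _)
  -- convergence
  have hlen : ∀ n, n ≤ (s n).length := by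
    intro n
    induction n with
    | zero => exact Nat.zero_le _
    | succ n ih =>
      obtain ⟨ρ, h1, h2⟩ := hs n
      have h3 : 0 < ρ.length := List.length_pos_iff.2 h1
      rw [h2, List.length_append]
      omega
  obtain ⟨k0, hk0⟩ : ∃ k0, ∀ k ≥ k0, ((G : ℝ) + L + 1) * |aa b k - α| < η / 2 := by
    obtain ⟨n, hn⟩ := exists_nat_one_div_lt (show 0 < η / 2 / ((G : ℝ) + L + 1) by positivity)
    obtain ⟨k0, hk0⟩ := dig_ext hb n
    refine ⟨k0, fun k hk => ?_⟩
    obtain ⟨ρ, hρ⟩ := hk0 k hk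
    obtain ⟨n1, n2⟩ := nest (s n) ρ
    rw [← hρ] at n1 n2
    have n3 : aa b k ≤ (val (s n) + 1) / pw (s n) :=
      le_trans (div_le_div_of_nonneg_right (by linarith) (pw_pos _).le) n2
    have n4 : (val (s n) : ℝ) / pw (s n) ≤ aa b k := n1
    obtain ⟨n5, n6⟩ := hα n
    have n7 : ((val (s n) : ℝ) + 1) / pw (s n) = val (s n) / pw (s n) + 1 / pw (s n) := by ring
    have n8 : (1 : ℝ) / pw (s n) ≤ 1 / ((n : ℝ) + 1) := by
      refine one_div_le_one_div_of_le (by positivity) ?_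
      have h1 : n < 2 ^ n := Nat.lt_two_pow_self
      have h2 : 2 ^ n ≤ pw (s n) := by
        rw [pw_eq]
        exact Nat.pow_le_pow_right (by omega) (hlen n)
      exact_mod_cast (by omega : n + 1 ≤ pw (s n))
    have n9 : |aa b k - α| ≤ 1 / pw (s n) := by
      rw [abs_le]
      constructor <;> linarith
    have hpos : (0 : ℝ) < (G : ℝ) + L + 1 := by positivity
    have n10 : |aa b k - α| < η / 2 / ((G : ℝ) + L + 1) := by linarith
    rw [lt_div_iff₀ hpos] at n10
    linarith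
  obtain ⟨g, hg⟩ := hN.nonempty
  let D : ℕ := k0 + G + L
  obtain ⟨n, hn⟩ := oc_iff.1 (hNc hg) (D * D + 2 * (G + L) + 1)
  -- a long interval on which the square root is constant
  obtain ⟨p, kk, hp1, hp2, hkk, hsq⟩ : ∃ p kk, n ≤ p ∧ p ≤ n + D * D + (G + L) ∧ k0 ≤ kk ∧
      ∀ t ≤ G + L, Nat.sqrt (p + t) = kk := by
    have hk : D ≤ (n + D * D).sqrt := Nat.le_sqrt.2 (by omega)
    obtain ⟨l1, l2⟩ := (Nat.eq_sqrt (n := n + D * D) (a := (n + D * D).sqrt)).1 rfl
    generalize (n + D * D).sqrt = k at hk l1 l2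
    have hD : G + L ≤ D ∧ k0 ≤ D := ⟨by omega, by omega⟩
    rcases lt_or_ge (n + D * D + (G + L)) ((k + 1) * (k + 1)) with h | h
    · exact ⟨n + D * D, k, by omega, by omega, by omega, fun t ht =>
        (Nat.eq_sqrt.2 ⟨by omega, by omega⟩).symm⟩
    · refine ⟨(k + 1) * (k + 1), k + 1, by omega, h, by omega, fun t ht => ?_⟩
      refine (Nat.eq_sqrt.2 ⟨by omega, ?_⟩).symm
      have e : (k + 1 + 1) * (k + 1 + 1) = (k + 1) * (k + 1) + (2 * k + 3) := by ring
      rw [e]
      omega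
  obtain ⟨j0, hj0, x, ⟨hx1, hx2⟩, hx⟩ := hG ((p * aa b kk : ℝ) : AddCircle (1 : ℝ))
  have h4 : ((p * aa b kk + j0 * α - x : ℝ) : AddCircle (1 : ℝ)) = 0 := by
    rw [AddCircle.coe_sub, AddCircle.coe_add, ← nsmul_eq_mul j0, AddCircle.coe_nsmul, sub_eq_zero]
    exact hx.symm
  obtain ⟨m, hm⟩ := (AddCircle.coe_eq_zero_iff (1 : ℝ)).1 h4
  have h5 : p * aa b kk + j0 * α = x + m := by
    have h6 : m • (1 : ℝ) = p * aa b kk + j0 * α - x := hm
    rw [zsmul_eq_mul, mul_one] at h6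
    linarith
  refine ⟨_, hN.shifts hg (p - n + j0), fun j hj => ?_⟩
  show g (p - n + j0 + j) = _
  rw [← hn (p - n + j0 + j) (by omega), show n + (p - n + j0 + j) = p + (j0 + j) by omega, col_eq,
    hsq (j0 + j) (by omega), ← hη2 j hj (x - 1 / 4 + (j0 + j) * (aa b kk - α)),
    ← half_int (1 / 4 + j * α + (x - 1 / 4 + (j0 + j) * (aa b kk - α))) m]
  · congr 1
    push_cast
    linear_combination h5
  · have h7 := hk0 kk hkk
    have h8 : |((j0 : ℝ) + j) * (aa b kk - α)| ≤ ((G : ℝ) + L + 1) * |aa b kk - α| := by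
      rw [abs_mul, abs_of_nonneg (by positivity)]
      refine mul_le_mul_of_nonneg_right ?_ (abs_nonneg _)
      have h9 : (j0 : ℝ) ≤ G := by exact_mod_cast hj0.le
      have h10 : (j : ℝ) ≤ L := by exact_mod_cast hj.le
      linarith
    have h11 := abs_lt.1 (lt_of_le_of_lt h8 h7)
    rw [abs_lt]
    constructor <;> linarith [h11.1, h11.2]

/-- **The lower bound** -/
theorem low {A B : Set ℕ} (hBA : Dec (jump A) (jump B)) : ∃ c : ℕ → Fin 2, Gr A c ∧
    (∃ N, (∀ M, Minimal M ∧ M ⊆ OrbitClosure c ↔ M = N) ∧ Coded N) ∧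
    ¬ ∃ X, Solution c X ∧ Computes B (char X) := by
  obtain ⟨s, hs, b, hbA, hb⟩ := approx hBA
  have hs1 : ∀ n, ∃ ρ, ρ ≠ [] ∧ s (n + 1) = s n ++ ρ := fun n => by
    obtain ⟨ρ, h1, h2, -⟩ := hs n
    exact ⟨ρ, h1, h2⟩
  have hs2 : ∀ n, Wit B n (s (n + 1)) ∨ ¬ Large B n (s n) := fun n => by
    obtain ⟨ρ, -, -, h⟩ := hs n
    exact h
  obtain ⟨α, hα⟩ := exists_alpha hs1
  have hirr : Irrational α := by
    rintro ⟨r, hr⟩
    let S : Set ℕ := {n | n % r.den = 0}
    have hSre : REIn B (· ∈ S) := REIn.of_re (RE.eq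
      (Primrec.nat_mod.comp Primrec.id (Primrec.const _)).to_comp (by fun_prop))
    have hSinf : S.Infinite := by
      refine Set.infinite_of_injective_forall_mem (f := fun n : ℕ => r.den * n) (fun a b hab =>
        Nat.eq_of_mul_eq_mul_left r.pos hab) fun n => ?_
      exact Nat.mul_mod_right _ _
    obtain ⟨e, he, hw⟩ := wit_of_infinite hs2 hSre hSinf
    obtain ⟨y, y', m1, m2, hy, -, -, -, hx⟩ := wit_bounds hw
    obtain ⟨⟨a1, a2⟩, -⟩ := hx α (hα (e + 1)).1 (hα (e + 1)).2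
    obtain ⟨z, rfl⟩ := Nat.dvd_of_mod_eq_zero ((he y).1 hy)
    have h1 : ((r.den * z : ℕ) : ℝ) * α = ((z * r.num : ℤ) : ℝ) := by
      have h2 : (r.den : ℝ) * (r : ℝ) = r.num := by exact_mod_cast Rat.den_mul_eq_num r
      rw [← hr]
      push_cast
      linear_combination (z : ℝ) * h2
    rw [h1] at a1 a2
    have h3 : ((m1 : ℤ) : ℝ) < ((z * r.num : ℤ) : ℝ) := by
      push_cast at a1 ⊢
      linarith
    have h4 : ((z * r.num : ℤ) : ℝ) < ((m1 + 1 : ℤ) : ℝ) := by
      push_cast at a2 ⊢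
      linarith
    have h5 : (m1 : ℤ) < z * r.num := by exact_mod_cast h3
    have h6 : (z : ℤ) * r.num < m1 + 1 := by exact_mod_cast h4
    omega
  have key : ∀ N : Set (ℕ → Fin 2), Minimal N → N ⊆ OrbitClosure (col b) →
      ∀ L, ∃ g ∈ N, ∀ j < L, g j = half (1 / 4 + j * α) := fun N hN hNc L =>
    low_blocks hs1 hα hirr hb hN hNc L
  obtain ⟨N, hN, hNc, -, -⟩ := greedy (col b) [] (by
    rintro ⟨L, hL⟩
    obtain ⟨j, -, w, hw, -⟩ := hL 0
    simp at hw)
  let γ : ℕ → Fin 2 := fun j => half (1 / 4 + j * α)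
  have hγ : ∀ M : Set (ℕ → Fin 2), Minimal M → M ⊆ OrbitClosure (col b) → γ ∈ M := by
    intro M hM hMc
    rw [← hM.closed.closure_eq, mem_closure_iff]
    intro O hO hγO
    obtain ⟨V, ⟨y, n, rfl⟩, h1, h2⟩ :=
      (PiNat.isTopologicalBasis_cylinders (fun _ : ℕ => Fin 2)).mem_nhds_iff.1 (hO.mem_nhds hγO)
    obtain ⟨g, hg, hgn⟩ := key M hM hMc n
    refine ⟨g, h2 ?_, hg⟩
    rw [PiNat.mem_cylinder_iff] at h1 ⊢
    intro i hi
    rw [hgn i hi, ← h1 i hi]
  have hsub : ∀ M M' : Set (ℕ → Fin 2), Minimal M → Minimal M' → γ ∈ M → γ ∈ M' → M ⊆ M' := by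
    intro M M' hM hM' h1 h2
    refine (hM.dense γ h1).trans ?_
    refine closure_minimal ?_ hM'.closed
    rintro _ ⟨n, rfl⟩
    exact hM'.shifts h2 n
  refine ⟨col b, gr_col hbA, ⟨N, fun M => ⟨?_, ?_⟩, ?_⟩, no_sol hs2 hb⟩
  · rintro ⟨hM, hMc⟩
    exact Set.Subset.antisymm (hsub M N hM hN (hγ M hM hMc) (hγ N hN hNc))
      (hsub N M hN hM (hγ N hN hNc) (hγ M hM hMc))
  · rintro rfl
    exact ⟨hN, hNc⟩
  · refine ⟨α, half, fun x => ?_, fun x => ?_, fun L => ?_⟩
    · have := half_int x 1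
      rwa [Int.cast_one] at this
    · obtain ⟨ε, hε, h1⟩ := half_right x
      obtain ⟨i, ε', hε', h2, -⟩ := half_left x
      exact ⟨half x, i, min ε ε', lt_min hε hε', fun t ht0 ht1 =>
        ⟨h1 t ht0 (lt_of_lt_of_le ht1 (min_le_left _ _)),
          h2 t ht0 (lt_of_lt_of_le ht1 (min_le_right _ _))⟩⟩
    · obtain ⟨g, hg, h⟩ := key N hN hNc L
      exact ⟨g, hg, 1 / 4, h⟩

end Pool.Agent.U657.HT
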