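import Pool.Agent.U657.HT.Circ

/-!
Colourings with long blocks which are coded by a weakly mixing minimal set and by a rotation of a
compact group which need not be minimal.
-/

set_option autoImplicit false

namespace Pool.Agent.U657.HT

open Encodable Pool.Agent.Helper446 Pool.Agent.Helper446.Oracle
open Pool.Agent.Y545.HM Pool.Agent.Y545.HM.St
open Filter Topology

variable {k k' : ℕ}

section group

variable {K : Type} [AddCommGroup K] [TopologicalSpace K] [IsTopologicalAddGroup K] [CompactSpace K]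

/-- joint visits along one orbit -/
theorem joint_gap' {M : Set (ℕ → Fin k)} (hM : Minimal M) (hw : WeaklyMixing M) {g : ℕ → Fin k}
    (hg : g ∈ M) (N : ℕ) {α : K} {W : Set K} (hW : IsOpen W) (hne : ∃ n : ℕ, n • α ∈ W) :
    ∃ G, ∀ h ∈ M, ∀ p : ℕ, ∃ j < G, (∀ x < N, h (j + x) = g x) ∧ (p + j) • α ∈ W := by
  let H : AddSubgroup K := (AddSubgroup.zmultiples α).topologicalClosure
  have hHc : IsClosed (H : Set K) := (AddSubgroup.zmultiples α).isClosed_topologicalClosure
  have hsub : ∀ z ∈ AddSubgroup.zmultiples α, z ∈ H := fun z hz =>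
    (AddSubgroup.zmultiples α).le_topologicalClosure hz
  have : CompactSpace H := isCompact_iff_compactSpace.1 hHc.isCompact
  let α' : H := ⟨α, hsub α (AddSubgroup.mem_zmultiples α)⟩
  have hd : DenseRange fun n : ℤ => n • α' := by
    intro z
    rw [mem_closure_iff]
    rintro O hO hz
    obtain ⟨O', hO', rfl⟩ := isOpen_induced_iff.1 hO
    have hz' : (z : K) ∈ closure ((AddSubgroup.zmultiples α : AddSubgroup K) : Set K) := z.2
    obtain ⟨y, hy, hy2⟩ := mem_closure_iff.1 hz' O' hO' hz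
    obtain ⟨n, hn⟩ := AddSubgroup.mem_zmultiples_iff.1 hy2
    refine ⟨n • α', ?_, n, rfl⟩
    show ((n • α' : H) : K) ∈ O'
    have e : ((n • α' : H) : K) = n • α := by simp [α']
    rw [e, hn]
    exact hy
  obtain ⟨n, hn⟩ := hne
  obtain ⟨G, hG⟩ := joint_gap hM hw hg N hd (W := {z : H | (z : K) ∈ W})
    (hW.preimage continuous_subtype_val) ⟨n • α', by
      show ((n • α' : H) : K) ∈ W
      have e : ((n • α' : H) : K) = n • α := by simp [α']
      rwa [e]⟩
  refine ⟨G, fun h hh p => ?_⟩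
  obtain ⟨j, hj, h1, h2⟩ := hG h hh (p • α')
  refine ⟨j, hj, h1, ?_⟩
  have e : ((p • α' + j • α' : H) : K) = (p + j) • α := by simp [α', add_smul]
  rw [← e]
  exact h2

/-- **The engine**: colourings which are coded by a weakly mixing minimal set on the returns of a
rotation to `R`, in long intervals -/
theorem engine {A : Set ℕ} {c : ℕ → Fin k} (hc : Computes A (fun n => Part.some (c n).val))
    {M : Set (ℕ → Fin k')} (hM : Minimal M) (hw : WeaklyMixing M) (hWM : Enum A (Words M))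
    {α : K} {R : Set K} (hR : IsOpen R)
    (h0 : (0 : K) ∈ closure (R ∩ Set.range fun n : ℕ => n • α))
    (hE : Enum A {n : ℕ | n • α ∈ R}) (f : Fin k' → Fin k)
    (h : ∀ C ⊆ R, IsCompact C → ∀ L, ∃ n, ∃ w ∈ M, ∀ j < L, (n + j) • α ∈ C →
      c (n + j) = f (w j)) :
    ∃ X, Solution c X ∧ Computes A (char X) := by
  classical
  obtain ⟨g0, hg0⟩ := hM.nonempty
  generalize hi0 : f (g0 0) = i
  let P : List ℕ := ((List.finRange k').filter fun a => f a = i).map fun a => a.val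
  have hP : ∀ n, n ∈ P ↔ ∃ a : Fin k', f a = i ∧ a.val = n := by
    intro n
    simp [P]
  let Q : List ℕ → Prop := fun l => ∃ w : List ℕ, encode w ∈ Words M ∧ ∀ s ∈ l, w.getD s k' ∈ P
  have hQiff : ∀ l, Q l ↔ ∃ g ∈ M, ∀ s ∈ l, f (g s) = i := by
    intro l
    constructor
    · rintro ⟨w, ⟨g, hg, L, hL⟩, hw⟩
      have hw' : w = (List.range L).map fun x => (g x).val := encode_injective hL
      subst hw'
      refine ⟨g, hg, fun s hs => ?_⟩
      obtain ⟨a, ha, ha2⟩ := (hP _).1 (hw s hs)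
      rw [List.getD_eq_getElem?_getD, List.getElem?_map] at ha2
      rcases lt_or_ge s L with h2 | h2
      · rw [List.getElem?_range h2] at ha2
        have h3 : a = g s := Fin.ext ha2
        rw [← h3]
        exact ha
      · rw [List.getElem?_eq_none (by simpa using h2)] at ha2
        have h3 : a.val = k' := ha2
        have := a.isLt
        omega
    · rintro ⟨g, hg, hs⟩
      refine ⟨(List.range (l.sum + 1)).map fun x => (g x).val, ⟨g, hg, _, rfl⟩, fun s hsm => ?_⟩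
      have h1 : s < l.sum + 1 := Nat.lt_succ_of_le (List.le_sum_of_mem hsm)
      rw [List.getD_eq_getElem?_getD, List.getElem?_map, List.getElem?_range h1]
      exact (hP _).2 ⟨g s, hs s hsm, rfl⟩
  have hQ : REIn A Q := by
    refine REIn.ex (S := fun (l : List ℕ) (w : List ℕ) => encode w ∈ Words M ∧
      ∀ s ∈ l, w.getD s k' ∈ P) (REIn.and ?_ ?_)
    · exact (enum_iff.1 hWM).comp (f := fun x : List ℕ × List ℕ => encode x.2)
        (Computable.encode.comp (by fun_prop))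
    · refine REIn.all_mem (S := fun (x : List ℕ × List ℕ) (s : ℕ) => x.2.getD s k' ∈ P)
        (l := fun x => x.1) ?_ (by fun_prop)
      refine REIn.of_re (RE.mem_list ?_ (Computable.const P))
      have h1 : Primrec fun y : (List ℕ × List ℕ) × ℕ => y.1.2.getD y.2 k' :=
        (Primrec.list_getD k').comp (Primrec.snd.comp Primrec.fst) Primrec.snd
      exact h1.to_comp
  obtain ⟨y, hy, hmono, hy0, hF⟩ := core' (computes_col.1 hc) i
    (G := fun l => (∀ s ∈ l, s = 0 ∨ s • α ∈ R) ∧ Q l) (by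
      refine REIn.and ?_ hQ
      refine REIn.all_mem (S := fun (_ : List ℕ) (s : ℕ) => s = 0 ∨ s • α ∈ R) (l := fun l => l)
        ?_ (by fun_prop)
      refine REIn.or (REIn.of_re (RE.eq (by fun_prop) (by fun_prop))) ?_
      exact (enum_iff.1 hE).comp (f := fun x : List ℕ × ℕ => x.2) (by fun_prop))
    ⟨by simp, (hQiff _).2 ⟨g0, hg0, by simpa using hi0⟩⟩ (by
    rintro l hl0 ⟨hl, hlQ⟩ N
    obtain ⟨g, hg, hgl⟩ := (hQiff l).1 hlQ
    let V : Set K := ⋂ s ∈ l.toFinset, {v | s ≠ 0 → s • α + v ∈ R}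
    have hV : IsOpen V := by
      refine isOpen_biInter_finset fun s _ => ?_
      by_cases hs : s = 0
      · simp [hs]
      · have e : {v : K | s ≠ 0 → s • α + v ∈ R} = {v | s • α + v ∈ R} := by
          ext v; simp [hs]
        rw [e]
        exact hR.preimage (continuous_const_add _)
    have hV0 : (0 : K) ∈ V := by
      simp only [V, Set.mem_iInter, Set.mem_ofPred_eq]
      intro s hs hs0
      rw [add_zero]
      exact (hl s (List.mem_toFinset.1 hs)).resolve_left hs0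
    obtain ⟨v0, hv0, hv0R, n0, hn0⟩ := mem_closure_iff.1 h0 V hV hV0
    obtain ⟨W, ⟨hWo, hWv⟩, hWc⟩ : ∃ W, (IsOpen W ∧ v0 ∈ W) ∧ closure W ⊆ V ∩ R := by
      obtain ⟨D, hD, hDc, hDs⟩ := exists_mem_nhds_isClosed_subset
        ((hV.inter hR).mem_nhds ⟨hv0, hv0R⟩)
      obtain ⟨W, hWD, hWo, hWv⟩ := mem_nhds_iff.1 hD
      exact ⟨W, ⟨hWo, hWv⟩, (closure_minimal hWD hDc).trans hDs⟩
    let B : ℕ := l.sum + 1
    obtain ⟨G, hG⟩ := joint_gap' hM hw hg B (α := α) hWo ⟨n0, by
      show (fun n : ℕ => n • α) n0 ∈ W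
      rw [hn0]; exact hWv⟩
    obtain ⟨H, hH⟩ := thick' hM hw hg hg B G
    let C : Set K := ⋃ s ∈ l.toFinset, (fun v => s • α + v) '' closure W
    have hC : IsCompact C := by
      refine l.toFinset.isCompact_biUnion fun s _ => ?_
      exact (isClosed_closure.isCompact).image (continuous_const_add _)
    have hCR : C ⊆ R := by
      intro x hx
      simp only [C, Set.mem_iUnion] at hx
      obtain ⟨s, hs, v, hv, rfl⟩ := hx
      obtain ⟨h1, h2⟩ := hWc hv
      simp only [V, Set.mem_iInter, Set.mem_ofPred_eq] at h1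
      by_cases hs0 : s = 0
      · simpa [hs0] using h2
      · exact h1 s hs hs0
    obtain ⟨n, w, hwM, hn⟩ := h C hCR hC (N + H + G + B)
    obtain ⟨j, hj, hj2⟩ := hH (n + N)
    obtain ⟨i', hi', hi2, hjW⟩ := hG _ (hM.shifts hwM (N + j)) (n + N + j)
    obtain ⟨g', hg', e1, e2⟩ := hj2 i' hi'
    have hyW : (n + N + j + i') • α ∈ closure W := subset_closure hjW
    have hsC : ∀ s ∈ l, (s + (n + N + j + i')) • α ∈ C := by
      intro s hs
      simp only [C, Set.mem_iUnion]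
      exact ⟨s, List.mem_toFinset.2 hs, _, hyW, (add_smul _ _ _).symm⟩
    have hsB : ∀ s ∈ l, s < B := fun s hs => Nat.lt_succ_of_le (List.le_sum_of_mem hs)
    refine ⟨n + N + j + i', by omega, ⟨fun s hs => ?_, (hQiff _).2 ⟨g', hg', fun s hs => ?_⟩⟩,
      fun s hs => ?_⟩
    · rcases List.mem_append.1 hs with hs | hs
      · exact hl s hs
      · obtain ⟨t, ht, rfl⟩ := List.mem_map.1 hs
        exact Or.inr (hCR (hsC t ht))
    · rcases List.mem_append.1 hs with hs | hs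
      · rw [e1 s (hsB s hs)]
        exact hgl s hs
      · obtain ⟨t, ht, rfl⟩ := List.mem_map.1 hs
        show f (g' (t + (n + N + j + i'))) = i
        rw [add_comm t, e2 t (hsB t ht)]
        exact hgl t ht
    · have h1 := hsC s hs
      have h2 := hsB s hs
      have e : s + (n + N + j + i') = n + (N + j + i' + s) := by omega
      rw [e] at h1 ⊢
      rw [hn (N + j + i' + s) (by omega) h1, ← hgl s hs]
      congr 1
      have h3 : w (N + j + (i' + s)) = g s := hi2 s h2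
      rw [← h3]
      congr 1
      omega)
  exact sol_of_seq (c := c) (m := 1) one_pos hy hmono hy0 (fun F hF' => by
    rw [one_mul]; exact hF F hF')

end group

/-- the integral parts near a limit -/
theorem floor_germ (U : Ultrafilter ℕ) (x : ℕ → ℝ) : ∃ ε, 0 < ε ∧ ∃ b b' : ℤ, ∀ δ, 0 < δ →
    ∀ᶠ l in (U : Filter ℕ), ∀ v, δ ≤ v → v ≤ ε → ⌊x l + v⌋ = ⌊x l⌋ + b ∧ ⌊x l - v⌋ = ⌊x l⌋ + b' := by
  obtain ⟨ξ, hξ, hU⟩ := (isCompact_Icc (a := (0 : ℝ)) (b := 1)).ultrafilter_le_nhds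
    (U.map fun l => Int.fract (x l)) (by
      rw [Filter.le_principal_iff]
      exact Filter.mem_map.2 (Filter.univ_mem' fun l =>
        ⟨Int.fract_nonneg (x l), (Int.fract_lt_one (x l)).le⟩))
  have ht : Tendsto (fun l => Int.fract (x l)) (U : Filter ℕ) (𝓝 ξ) := hU
  have near : ∀ δ, 0 < δ → ∀ᶠ l in (U : Filter ℕ), |Int.fract (x l) - ξ| < δ := fun δ hδ =>
    ht.eventually (Metric.ball_mem_nhds ξ hδ)
  have key : ∀ l v (b : ℤ), (b : ℝ) ≤ Int.fract (x l) + v → Int.fract (x l) + v < b + 1 →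
      ⌊x l + v⌋ = ⌊x l⌋ + b := by
    intro l v b h1 h2
    rw [Int.floor_eq_iff]
    have h3 := Int.floor_add_fract (x l)
    push_cast
    constructor <;> linarith
  have key' : ∀ l v (b : ℤ), (b : ℝ) ≤ Int.fract (x l) - v → Int.fract (x l) - v < b + 1 →
      ⌊x l - v⌋ = ⌊x l⌋ + b := by
    intro l v b h1 h2
    have := key l (-v) b (by linarith) (by linarith)
    rwa [← sub_eq_add_neg] at this
  obtain ⟨hξ0, hξ1⟩ := hξ
  rcases hξ0.eq_or_lt with h0 | h0
  · refine ⟨1 / 2, by norm_num, 0, -1, fun δ hδ => ?_⟩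
    filter_upwards [near (min δ (1 / 2)) (lt_min hδ (by norm_num))] with l hl v hv1 hv2
    rw [← h0, sub_zero, abs_of_nonneg (Int.fract_nonneg _)] at hl
    have h1 := min_le_left δ (1 / 2)
    have h2 := min_le_right δ (1 / 2)
    have h3 := Int.fract_nonneg (x l)
    constructor
    · exact key l v 0 (by push_cast; linarith) (by push_cast; linarith)
    · exact key' l v (-1) (by push_cast; linarith) (by push_cast; linarith)
  rcases hξ1.eq_or_lt with h1 | h1
  · refine ⟨1 / 2, by norm_num, 1, 0, fun δ hδ => ?_⟩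
    filter_upwards [near (min δ (1 / 2)) (lt_min hδ (by norm_num))] with l hl v hv1 hv2
    rw [h1, abs_lt] at hl
    have h2 := min_le_left δ (1 / 2)
    have h3 := min_le_right δ (1 / 2)
    have h4 := Int.fract_lt_one (x l)
    constructor
    · exact key l v 1 (by push_cast; linarith) (by push_cast; linarith)
    · exact key' l v 0 (by push_cast; linarith) (by push_cast; linarith)
  · have h2 : 0 < min ξ (1 - ξ) := lt_min h0 (by linarith)
    have h3 := min_le_left ξ (1 - ξ)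
    have h4 := min_le_right ξ (1 - ξ)
    refine ⟨min ξ (1 - ξ) / 2, by linarith, 0, 0, fun δ hδ => ?_⟩
    filter_upwards [near (min ξ (1 - ξ) / 2) (by linarith)] with l hl v hv1 hv2
    rw [abs_lt] at hl
    constructor
    · exact key l v 0 (by push_cast; linarith) (by push_cast; linarith)
    · exact key' l v 0 (by push_cast; linarith) (by push_cast; linarith)

/-- sets of returns to a short arc to the right of `0` -/
theorem enum_pos {A : Set ℕ} {α : ℝ} (h0 : 0 ≤ α) (hb : Enum A (Below α)) (ha : Enum A (Above α))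
    (q : ℕ) : Enum A {n : ℕ | n • (α : AddCircle (1 : ℝ)) ∈
      (fun t : ℝ => (t : AddCircle (1 : ℝ))) '' Set.Ioo 0 (1 / ((q : ℝ) + 1))} := by
  rw [enum_iff]
  have h1 : REIn A fun n : ℕ => ∃ m : ℕ, Nat.pair m n ∈ Below α ∧
      Nat.pair ((q + 1) * m + 1) ((q + 1) * n) ∈ Above α := by
    refine REIn.ex (S := fun (n m : ℕ) => Nat.pair m n ∈ Below α ∧
      Nat.pair ((q + 1) * m + 1) ((q + 1) * n) ∈ Above α) (REIn.and ?_ ?_)
    · exact (enum_iff.1 hb).comp (f := fun x : ℕ × ℕ => Nat.pair x.2 x.1) (by fun_prop)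
    · exact (enum_iff.1 ha).comp (f := fun x : ℕ × ℕ =>
        Nat.pair ((q + 1) * x.2 + 1) ((q + 1) * x.1)) (by fun_prop)
  have hq1 : (0 : ℝ) < (q : ℝ) + 1 := by positivity
  refine h1.of_eq fun n => ?_
  simp only [Below, Above, Set.mem_ofPred_eq, Nat.unpair_pair]
  push_cast
  constructor
  · rintro ⟨m, h2, h3⟩
    refine ⟨n * α - m, ⟨by linarith, ?_⟩, ?_⟩
    · rw [lt_div_iff₀ hq1]
      nlinarith
    · show ((n * α - m : ℝ) : AddCircle (1 : ℝ)) = n • (α : AddCircle (1 : ℝ))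
      rw [← AddCircle.coe_nsmul, ← sub_eq_zero, ← AddCircle.coe_sub, AddCircle.coe_eq_zero_iff]
      refine ⟨-m, ?_⟩
      simp
  · rintro ⟨t, ⟨ht0, htb⟩, ht⟩
    have h4 : ((n • α - t : ℝ) : AddCircle (1 : ℝ)) = 0 := by
      rw [AddCircle.coe_sub, AddCircle.coe_nsmul, sub_eq_zero]
      exact ht.symm
    obtain ⟨m, hm⟩ := (AddCircle.coe_eq_zero_iff (1 : ℝ)).1 h4
    have h5 : (m : ℝ) = n * α - t := by
      have h6 : m • (1 : ℝ) = n • α - t := hm
      rw [zsmul_eq_mul, mul_one, nsmul_eq_mul] at h6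
      exact h6
    have hb1 : 1 / ((q : ℝ) + 1) ≤ 1 := by
      rw [div_le_one hq1]
      have : (0 : ℝ) ≤ q := Nat.cast_nonneg q
      linarith
    have h6 : -1 < (m : ℝ) := by
      have : 0 ≤ (n : ℝ) * α := by positivity
      rw [h5]
      linarith
    have h7 : 0 ≤ m := by
      have : -1 < m := by exact_mod_cast h6
      omega
    obtain ⟨m', rfl⟩ := Int.eq_ofNat_of_zero_le h7
    have h8 : ((m' : ℕ) : ℝ) = n * α - t := by exact_mod_cast h5
    refine ⟨m', by linarith, ?_⟩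
    have h9 : t * ((q : ℝ) + 1) < 1 := by rwa [lt_div_iff₀ hq1] at htb
    have h10 : (n : ℝ) * α = m' + t := by linarith
    have h11 : ((q : ℝ) + 1) * n * α = ((q : ℝ) + 1) * (m' + t) := by
      rw [mul_assoc, h10]
    rw [h11]
    nlinarith

/-- sets of returns to a short arc to the left of `0` -/
theorem enum_neg {A : Set ℕ} {α : ℝ} (h0 : 0 ≤ α) (hb : Enum A (Below α)) (ha : Enum A (Above α))
    (q : ℕ) : Enum A {n : ℕ | n • (α : AddCircle (1 : ℝ)) ∈
      (fun t : ℝ => (t : AddCircle (1 : ℝ))) '' Set.Ioo (-(1 / ((q : ℝ) + 1))) 0} := by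
  rw [enum_iff]
  have h1 : REIn A fun n : ℕ => ∃ m : ℕ, Nat.pair ((q + 1) * m - 1) ((q + 1) * n) ∈ Below α ∧
      Nat.pair m n ∈ Above α := by
    refine REIn.ex (S := fun (n m : ℕ) => Nat.pair ((q + 1) * m - 1) ((q + 1) * n) ∈ Below α ∧
      Nat.pair m n ∈ Above α) (REIn.and ?_ ?_)
    · exact (enum_iff.1 hb).comp (f := fun x : ℕ × ℕ =>
        Nat.pair ((q + 1) * x.2 - 1) ((q + 1) * x.1)) (by fun_prop)
    · exact (enum_iff.1 ha).comp (f := fun x : ℕ × ℕ => Nat.pair x.2 x.1) (by fun_prop)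
  have hq1 : (0 : ℝ) < (q : ℝ) + 1 := by positivity
  refine h1.of_eq fun n => ?_
  simp only [Below, Above, Set.mem_ofPred_eq, Nat.unpair_pair]
  have hn0 : 0 ≤ (n : ℝ) * α := by positivity
  have hcast : ∀ m : ℕ, (n : ℝ) * α < m → (((q + 1) * m - 1 : ℕ) : ℝ) = ((q : ℝ) + 1) * m - 1 := by
    intro m hm
    have h2 : 0 < m := by
      have h3 : (0 : ℝ) < m := lt_of_le_of_lt hn0 hm
      exact_mod_cast h3
    have h3 : 1 ≤ (q + 1) * m := Nat.mul_pos (Nat.succ_pos q) h2
    rw [Nat.cast_sub h3]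
    push_cast
    ring
  constructor
  · rintro ⟨m, h2, h3⟩
    rw [hcast m h3] at h2
    push_cast at h2
    refine ⟨n * α - m, ⟨?_, by linarith⟩, ?_⟩
    · rw [neg_lt, lt_div_iff₀ hq1]
      nlinarith
    · show ((n * α - m : ℝ) : AddCircle (1 : ℝ)) = n • (α : AddCircle (1 : ℝ))
      rw [← AddCircle.coe_nsmul, ← sub_eq_zero, ← AddCircle.coe_sub, AddCircle.coe_eq_zero_iff]
      refine ⟨-m, ?_⟩
      simp
  · rintro ⟨t, ⟨htb, ht0⟩, ht⟩
    have h4 : ((n • α - t : ℝ) : AddCircle (1 : ℝ)) = 0 := by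
      rw [AddCircle.coe_sub, AddCircle.coe_nsmul, sub_eq_zero]
      exact ht.symm
    obtain ⟨m, hm⟩ := (AddCircle.coe_eq_zero_iff (1 : ℝ)).1 h4
    have h5 : (m : ℝ) = n * α - t := by
      have h6 : m • (1 : ℝ) = n • α - t := hm
      rw [zsmul_eq_mul, mul_one, nsmul_eq_mul] at h6
      exact h6
    have h6 : (0 : ℝ) < m := by
      rw [h5]
      linarith
    have h7 : 0 ≤ m := by
      have : 0 < m := by exact_mod_cast h6
      omega
    obtain ⟨m', rfl⟩ := Int.eq_ofNat_of_zero_le h7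
    have h8 : ((m' : ℕ) : ℝ) = n * α - t := by exact_mod_cast h5
    refine ⟨m', ?_, by linarith⟩
    rw [hcast m' (by linarith)]
    have h9 : -t * ((q : ℝ) + 1) < 1 := by
      have : -t < 1 / ((q : ℝ) + 1) := by linarith
      rwa [lt_div_iff₀ hq1] at this
    push_cast
    have h10 : (n : ℝ) * α = m' + t := by linarith
    have h11 : ((q : ℝ) + 1) * n * α = ((q : ℝ) + 1) * (m' + t) := by
      rw [mul_assoc, h10]
    rw [h11]
    nlinarith

/-- compact subsets of arcs -/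
theorem compact_arc {C : Set (AddCircle (1 : ℝ))} (hC : IsCompact C) {a b : ℝ}
    (h : C ⊆ (fun t : ℝ => (t : AddCircle (1 : ℝ))) '' Set.Ioo a b) :
    ∃ δ, 0 < δ ∧ C ⊆ (fun t : ℝ => (t : AddCircle (1 : ℝ))) '' Set.Ioo (a + δ) (b - δ) := by
  obtain ⟨n, hn⟩ := hC.elim_directed_cover
    (fun n : ℕ => (fun t : ℝ => (t : AddCircle (1 : ℝ))) '' Set.Ioo (a + 1 / ((n : ℝ) + 1))
      (b - 1 / ((n : ℝ) + 1))) (fun n => QuotientAddGroup.isOpenMap_coe _ isOpen_Ioo)
    (fun x hx => by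
      obtain ⟨t, ⟨h1, h2⟩, rfl⟩ := h hx
      obtain ⟨n, hn⟩ := exists_nat_one_div_lt (lt_min (sub_pos.2 h1) (sub_pos.2 h2))
      have h3 := min_le_left (t - a) (b - t)
      have h4 := min_le_right (t - a) (b - t)
      exact Set.mem_iUnion.2 ⟨n, t, ⟨by linarith, by linarith⟩, rfl⟩) (by
      refine directed_of_isDirected_le fun n n' hnn => Set.image_mono ?_
      have h1 : 1 / ((n' : ℝ) + 1) ≤ 1 / ((n : ℝ) + 1) := by
        have : (n : ℝ) ≤ n' := by exact_mod_cast hnn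
        exact one_div_le_one_div_of_le (by positivity) (by linarith)
      exact Set.Ioo_subset_Ioo (by linarith) (by linarith))
  exact ⟨1 / ((n : ℝ) + 1), by positivity, hn⟩

theorem fract_lt_iff (x t : ℝ) : Int.fract x < t ↔ ⌊x - t⌋ < ⌊x⌋ := by
  rw [Int.floor_lt, Int.fract]
  constructor <;> intro h <;> linarith

theorem ev_const {X : Type*} [Finite X] (U : Ultrafilter ℕ) (f : ℕ → X) :
    ∃ x, ∀ᶠ l in (U : Filter ℕ), f l = x := by
  obtain ⟨x, hx⟩ := Ultrafilter.eq_pure_of_finite (U.map f)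
  refine ⟨x, ?_⟩
  have h1 : ({x} : Set X) ∈ U.map f := by
    rw [hx]
    exact Ultrafilter.mem_pure.2 rfl
  exact h1

/-- `n α` is close to an integer, at the side given by `σ` if `α` is irrational -/
def Near (σ : Bool) (α δ : ℝ) (n : ℕ) : Prop := ∃ m : ℤ, (¬ Irrational α ∧ n * α = m) ∨
  (Irrational α ∧ σ = true ∧ m < n * α ∧ n * α < m + δ) ∨
  (Irrational α ∧ σ = false ∧ m - δ < n * α ∧ n * α < m)

theorem Near.mono {σ : Bool} {α δ δ' : ℝ} {n : ℕ} (hδ : δ ≤ δ') (h : Near σ α δ n) :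
    Near σ α δ' n := by
  obtain ⟨m, h | ⟨h1, h2, h3, h4⟩ | ⟨h1, h2, h3, h4⟩⟩ := h
  · exact ⟨m, Or.inl h⟩
  · exact ⟨m, Or.inr (Or.inl ⟨h1, h2, h3, by linarith⟩)⟩
  · exact ⟨m, Or.inr (Or.inr ⟨h1, h2, by linarith, h4⟩)⟩

theorem coe_of_near {α x : ℝ} {n : ℕ} {m : ℤ} (h : (n : ℝ) * α = m + x) :
    n • (α : AddCircle (1 : ℝ)) = (x : AddCircle (1 : ℝ)) := by
  rw [← sub_eq_zero, ← AddCircle.coe_nsmul, ← AddCircle.coe_sub, AddCircle.coe_eq_zero_iff]
  refine ⟨m, ?_⟩
  rw [zsmul_eq_mul, nsmul_eq_mul, h]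
  ring

theorem near_of_coe {α x : ℝ} {n : ℕ} (h : n • (α : AddCircle (1 : ℝ)) = (x : AddCircle (1 : ℝ))) :
    ∃ m : ℤ, (n : ℝ) * α = m + x := by
  rw [← sub_eq_zero, ← AddCircle.coe_nsmul, ← AddCircle.coe_sub, AddCircle.coe_eq_zero_iff] at h
  obtain ⟨m, hm⟩ := h
  refine ⟨m, ?_⟩
  rw [zsmul_eq_mul, nsmul_eq_mul] at hm
  linarith

/-- one condition `{x} < t`, near the limit phase -/
theorem arc {A : Set ℕ} {α : ℝ} (h0 : 0 ≤ α) (hb : Enum A (Below α)) (ha : Enum A (Above α))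
    (U : Ultrafilter ℕ) (g t : ℕ → ℝ) (σ : Bool) :
    ∃ R : Set (AddCircle (1 : ℝ)), IsOpen R ∧ Enum A {n : ℕ | n • (α : AddCircle (1 : ℝ)) ∈ R} ∧
      (∃ δ, 0 < δ ∧ ∀ n : ℕ, Near σ α δ n → n • (α : AddCircle (1 : ℝ)) ∈ R) ∧
      ∃ β : Bool, ∀ C ⊆ R, IsCompact C → ∀ᶠ l in (U : Filter ℕ), ∀ p : ℕ,
        p • (α : AddCircle (1 : ℝ)) ∈ C → decide (Int.fract (g l + p * α) < t l) = β := by
  by_cases hα : Irrational α
  swap
  · have hα' := hα
    unfold Irrational at hα'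
    push Not at hα'
    obtain ⟨r, hr⟩ := hα'
    have hd : (0 : ℝ) < r.den := by exact_mod_cast r.pos
    have hint : ∀ n : ℕ, n • (α : AddCircle (1 : ℝ)) ∈
        (fun t : ℝ => (t : AddCircle (1 : ℝ))) '' Set.Ioo (-(1 / (r.den : ℝ))) (1 / (r.den : ℝ)) →
        n % r.den = 0 ∧ ∃ m : ℤ, (n : ℝ) * α = m := by
      rintro n ⟨x, ⟨hx1, hx2⟩, hx⟩
      obtain ⟨m, hm⟩ := near_of_coe hx.symm
      have h1 : (r.den : ℝ) * α = r.num := by
        rw [← hr]
        exact_mod_cast Rat.den_mul_eq_num r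
      have h2 : (r.den : ℝ) * x = n * r.num - m * r.den := by
        have : (r.den : ℝ) * (n * α) = r.den * (m + x) := by rw [hm]
        linear_combination n * h1 - this
      have h3 : (r.den : ℝ) * x < 1 := by
        rw [lt_div_iff₀ hd] at hx2
        linarith
      have h4 : -1 < (r.den : ℝ) * x := by
        rw [neg_lt, lt_div_iff₀ hd] at hx1
        linarith
      have h5 : (n : ℤ) * r.num - m * r.den = 0 := by
        have h6 : ((n * r.num - m * r.den : ℤ) : ℝ) < (1 : ℤ) := by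
          push_cast
          linarith
        have h7 : ((-1 : ℤ) : ℝ) < ((n * r.num - m * r.den : ℤ) : ℝ) := by
          push_cast
          linarith
        have h8 : (n : ℤ) * r.num - m * r.den < 1 := by exact_mod_cast h6
        have h9 : -1 < (n : ℤ) * r.num - m * r.den := by exact_mod_cast h7
        omega
      have h10 : x = 0 := by
        have h11 : (r.den : ℝ) * x = 0 := by
          rw [h2]
          exact_mod_cast h5
        rcases mul_eq_zero.1 h11 with h | h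
        · exact absurd h hd.ne'
        · exact h
      refine ⟨?_, m, by rw [hm, h10, add_zero]⟩
      have h12 : (r.den : ℤ) ∣ n * r.num := ⟨m, by linarith⟩
      have h13 : IsCoprime (r.den : ℤ) r.num := by
        rw [Int.isCoprime_iff_gcd_eq_one]
        have := r.reduced
        rw [Nat.coprime_comm] at this
        simpa [Int.gcd] using this
      have h14 : (r.den : ℤ) ∣ n := h13.dvd_of_dvd_mul_right h12
      exact Nat.mod_eq_zero_of_dvd (by exact_mod_cast h14)
    have hzero : (0 : AddCircle (1 : ℝ)) ∈ (fun t : ℝ => (t : AddCircle (1 : ℝ))) ''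
        Set.Ioo (-(1 / (r.den : ℝ))) (1 / (r.den : ℝ)) :=
      ⟨0, ⟨by rw [neg_lt_zero]; positivity, by positivity⟩, AddCircle.coe_zero (1 : ℝ)⟩
    obtain ⟨β, hβ⟩ := ev_const U fun l => decide (Int.fract (g l) < t l)
    refine ⟨_, QuotientAddGroup.isOpenMap_coe _ (isOpen_Ioo (a := -(1 / (r.den : ℝ)))
      (b := 1 / (r.den : ℝ))), ?_, ⟨1, one_pos, fun n hn => ?_⟩, β, fun C hC _ => ?_⟩
    · rw [enum_iff]
      have h1 : REIn A fun n : ℕ => n % r.den = 0 :=
        REIn.of_re (RE.eq (Primrec.nat_mod.comp Primrec.id (Primrec.const _)).to_comp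
          (by fun_prop))
      refine h1.of_eq fun n => ⟨fun hn => ?_, fun hn => (hint n hn).1⟩
      obtain ⟨e, rfl⟩ := Nat.dvd_of_mod_eq_zero hn
      have h2 : ((r.den * e : ℕ) : ℝ) * α = ((e * r.num : ℤ) : ℝ) + 0 := by
        have h1 : (r.den : ℝ) * α = r.num := by
          rw [← hr]
          exact_mod_cast Rat.den_mul_eq_num r
        push_cast
        linear_combination (e : ℝ) * h1
      show (r.den * e) • (α : AddCircle (1 : ℝ)) ∈ (fun t : ℝ => (t : AddCircle (1 : ℝ))) ''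
        Set.Ioo (-(1 / (r.den : ℝ))) (1 / (r.den : ℝ))
      rw [coe_of_near h2, AddCircle.coe_zero]
      exact hzero
    · obtain ⟨m, ⟨-, hm⟩ | ⟨h1, -⟩ | ⟨h1, -⟩⟩ := hn
      · rw [coe_of_near (m := m) (x := 0) (by rw [hm, add_zero]), AddCircle.coe_zero]
        exact hzero
      · exact absurd h1 hα
      · exact absurd h1 hα
    · filter_upwards [hβ] with l hl p hp
      obtain ⟨-, m, hm⟩ := hint p (hC hp)
      rw [← hl, hm, Int.fract_add_intCast]
  obtain ⟨ε, hε, b, b', hg⟩ := floor_germ U g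
  obtain ⟨ε', hε', d, d', hg'⟩ := floor_germ U fun l => g l - t l
  obtain ⟨q, hq⟩ := exists_nat_one_div_lt (lt_min hε hε')
  have hq1 := min_le_left ε ε'
  have hq2 := min_le_right ε ε'
  cases σ with
  | true =>
    obtain ⟨β, hβ⟩ := ev_const U fun l => decide (⌊g l - t l⌋ + d < ⌊g l⌋ + b)
    refine ⟨_, QuotientAddGroup.isOpenMap_coe _ (isOpen_Ioo (a := 0) (b := 1 / ((q : ℝ) + 1))),
      enum_pos h0 hb ha q, ⟨1 / ((q : ℝ) + 1), by positivity, fun n hn => ?_⟩, β,
      fun C hC hCc => ?_⟩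
    · obtain ⟨m, ⟨h1, -⟩ | ⟨-, -, h1, h2⟩ | ⟨-, h1, -⟩⟩ := hn
      · exact absurd hα h1
      · rw [coe_of_near (m := m) (x := n * α - m) (by ring)]
        exact ⟨_, ⟨by linarith, by linarith⟩, rfl⟩
      · cases h1
    · obtain ⟨δ, hδ, hCδ⟩ := compact_arc hCc hC
      filter_upwards [hβ, hg δ hδ, hg' δ hδ] with l hl h1 h2 p hp
      obtain ⟨v, ⟨hv1, hv2⟩, hv⟩ := hCδ hp
      obtain ⟨m, hm⟩ := near_of_coe hv.symm
      obtain ⟨e1, -⟩ := h1 v (by linarith) (by linarith)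
      obtain ⟨e2, -⟩ := h2 v (by linarith) (by linarith)
      rw [← hl, decide_eq_decide, show g l + p * α = g l + v + (m : ℝ) by rw [hm]; ring,
        Int.fract_add_intCast, fract_lt_iff, e1, show g l + v - t l = g l - t l + v by ring, e2]
  | false =>
    obtain ⟨β, hβ⟩ := ev_const U fun l => decide (⌊g l - t l⌋ + d' < ⌊g l⌋ + b')
    refine ⟨_, QuotientAddGroup.isOpenMap_coe _ (isOpen_Ioo (a := -(1 / ((q : ℝ) + 1))) (b := 0)),
      enum_neg h0 hb ha q, ⟨1 / ((q : ℝ) + 1), by positivity, fun n hn => ?_⟩, β,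
      fun C hC hCc => ?_⟩
    · obtain ⟨m, ⟨h1, -⟩ | ⟨-, h1, -⟩ | ⟨-, -, h1, h2⟩⟩ := hn
      · exact absurd hα h1
      · cases h1
      · rw [coe_of_near (m := m) (x := n * α - m) (by ring)]
        exact ⟨_, ⟨by linarith, by linarith⟩, rfl⟩
    · obtain ⟨δ, hδ, hCδ⟩ := compact_arc hCc hC
      filter_upwards [hβ, hg δ hδ, hg' δ hδ] with l hl h1 h2 p hp
      obtain ⟨v, ⟨hv1, hv2⟩, hv⟩ := hCδ hp
      obtain ⟨m, hm⟩ := near_of_coe hv.symm
      obtain ⟨-, e1⟩ := h1 (-v) (by linarith) (by linarith)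
      obtain ⟨-, e2⟩ := h2 (-v) (by linarith) (by linarith)
      rw [sub_neg_eq_add] at e1 e2
      rw [← hl, decide_eq_decide, show g l + p * α = g l + v + (m : ℝ) by rw [hm]; ring,
        Int.fract_add_intCast, fract_lt_iff, e1, show g l + v - t l = g l - t l + v by ring, e2]

/-- recurrence in compact groups -/
theorem rec_group {K : Type} [AddCommGroup K] [TopologicalSpace K] [IsTopologicalAddGroup K]
    [CompactSpace K] (x : K) {V : Set K} (hV : V ∈ 𝓝 (0 : K)) : ∃ n : ℕ, 0 < n ∧ n • x ∈ V := by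
  let U : Ultrafilter ℕ := hyperfilter ℕ
  obtain ⟨a, -, ha⟩ := isCompact_univ.ultrafilter_le_nhds (U.map fun n => n • x) (by simp)
  have h1 : Tendsto (fun p : K × K => p.2 - p.1) (𝓝 (a, a)) (𝓝 (a - a)) :=
    (continuous_snd.sub continuous_fst).tendsto (a, a)
  rw [sub_self] at h1
  have h2 := h1 hV
  rw [nhds_prod_eq] at h2
  obtain ⟨O, hO, hO2⟩ := (Filter.mem_prod_same_iff (la := 𝓝 a)).1 h2
  have h3 : ∀ᶠ n in (U : Filter ℕ), n • x ∈ O := ha hO
  obtain ⟨n, hn⟩ := h3.exists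
  have h4 : ∀ᶠ m in (U : Filter ℕ), n < m := Nat.hyperfilter_le_atTop (eventually_gt_atTop n)
  obtain ⟨m, hm, hm2⟩ := (h3.and h4).exists
  refine ⟨m - n, by omega, ?_⟩
  have h5 : m • x - n • x ∈ V := hO2 (Set.mk_mem_prod hn hm)
  have e : (m - n) • x = m • x - n • x := by
    rw [eq_sub_iff_add_eq, ← add_smul, Nat.sub_add_cancel hm2.le]
  rwa [e]

/-- a choice of sides -/
theorem signs {r : ℕ} (α : Fin r → ℝ) : ∃ σ : Fin r → Bool, ∀ δ, 0 < δ → ∃ n : ℕ,
    ∀ s, Near (σ s) (α s) δ n := by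
  classical
  -- a common denominator
  obtain ⟨Q, hQ, hQ2⟩ : ∃ Q : ℕ, 0 < Q ∧ ∀ s, ¬ Irrational (α s) → ∃ m : ℤ, (Q : ℝ) * α s = m := by
    have h1 : ∀ s, ∃ d : ℕ, 0 < d ∧ (¬ Irrational (α s) → ∃ m : ℤ, (d : ℝ) * α s = m) := by
      intro s
      by_cases h : Irrational (α s)
      · exact ⟨1, one_pos, fun h' => absurd h h'⟩
      · unfold Irrational at h
        push Not at h
        obtain ⟨r, hr⟩ := h
        refine ⟨r.den, r.pos, fun _ => ⟨r.num, ?_⟩⟩
        rw [← hr]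
        exact_mod_cast Rat.den_mul_eq_num r
    choose d hd0 hd using h1
    refine ⟨∏ s, d s, Finset.prod_pos fun s _ => hd0 s, fun s hs => ?_⟩
    obtain ⟨m, hm⟩ := hd s hs
    refine ⟨(∏ j ∈ Finset.univ.erase s, (d j : ℤ)) * m, ?_⟩
    rw [← Finset.prod_erase_mul _ _ (Finset.mem_univ s)]
    push_cast
    rw [mul_assoc, hm]
  have h2 : ∀ δ, 0 < δ → ∃ n : ℕ, ∃ σ : Fin r → Bool, ∀ s, Near (σ s) (α s) δ n := by
    intro δ hδ
    have : Fact ((0 : ℝ) < 1) := ⟨one_pos⟩
    let V : Set (Fin r → AddCircle (1 : ℝ)) := Set.pi Set.univ fun _ =>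
      (fun t : ℝ => (t : AddCircle (1 : ℝ))) '' Set.Ioo (-δ) δ
    have hV : V ∈ 𝓝 (0 : Fin r → AddCircle (1 : ℝ)) := by
      refine (isOpen_set_pi Set.finite_univ fun s _ =>
        QuotientAddGroup.isOpenMap_coe _ isOpen_Ioo).mem_nhds fun s _ => ?_
      exact ⟨0, ⟨by linarith, hδ⟩, AddCircle.coe_zero (1 : ℝ)⟩
    obtain ⟨n, hn, hn2⟩ := rec_group (fun s => ((Q * α s : ℝ) : AddCircle (1 : ℝ))) hV
    have h3 : ∀ s, ∃ τ : Bool, Near τ (α s) δ (n * Q) := by
      intro s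
      by_cases hs : Irrational (α s)
      · obtain ⟨x, ⟨hx1, hx2⟩, hx⟩ := hn2 s (Set.mem_univ s)
        obtain ⟨m, hm⟩ := near_of_coe (α := Q * α s) (n := n) (x := x) hx.symm
        have h4 : ((n * Q : ℕ) : ℝ) * α s = m + x := by
          push_cast
          rw [mul_assoc, hm]
        have h5 : x ≠ 0 := by
          rintro rfl
          rw [add_zero] at h4
          have h6 : Irrational (((n * Q : ℕ) : ℝ) * α s) :=
            hs.natCast_mul (Nat.mul_pos hn hQ).ne'
          rw [h4] at h6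
          exact m.not_irrational h6
        rcases lt_or_gt_of_ne h5 with h | h
        · exact ⟨false, m, Or.inr (Or.inr ⟨hs, rfl, by rw [h4]; linarith, by rw [h4]; linarith⟩)⟩
        · exact ⟨true, m, Or.inr (Or.inl ⟨hs, rfl, by rw [h4]; linarith, by rw [h4]; linarith⟩)⟩
      · obtain ⟨m, hm⟩ := hQ2 s hs
        refine ⟨true, n * m, Or.inl ⟨hs, ?_⟩⟩
        push_cast
        rw [mul_assoc, hm]
    choose σ hσ using h3
    exact ⟨_, σ, hσ⟩
  choose n σ hσ using fun k : ℕ => h2 (1 / ((k : ℝ) + 1)) (by positivity)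
  obtain ⟨σ0, h0⟩ := Finite.exists_infinite_fiber σ
  have hinf : (σ ⁻¹' {σ0}).Infinite := Set.infinite_coe_iff.1 h0
  refine ⟨σ0, fun δ hδ => ?_⟩
  obtain ⟨q, hq⟩ := exists_nat_one_div_lt hδ
  obtain ⟨k, hk, hqk⟩ := hinf.exists_gt q
  have hk' : σ k = σ0 := hk
  refine ⟨n k, fun s => Near.mono ?_ (hk' ▸ hσ k s)⟩
  have h4 : 1 / ((k : ℝ) + 1) ≤ 1 / ((q : ℝ) + 1) := by
    have : (q : ℝ) ≤ k := by exact_mod_cast hqk.le
    exact one_div_le_one_div_of_le (by positivity) (by linarith)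
  linarith

/-- finite conjunctions -/
theorem rein_forall {A : Set ℕ} {r : ℕ} {D : Fin r → ℕ → Prop} (h : ∀ s, REIn A (D s)) :
    REIn A fun n => ∀ s, D s n := by
  induction r with
  | zero => exact (REIn.of_re (RE.eq (Computable.const 0) (Computable.const 0))).of_eq fun n =>
      ⟨fun _ s => s.elim0, fun _ => rfl⟩
  | succ r ih =>
    refine ((h 0).and (ih (D := fun s => D s.succ) fun s => h s.succ)).of_eq fun n => ?_
    exact (Fin.forall_fin_succ (P := fun s => D s n)).symm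

/-- **Long blocks coded by several rotations of the circle and a weakly mixing minimal set** -/
theorem multi {A : Set ℕ} {c : ℕ → Fin k} (hc : Computes A (fun n => Part.some (c n).val))
    {M : Set (ℕ → Fin k')} (hM : Minimal M) (hw : WeaklyMixing M) (hWM : Enum A (Words M))
    {r : ℕ} {α : Fin r → ℝ} (h0 : ∀ s, 0 ≤ α s) (hb : ∀ s, Enum A (Below (α s)))
    (ha : ∀ s, Enum A (Above (α s)))
    (h : ∀ L, ∃ n : ℕ, ∃ w ∈ M, ∃ (θ t : Fin r → ℝ) (Φ : Fin k' → (Fin r → Bool) → Fin k),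
      ∀ j < L, c (n + j) = Φ (w j) fun s => decide (Int.fract (θ s + j * α s) < t s)) :
    ∃ X, Solution c X ∧ Computes A (char X) := by
  have : Fact ((0 : ℝ) < 1) := ⟨one_pos⟩
  choose n w hwM θ t Φ hn using h
  obtain ⟨σ, hσ⟩ := signs α
  let U : Ultrafilter ℕ := hyperfilter ℕ
  choose R hRo hRE hRn β hβ using fun s => arc (h0 s) (hb s) (ha s) U
    (fun l => θ l s - n l * α s) (fun l => t l s) (σ s)
  obtain ⟨Φ0, hΦ⟩ := ev_const U Φ
  let a : Fin r → AddCircle (1 : ℝ) := fun s => (α s : AddCircle (1 : ℝ))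
  have hsm : ∀ (p : ℕ) (s : Fin r), (p • a) s = p • (α s : AddCircle (1 : ℝ)) := fun p s => rfl
  refine engine (K := Fin r → AddCircle (1 : ℝ)) (α := a) (R := Set.pi Set.univ R) hc hM hw hWM
    (isOpen_set_pi Set.finite_univ fun s _ => hRo s) ?_ ?_ (fun x => Φ0 x β) ?_
  · rw [mem_closure_iff]
    intro O hO hO0
    have hcont : Continuous fun x : Fin r → ℝ => fun s => (x s : AddCircle (1 : ℝ)) :=
      continuous_pi fun s => (AddCircle.continuous_mk' (1 : ℝ)).comp (continuous_apply s)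
    have h1 : (0 : Fin r → ℝ) ∈ (fun x : Fin r → ℝ => fun s => (x s : AddCircle (1 : ℝ))) ⁻¹' O := by
      have e : (fun s : Fin r => ((0 : Fin r → ℝ) s : AddCircle (1 : ℝ))) = 0 := by
        funext s
        exact AddCircle.coe_zero (1 : ℝ)
      show (fun s : Fin r => ((0 : Fin r → ℝ) s : AddCircle (1 : ℝ))) ∈ O
      rw [e]
      exact hO0
    obtain ⟨ε, hε, hball⟩ := Metric.isOpen_iff.1 (hO.preimage hcont) 0 h1
    choose δ hδ hδR using hRn
    obtain ⟨η, hη, hηδ⟩ : ∃ η, 0 < η ∧ ∀ s, η ≤ δ s := by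
      rcases isEmpty_or_nonempty (Fin r) with he | he
      · exact ⟨1, one_pos, fun s => he.elim s⟩
      · obtain ⟨s0, hs0⟩ := Finite.exists_min δ
        exact ⟨δ s0, hδ s0, hs0⟩
    obtain ⟨p, hp⟩ := hσ (min η ε) (lt_min hη hε)
    have hp2 : ∀ s, ∃ x : ℝ, |x| < ε ∧ p • (α s : AddCircle (1 : ℝ)) = (x : AddCircle (1 : ℝ)) := by
      intro s
      have h2 := min_le_right η ε
      obtain ⟨m, ⟨-, h1⟩ | ⟨-, -, h1, h3⟩ | ⟨-, -, h1, h3⟩⟩ := hp s
      · exact ⟨0, by simpa using hε, coe_of_near (m := m) (by rw [h1, add_zero])⟩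
      · refine ⟨p * α s - m, ?_, coe_of_near (m := m) (by ring)⟩
        rw [abs_lt]
        constructor <;> linarith
      · refine ⟨p * α s - m, ?_, coe_of_near (m := m) (by ring)⟩
        rw [abs_lt]
        constructor <;> linarith
    choose x hx1 hx2 using hp2
    refine ⟨p • a, ?_, fun s _ => ?_, p, rfl⟩
    · have h3 : x ∈ Metric.ball (0 : Fin r → ℝ) ε := by
        rw [Metric.mem_ball, dist_pi_lt_iff hε]
        intro s
        rw [Pi.zero_apply, Real.dist_eq, sub_zero]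
        exact hx1 s
      have h4 : (fun s => (x s : AddCircle (1 : ℝ))) ∈ O := hball h3
      have e : (p • a) = fun s => (x s : AddCircle (1 : ℝ)) := by
        funext s
        rw [hsm, hx2]
      rwa [e]
    · rw [hsm]
      exact hδR s p ((hp s).mono ((min_le_left _ _).trans (hηδ s)))
  · rw [enum_iff]
    refine (rein_forall fun s => enum_iff.1 (hRE s)).of_eq fun p => ?_
    constructor
    · exact fun h s _ => h s
    · exact fun h s => h s (Set.mem_univ s)
  · intro C hCR hC L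
    have h1 : ∀ s, ∀ᶠ l in (U : Filter ℕ), ∀ p : ℕ,
        p • (α s : AddCircle (1 : ℝ)) ∈ (fun v : Fin r → AddCircle (1 : ℝ) => v s) '' C →
        decide (Int.fract (θ l s - n l * α s + p * α s) < t l s) = β s := fun s =>
      hβ s _ (by
        rintro _ ⟨v, hv, rfl⟩
        exact hCR hv s (Set.mem_univ s)) (hC.image (continuous_apply s))
    have h2 : ∀ᶠ l in (U : Filter ℕ), L ≤ l :=
      Nat.hyperfilter_le_atTop (eventually_ge_atTop L)
    obtain ⟨l, ⟨h3, h4⟩, h5⟩ := (((Filter.eventually_all.2 h1).and h2).and hΦ).exists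
    refine ⟨n l, w l, hwM l, fun j hj hjC => ?_⟩
    rw [hn l j (by omega), h5]
    congr 1
    funext s
    rw [← h3 s (n l + j) ⟨_, hjC, rfl⟩]
    congr 3
    push_cast
    ring

end Pool.Agent.U657.HT
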