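import Pool.Agent.R603.HCB.Fin

/-!
Colourings with arbitrarily long blocks of one period, colourings with countable orbit closure.
-/

set_option autoImplicit false

namespace Pool.Agent.U657.HT

open Pool.Agent.R603.HCB Pool.Agent.Y545.HM.St
open Filter Topology

variable {k : ℕ}

/-- The greedy construction. -/
theorem sol_of_rec {A : Set ℕ} {c g : ℕ → Fin k}
    (hc : Computes A (fun n => Part.some (c n).val))
    (hg : Computes A (fun n => Part.some (g n).val))
    (h : Recurrent c g) : ∃ X, Solution c X ∧ Computes A (char X) := by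
  obtain ⟨X, ⟨h1, h2, h3⟩, h5, h6⟩ := Pool.Agent.Y579.ST.t_GREEDY k c g (g 0) A
    (computes_col.1 hc) (computes_col.1 hg) (by
      intro S N hS
      obtain ⟨y, hy0, hy1, hy2⟩ := h (N + S.sup id + 2)
      have h7 : N + S.sup id + 2 ≤ y := (Nat.self_le_factorial _).trans (Nat.le_of_dvd hy0 hy1)
      have h8 := hy2 0 (by omega)
      rw [zero_add] at h8
      refine ⟨y, by omega, h8.1, h8.2, fun s hs => ?_⟩
      have h9 : s ≤ S.sup id := Finset.le_sup (f := id) hs
      have h10 := hy2 s (by omega)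
      rw [h10.1, h10.2]
      exact ⟨(hS s hs).2, (hS s hs).2⟩)
  exact ⟨X, ⟨h1, h2, g 0, h3⟩, computes_set.2 ⟨h5, h6⟩⟩

/-- Periodic sequences are computable. -/
theorem comp_periodic {A : Set ℕ} {g : ℕ → Fin k} {m : ℕ} (hm : 0 < m)
    (hg : ∀ x, g (x + m) = g x) : Computes A (fun n => Part.some (g n).val) := by
  have h1 : ∀ x t, g (x + m * t) = g x := by
    intro x t
    induction t with
    | zero => simp
    | succ t ih => rw [Nat.mul_succ, ← add_assoc, hg, ih]
  let l : List ℕ := (List.range m).map fun i => (g i).val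
  have h2 : ∀ n, (g n).val = (l[n % m]?).getD 0 := by
    intro n
    have h3 : n % m < m := Nat.mod_lt _ hm
    have h4 : g n = g (n % m) := by
      conv_lhs => rw [← Nat.mod_add_div n m]
      exact h1 _ _
    simp [l, h3, h4]
  have h5 : Primrec fun n : ℕ => (l[n % m]?).getD 0 := by
    refine Primrec.option_getD.comp (Primrec.list_getElem?.comp (Primrec.const l) ?_)
      (Primrec.const 0)
    exact Primrec.nat_mod.comp Primrec.id (Primrec.const m)
  have h6 : Computable fun n : ℕ => (g n).val := h5.to_comp.of_eq fun n => (h2 n).symm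
  have h7 : Partrec (fun n => Part.some (g n).val : ℕ →. ℕ) := h6
  exact h7.turingReducible

/-- Long blocks of one period. -/
theorem rec_of_blocks {c : ℕ → Fin k} {m : ℕ} (hm : 0 < m)
    (h : ∀ L, ∃ n, ∀ j < L, c (n + j + m) = c (n + j)) :
    ∃ g : ℕ → Fin k, (∀ x, g (x + m) = g x) ∧ Recurrent c g := by
  let P : (Fin m → Fin k) → ℕ → Prop := fun φ N => ∃ y, 0 < y ∧ N.factorial * m ∣ y ∧
    ∀ x < N, c (x + y) = φ ⟨x % m, Nat.mod_lt _ hm⟩
  have anti : ∀ φ N N', N ≤ N' → P φ N' → P φ N := by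
    rintro φ N N' hN ⟨y, h1, h2, h3⟩
    exact ⟨y, h1, (Nat.mul_dvd_mul_right (Nat.factorial_dvd_factorial hN) m).trans h2,
      fun x hx => h3 x (by omega)⟩
  have ex : ∀ N, ∃ φ, P φ N := by
    intro N
    have hq : 0 < N.factorial * m := Nat.mul_pos (Nat.factorial_pos N) hm
    generalize hqe : N.factorial * m = q at hq
    obtain ⟨n, hn⟩ := h (q + N + m)
    have h1 := Nat.div_add_mod n q
    have h2 := Nat.mod_lt n hq
    have hy1 : n < q * (n / q + 1) := by rw [Nat.mul_succ]; omega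
    have hy2 : q * (n / q + 1) ≤ n + q := by rw [Nat.mul_succ]; omega
    generalize hye : q * (n / q + 1) = y at hy1 hy2
    have per : ∀ r t, r + m * t < N + m → c (r + m * t + y) = c (r + y) := by
      intro r t
      induction t with
      | zero => intro _; rw [Nat.mul_zero, Nat.add_zero]
      | succ t ih =>
        intro ht
        rw [Nat.mul_succ] at ht ⊢
        rw [← ih (by omega)]
        have h3 := hn (r + m * t + y - n) (by omega)
        rw [show n + (r + m * t + y - n) = r + m * t + y by omega] at h3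
        rw [← h3]
        congr 1
        omega
    refine ⟨fun i => c (i.val + y), y, by omega, ?_, fun x hx => ?_⟩
    · rw [hqe, ← hye]; exact Dvd.intro _ rfl
    · have h4 := per (x % m) (x / m) (by rw [Nat.mod_add_div]; omega)
      rw [Nat.mod_add_div] at h4
      exact h4
  have all : ∃ φ, ∀ N, P φ N := by
    by_contra hno
    push Not at hno
    choose N hN using hno
    obtain ⟨φ, hφ⟩ := ex (Finset.univ.sup N)
    exact hN φ (anti φ _ _ (Finset.le_sup (Finset.mem_univ φ)) hφ)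
  obtain ⟨φ, hφ⟩ := all
  have hmod : ∀ x y, m ∣ y → (x + y) % m = x % m := by
    rintro x y ⟨t, rfl⟩
    exact Nat.add_mul_mod_self_left x m t
  refine ⟨fun x => φ ⟨x % m, Nat.mod_lt _ hm⟩, fun x => ?_, fun N => ?_⟩
  · simp only [hmod x m dvd_rfl]
  · obtain ⟨y, h1, h2, h3⟩ := hφ N
    refine ⟨y, h1, (Dvd.intro _ rfl).trans h2, fun x hx => ⟨h3 x hx, ?_⟩⟩
    simp only [hmod x y ((Dvd.intro_left _ rfl).trans h2)]

/-- A regularly recurrent limit. -/
theorem rec_of_regular {c g : ℕ → Fin k} (hg : g ∈ Limits c)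
    (h : ∀ x, ∃ M, 0 < M ∧ ∀ t, g (x + M * t) = g x) : Recurrent c g := by
  choose M hM hM2 using h
  intro N
  obtain ⟨y, h1, h2, h3⟩ := hg (N + ∑ x ∈ Finset.range N, M x)
  refine ⟨y, h1, (Nat.factorial_dvd_factorial (by omega)).trans h2,
    fun x hx => ⟨h3 x (by omega), ?_⟩⟩
  have h4 : M x ≤ ∑ x ∈ Finset.range N, M x :=
    Finset.single_le_sum (f := M) (fun _ _ => Nat.zero_le _) (Finset.mem_range.2 hx)
  obtain ⟨t, rfl⟩ := (Nat.dvd_factorial (hM x) (by omega : M x ≤ N + ∑ x ∈ Finset.range N, M x)).trans h2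
  exact hM2 x t

/-- Countable orbit closures contain periodic points. -/
theorem blocks_of_countable {c : ℕ → Fin k}
    (h : (closure {g : ℕ → Fin k | ∃ n, g = fun x => c (n + x)}).Countable) :
    ∃ m, 0 < m ∧ ∀ L, ∃ n, ∀ j < L, c (n + j + m) = c (n + j) := by
  obtain ⟨g, hg⟩ := exists_recurrent c
  let Q : Set (ℕ → Fin k) := closure {f | ∃ i, f = fun x => g (i + x)}
  have cyl : ∀ (f : ℕ → Fin k) (U : Set (ℕ → Fin k)), IsOpen U → f ∈ U →
      ∃ N, ∀ f' : ℕ → Fin k, (∀ x < N, f' x = f x) → f' ∈ U := by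
    intro f U hU hf
    obtain ⟨V, ⟨y, n, rfl⟩, h1, h2⟩ :=
      (PiNat.isTopologicalBasis_cylinders (fun _ : ℕ => Fin k)).mem_nhds_iff.1 (hU.mem_nhds hf)
    refine ⟨n, fun f' hf' => h2 ?_⟩
    rw [PiNat.mem_cylinder_iff] at h1 ⊢
    intro i hi
    rw [hf' i hi, h1 i hi]
  have hQ : Q ⊆ closure {g : ℕ → Fin k | ∃ n, g = fun x => c (n + x)} := by
    refine closure_minimal ?_ isClosed_closure
    rintro f ⟨i, rfl⟩
    rw [mem_closure_iff]
    intro U hU hf
    obtain ⟨N, hN⟩ := cyl _ U hU hf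
    obtain ⟨y, -, -, hy⟩ := hg (i + N)
    refine ⟨fun x => c (y + i + x), hN _ fun x hx => ?_, y + i, rfl⟩
    rw [← (hy (i + x) (by omega)).1]
    congr 1
    omega
  have hQc : Q.Countable := h.mono hQ
  have hQn : Nonempty Q := ⟨⟨_, subset_closure ⟨0, rfl⟩⟩⟩
  have : Countable Q := hQc.to_subtype
  have : CompactSpace Q := isCompact_iff_compactSpace.1 isClosed_closure.isCompact
  obtain ⟨q, hq⟩ := nonempty_interior_of_iUnion_of_closed (f := fun q : Q => ({q} : Set Q))
    (fun q => isClosed_singleton) (by ext x; simp)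
  have hop : IsOpen ({q} : Set Q) := by
    have h1 : interior ({q} : Set Q) = {q} :=
      Set.Nonempty.subset_singleton_iff hq |>.1 interior_subset
    rw [← h1]
    exact isOpen_interior
  obtain ⟨U, hU, hUq⟩ := isOpen_induced_iff.1 hop
  have hqU : (q : ℕ → Fin k) ∈ U := by
    have h1 : q ∈ Subtype.val ⁻¹' U := by rw [hUq]; exact rfl
    exact h1
  have uni : ∀ f ∈ Q, f ∈ U → f = q := by
    intro f hf hfU
    have h1 : (⟨f, hf⟩ : Q) ∈ Subtype.val ⁻¹' U := hfU
    rw [hUq] at h1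
    exact congrArg Subtype.val h1
  obtain ⟨f, hfU, i, rfl⟩ := mem_closure_iff.1 q.2 U hU hqU
  have e1 := uni _ (subset_closure ⟨i, rfl⟩) hfU
  obtain ⟨N, hN⟩ := cyl _ U hU hfU
  obtain ⟨m, hm, -, hmg⟩ := hg (i + N)
  have e2 : (fun x => g (i + m + x)) = (q : ℕ → Fin k) := by
    refine uni _ (subset_closure ⟨i + m, rfl⟩) (hN _ fun x hx => ?_)
    rw [← (hmg (i + x) (by omega)).2]
    congr 1
    omega
  have e3 : ∀ x, g (i + x + m) = g (i + x) := by
    intro x
    have h1 : g (i + m + x) = g (i + x) := congrFun (e2.trans e1.symm) x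
    rw [← h1]
    congr 1
    omega
  refine ⟨m, hm, fun L => ?_⟩
  obtain ⟨z, -, -, hz⟩ := hg (i + L + m)
  refine ⟨z + i, fun j hj => ?_⟩
  have h1 := (hz (i + j + m) (by omega)).1
  have h2 := (hz (i + j) (by omega)).1
  rw [show z + i + j + m = i + j + m + z by omega, show z + i + j = i + j + z by omega, h1, h2]
  exact e3 j

/-- the blocks of one period are the approximations of a periodic point of the orbit closure -/
theorem blocks_iff {c : ℕ → Fin k} :
    (∃ m, 0 < m ∧ ∀ L, ∃ n, ∀ j < L, c (n + j + m) = c (n + j)) ↔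
    ∃ g ∈ closure {g : ℕ → Fin k | ∃ n, g = fun x => c (n + x)}, ∃ m, 0 < m ∧
      ∀ x, g (x + m) = g x := by
  have cyl : ∀ (f : ℕ → Fin k) (U : Set (ℕ → Fin k)), IsOpen U → f ∈ U →
      ∃ N, ∀ f' : ℕ → Fin k, (∀ x < N, f' x = f x) → f' ∈ U := by
    intro f U hU hf
    obtain ⟨V, ⟨y, n, rfl⟩, h1, h2⟩ :=
      (PiNat.isTopologicalBasis_cylinders (fun _ : ℕ => Fin k)).mem_nhds_iff.1 (hU.mem_nhds hf)
    refine ⟨n, fun f' hf' => h2 ?_⟩
    rw [PiNat.mem_cylinder_iff] at h1 ⊢
    intro i hi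
    rw [hf' i hi, h1 i hi]
  constructor
  · rintro ⟨m, hm, h⟩
    obtain ⟨g, hg, hr⟩ := rec_of_blocks hm h
    refine ⟨g, ?_, m, hm, hg⟩
    rw [mem_closure_iff]
    intro U hU hf
    obtain ⟨N, hN⟩ := cyl _ U hU hf
    obtain ⟨y, -, -, hy⟩ := hr N
    refine ⟨fun x => c (y + x), hN _ fun x hx => ?_, y, rfl⟩
    rw [← (hy x hx).1, add_comm]
  · rintro ⟨g, hg, m, hm, hp⟩
    refine ⟨m, hm, fun L => ?_⟩
    obtain ⟨f, hf, n, rfl⟩ := mem_closure_iff.1 hg (PiNat.cylinder g (L + m))
      (PiNat.isOpen_cylinder _ g _) (PiNat.self_mem_cylinder g _)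
    rw [PiNat.mem_cylinder_iff] at hf
    refine ⟨n, fun j hj => ?_⟩
    have h1 : c (n + (j + m)) = g (j + m) := hf (j + m) (by omega)
    have h2 : c (n + j) = g j := hf j (by omega)
    rw [add_assoc, h1, h2, hp]

/-- Comeagrely many colourings have long constant blocks. -/
theorem generic_blocks (hk : 0 < k) : ∀ᶠ c in residual (ℕ → Fin k),
    ∃ m, 0 < m ∧ ∀ L, ∃ n, ∀ j < L, c (n + j + m) = c (n + j) := by
  have h1 : ∀ L : ℕ, ∀ᶠ c in residual (ℕ → Fin k), ∃ n, ∀ j < L, c (n + j + 1) = c (n + j) := by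
    intro L
    have hop : IsOpen {c : ℕ → Fin k | ∃ n, ∀ j < L, c (n + j + 1) = c (n + j)} := by
      have e : {c : ℕ → Fin k | ∃ n, ∀ j < L, c (n + j + 1) = c (n + j)} =
          ⋃ n, ⋂ j ∈ Finset.range L, {c | c (n + j + 1) = c (n + j)} := by
        ext c; simp
      rw [e]
      refine isOpen_iUnion fun n => isOpen_biInter_finset fun j _ => ?_
      have h2 : Continuous fun c : ℕ → Fin k => (c (n + j + 1), c (n + j)) :=
        (continuous_apply _).prodMk (continuous_apply _)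
      exact (isOpen_discrete {p : Fin k × Fin k | p.1 = p.2}).preimage h2
    have hd : Dense {c : ℕ → Fin k | ∃ n, ∀ j < L, c (n + j + 1) = c (n + j)} := by
      rw [(PiNat.isTopologicalBasis_cylinders (fun _ : ℕ => Fin k)).dense_iff]
      rintro _ ⟨f, n, rfl⟩ -
      refine ⟨fun x => if x < n then f x else ⟨0, hk⟩, ?_, n, fun j _ => ?_⟩
      · rw [PiNat.mem_cylinder_iff]
        intro i hi
        rw [if_pos hi]
      · have h3 : ¬ (n + j + 1 < n) := by omega
        have h4 : ¬ (n + j < n) := by omega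
        simp only [if_neg h3, if_neg h4]
    exact residual_of_dense_open hop hd
  filter_upwards [eventually_countable_forall.2 h1] with c hc
  exact ⟨1, one_pos, hc⟩

end Pool.Agent.U657.HT
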