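import Pool.Agent.U657.HT.Dep
import Pool.Agent.U657.HT.Per

/-!
A construction of solutions of Hindman's theorem, and visits of rotations of a compact group.
-/

set_option autoImplicit false

namespace Pool.Agent.U657.HT

open Encodable Pool.Agent.Helper446 Pool.Agent.Helper446.Oracle
open Pool.Agent.Y545.HM Pool.Agent.Y545.HM.St
open Filter Topology

variable {k : ℕ}

/-- The construction of a sequence all of whose sums have the same colour. -/
theorem core' {A : Set ℕ} {c : ℕ → Fin k} (hc : Gr A c) (i : Fin k) {G : List ℕ → Prop}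
    (hG : REIn A G) (hG0 : G [0])
    (h : ∀ l, 0 ∈ l → G l → ∀ N, ∃ y, N ≤ y ∧ G (l ++ l.map (fun s => s + y)) ∧
      ∀ s ∈ l, c (s + y) = i) :
    ∃ y : ℕ → ℕ, Gr A y ∧ StrictMono y ∧ 0 < y 0 ∧
      ∀ F : Finset ℕ, F.Nonempty → c (∑ n ∈ F, y n) = i := by
  let S : ℕ × List ℕ → Prop := fun p => 0 ∈ p.2 ∧ G p.2
  let R : ℕ × List ℕ → ℕ × List ℕ → Prop := fun p q => p.1 < q.1 ∧
    q.2 = p.2 ++ p.2.map (fun s => s + q.1) ∧ ∀ s ∈ p.2, c (s + q.1) = i
  have hS : REIn A S := by
    refine REIn.and (REIn.of_re (RE.mem_list (by fun_prop) (by fun_prop))) ?_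
    exact hG.comp (f := fun x : ℕ × List ℕ => x.2) (by fun_prop)
  have hR : REIn A fun x : (ℕ × List ℕ) × (ℕ × List ℕ) => R x.1 x.2 := by
    refine REIn.and (REIn.of_re (RE.lt (by fun_prop) (by fun_prop))) (REIn.and ?_ ?_)
    · refine REIn.of_re (RE.eq (by fun_prop) ?_)
      have hmap : Primrec fun x : (ℕ × List ℕ) × (ℕ × List ℕ) =>
          x.1.2 ++ x.1.2.map (fun s => s + x.2.1) := by
        refine Primrec.list_append.comp (Primrec.snd.comp Primrec.fst) ?_
        refine Primrec.list_map (Primrec.snd.comp Primrec.fst) ?_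
        exact Primrec.nat_add.comp Primrec.snd
          ((Primrec.fst.comp Primrec.snd).comp Primrec.fst)
      exact hmap.to_comp
    · refine REIn.all_mem (S := fun (x : (ℕ × List ℕ) × (ℕ × List ℕ)) (s : ℕ) =>
        c (s + x.2.1) = i) (l := fun x => x.1.2) ?_ (by fun_prop)
      exact REIn.comp hc (f := fun y : ((ℕ × List ℕ) × (ℕ × List ℕ)) × ℕ =>
        (y.2 + y.1.2.1, i)) (by fun_prop)
  obtain ⟨s, hs, hs0, hs1⟩ := exists_seq hR hS (a0 := (0, [0])) ⟨by simp, hG0⟩ (by
    rintro p ⟨hp0, hp⟩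
    obtain ⟨y, hy, h1, h2⟩ := h p.2 hp0 hp (p.1 + 1)
    exact ⟨(y, p.2 ++ p.2.map (fun s => s + y)), ⟨List.mem_append_left _ hp0, h1⟩, hy, rfl, h2⟩)
  have key : ∀ n, ∀ F : Finset ℕ, (∀ j ∈ F, j < n) → ∑ j ∈ F, (s (j + 1)).1 ∈ (s n).2 ∧
      (F.Nonempty → c (∑ j ∈ F, (s (j + 1)).1) = i) := by
    intro n
    induction n with
    | zero =>
      intro F hF
      have h1 : F = ∅ := Finset.eq_empty_of_forall_notMem fun j hj => absurd (hF j hj) (by omega)
      subst h1
      rw [hs0]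
      simp
    | succ n ih =>
      intro F hF
      obtain ⟨-, h2, h3⟩ := (hs1 n).2
      by_cases hn : n ∈ F
      · obtain ⟨h4, -⟩ := ih (F.erase n) fun j hj => by
          have h5 := hF j (Finset.mem_of_mem_erase hj)
          have h6 := Finset.ne_of_mem_erase hj
          omega
        rw [← Finset.sum_erase_add F _ hn]
        refine ⟨?_, fun _ => h3 _ h4⟩
        rw [h2]
        exact List.mem_append_right _ (List.mem_map.2 ⟨_, h4, rfl⟩)
      · obtain ⟨h4, h5⟩ := ih F fun j hj => by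
          have h6 := hF j hj
          have h7 : j ≠ n := fun h => hn (h ▸ hj)
          omega
        refine ⟨?_, h5⟩
        rw [h2]
        exact List.mem_append_left _ h4
  refine ⟨fun n => (s (n + 1)).1, ?_, strictMono_nat_of_lt_succ fun n => (hs1 (n + 1)).2.1, ?_,
    fun F hF => ?_⟩
  · exact Gr.post (g := fun p : ℕ × List ℕ => p.1) (by fun_prop)
      (hs.pre (g := fun n : ℕ => n + 1) (by fun_prop))
  · have := (hs1 0).2.1
    show 0 < (s (0 + 1)).1
    omega
  · exact (key (F.sup id + 1) F fun j hj => Nat.lt_succ_of_le (Finset.le_sup (f := id) hj)).2 hF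

section group

variable {K : Type} [AddCommGroup K] [TopologicalSpace K] [IsTopologicalAddGroup K] [CompactSpace K]

/-- visits of a rotation -/
theorem rot_gap {α : K} (hd : DenseRange fun n : ℤ => n • α) {W : Set K} (hW : IsOpen W)
    (hne : W.Nonempty) : ∃ G : ℕ, ∀ z : K, ∃ j < G, z + j • α ∈ W := by
  have hcov : (Set.univ : Set K) ⊆ ⋃ m : ℤ, {z | z + m • α ∈ W} := by
    intro z _
    obtain ⟨w, hw⟩ := hne
    have h1 : IsOpen {v : K | z + v ∈ W} := hW.preimage (continuous_const_add z)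
    obtain ⟨m, hm⟩ := hd.exists_mem_open h1 ⟨w - z, by simpa using hw⟩
    exact Set.mem_iUnion.2 ⟨m, hm⟩
  obtain ⟨t, ht⟩ := isCompact_univ.elim_finite_subcover (fun m : ℤ => {z : K | z + m • α ∈ W})
    (fun m => hW.preimage (continuous_add_const _)) hcov
  let B : ℕ := t.sup Int.natAbs
  refine ⟨2 * B + 1, fun z => ?_⟩
  have h1 := ht (Set.mem_univ (z + (B : ℤ) • α))
  simp only [Set.mem_iUnion] at h1
  obtain ⟨m, hm, h2⟩ := h1
  have h3 : m.natAbs ≤ B := Finset.le_sup (f := Int.natAbs) hm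
  have h4 : 0 ≤ (B : ℤ) + m := by omega
  refine ⟨((B : ℤ) + m).toNat, by omega, ?_⟩
  have h5 : z + (B : ℤ) • α + m • α ∈ W := h2
  rw [add_assoc, ← add_smul] at h5
  rw [← natCast_zsmul, Int.toNat_of_nonneg h4]
  exact h5

end group

end Pool.Agent.U657.HT
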