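import Pool.Agent.U657.HT.WM
import Pool.Agent.U657.HT.Rot

/-!
Colourings with long blocks which are coded by a weakly mixing minimal set and a rotation of a
compact group.
-/

set_option autoImplicit false

namespace Pool.Agent.U657.HT

open Encodable Pool.Agent.Helper446 Pool.Agent.Helper446.Oracle
open Pool.Agent.Y545.HM Pool.Agent.Y545.HM.St
open Filter Topology

variable {k k' : ℕ}

/-- hitting times contain long intervals, with bounded gaps -/
theorem thick' {M : Set (ℕ → Fin k)} (hM : Minimal M) (hw : WeaklyMixing M) {u v : ℕ → Fin k}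
    (hu : u ∈ M) (hv : v ∈ M) (N G : ℕ) : ∃ H, ∀ n, ∃ j < H, ∀ i < G, Nn M u v N (n + j + i) := by
  have hz : ∀ i, ∃ z ∈ M, ∀ x < N, z (i + x) = v x := by
    intro i
    obtain ⟨q, hq⟩ := oc_iff.1 (hM.dense _ (hM.shifts hv i) hv) N
    refine ⟨_, hM.shifts hv q, fun x hx => ?_⟩
    rw [← hq x hx]
    show v (q + (i + x)) = v (i + (q + x))
    congr 1
    omega
  choose z hz1 hz2 using hz
  obtain ⟨a, ha, b, hb, L, hL⟩ := inter_many hM hw (fun _ => u) z (fun _ => hu) hz1
    (fun i => N + i) G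
  obtain ⟨H, hH⟩ := hM.gap hb L
  refine ⟨H, fun n => ?_⟩
  obtain ⟨j, hj, hj2⟩ := hH _ (hM.shifts ha n)
  refine ⟨j, hj, fun i hi => ?_⟩
  obtain ⟨h, hh, e1, e2⟩ := hL (n + j) ⟨a, ha, fun _ _ => rfl, fun x hx => by
    have := hj2 x hx
    rw [← this]
    show a (n + j + x) = a (n + (j + x))
    rw [add_assoc]⟩ i hi
  refine ⟨h, hh, fun x hx => e1 x (by omega), fun x hx => ?_⟩
  rw [show n + j + i + x = n + j + (i + x) by omega, e2 (i + x) (by omega), hz2 i x hx]

section group

variable {K : Type} [AddCommGroup K] [TopologicalSpace K] [IsTopologicalAddGroup K] [CompactSpace K]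

/-- Weakly mixing minimal sets are disjoint from rotations: joint visits with bounded gaps. -/
theorem joint_gap {M : Set (ℕ → Fin k)} (hM : Minimal M) (hw : WeaklyMixing M) {g : ℕ → Fin k}
    (hg : g ∈ M) (N : ℕ) {α : K} (hd : DenseRange fun n : ℤ => n • α) {W : Set K} (hW : IsOpen W)
    (hne : W.Nonempty) :
    ∃ G, ∀ h ∈ M, ∀ ψ : K, ∃ j < G, (∀ x < N, h (j + x) = g x) ∧ ψ + j • α ∈ W := by
  obtain ⟨w, hwW⟩ := hne
  obtain ⟨W', W0, hW', hW0, hwW', h0W0, hsub⟩ :=
    isOpen_prod_iff.1 (hW.preimage continuous_add) w 0 (by simpa using hwW)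
  have hadd : ∀ a ∈ W', ∀ b ∈ W0, a + b ∈ W := fun a ha b hb => hsub (Set.mk_mem_prod ha hb)
  obtain ⟨G1, hG1⟩ := rot_gap hd hW' ⟨w, hwW'⟩
  have key : ∀ r : ℕ, ∃ g' ∈ M, ∃ N', N ≤ N' ∧ ∃ d : ℕ → ℕ, ∀ i < r, d i + N ≤ N' ∧
      (∀ x < N, g' (d i + x) = g x) ∧ d i • α - i • α ∈ W0 := by
    intro r
    induction r with
    | zero => exact ⟨g, hg, N, le_rfl, fun _ => 0, fun i hi => absurd hi (by omega)⟩
    | succ r ih =>
      obtain ⟨g', hg', N', hN', d, hd'⟩ := ih
      have hWr : IsOpen {z : K | z - r • α ∈ W0} := hW0.preimage (continuous_sub_right _)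
      obtain ⟨G2, hG2⟩ := rot_gap hd hWr ⟨r • α, by simpa using h0W0⟩
      obtain ⟨H, hH⟩ := thick' hM hw hg' hg N' G2
      obtain ⟨j, hj, hj2⟩ := hH 0
      obtain ⟨i, hi, hi2⟩ := hG2 (j • α)
      obtain ⟨h, hh, e1, e2⟩ := hj2 i hi
      refine ⟨h, hh, max N' (j + i + N), by omega, fun t => if t = r then j + i else d t,
        fun t ht => ?_⟩
      by_cases htr : t = r
      · subst htr
        simp only [if_true]
        refine ⟨by omega, fun x hx => ?_, ?_⟩
        · rw [← e2 x (by omega)]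
          congr 1
          omega
        · rw [add_smul]
          exact hi2
      · simp only [if_neg htr]
        obtain ⟨h1, h2, h3⟩ := hd' t (by omega)
        refine ⟨by omega, fun x hx => ?_, h3⟩
        rw [e1 _ (by omega)]
        exact h2 x hx
  obtain ⟨g', hg', N', hN', d, hd'⟩ := key G1
  obtain ⟨G3, hG3⟩ := hM.gap hg' N'
  refine ⟨G3 + N' + 1, fun h hh ψ => ?_⟩
  obtain ⟨j, hj, hj2⟩ := hG3 h hh
  obtain ⟨i, hi, hi2⟩ := hG1 (ψ + j • α)
  obtain ⟨h1, h2, h3⟩ := hd' i hi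
  refine ⟨j + d i, by omega, fun x hx => ?_, ?_⟩
  · rw [add_assoc, hj2 (d i + x) (by omega)]
    exact h2 x hx
  · have h4 := hadd _ hi2 _ h3
    have e : ψ + (j + d i) • α = ψ + j • α + i • α + (d i • α - i • α) := by
      rw [add_smul]
      abel
    rw [e]
    exact h4

/-- colourings which are coded by a weakly mixing minimal set on a part of the returns of a rotation
in long intervals -/
theorem sol_of_prod {A : Set ℕ} {c : ℕ → Fin k} (hc : Computes A (fun n => Part.some (c n).val))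
    {M : Set (ℕ → Fin k')} (hM : Minimal M) (hw : WeaklyMixing M) (hWM : Enum A (Words M))
    {α : K} (hd : DenseRange fun n : ℤ => n • α) {R : Set K} (hR : IsOpen R)
    (h0 : (0 : K) ∈ closure R) (hE : Enum A {n : ℕ | n • α ∈ R}) (f : Fin k' → Fin k)
    (h : ∀ C ⊆ R, IsCompact C → ∀ L, ∃ n, ∃ w ∈ M, ∀ j < L, (n + j) • α ∈ C →
      c (n + j) = f (w j)) :
    ∃ X, Solution c X ∧ Computes A (char X) := by
  classical
  obtain ⟨g0, hg0⟩ := hM.nonempty
  generalize hi0 : f (g0 0) = i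
  let P : List ℕ := ((List.finRange k').filter fun a => f a = i).map fun a => a.val
  have hP : ∀ n, n ∈ P ↔ ∃ a : Fin k', f a = i ∧ a.val = n := by
    intro n
    simp [P]
  let Q : List ℕ → Prop := fun l => ∃ w : List ℕ, encode w ∈ Words M ∧ ∀ s ∈ l, w.getD s k' ∈ P
  have hQiff : ∀ l, Q l ↔ ∃ g ∈ M, ∀ s ∈ l, f (g s) = i := by
    intro l
    constructor
    · rintro ⟨w, ⟨g, hg, L, hL⟩, hw⟩
      have hw' : w = (List.range L).map fun x => (g x).val := encode_injective hL
      subst hw'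
      refine ⟨g, hg, fun s hs => ?_⟩
      obtain ⟨a, ha, ha2⟩ := (hP _).1 (hw s hs)
      rw [List.getD_eq_getElem?_getD, List.getElem?_map] at ha2
      rcases lt_or_ge s L with h2 | h2
      · rw [List.getElem?_range h2] at ha2
        have h3 : a = g s := Fin.ext ha2
        rw [← h3]
        exact ha
      · rw [List.getElem?_eq_none (by simpa using h2)] at ha2
        have h3 : a.val = k' := ha2
        have := a.isLt
        omega
    · rintro ⟨g, hg, hs⟩
      refine ⟨(List.range (l.sum + 1)).map fun x => (g x).val, ⟨g, hg, _, rfl⟩, fun s hsm => ?_⟩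
      have h1 : s < l.sum + 1 := Nat.lt_succ_of_le (List.le_sum_of_mem hsm)
      rw [List.getD_eq_getElem?_getD, List.getElem?_map, List.getElem?_range h1]
      exact (hP _).2 ⟨g s, hs s hsm, rfl⟩
  have hQ : REIn A Q := by
    refine REIn.ex (S := fun (l : List ℕ) (w : List ℕ) => encode w ∈ Words M ∧
      ∀ s ∈ l, w.getD s k' ∈ P) (REIn.and ?_ ?_)
    · exact (enum_iff.1 hWM).comp (f := fun x : List ℕ × List ℕ => encode x.2)
        (Computable.encode.comp (by fun_prop))
    · refine REIn.all_mem (S := fun (x : List ℕ × List ℕ) (s : ℕ) => x.2.getD s k' ∈ P)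
        (l := fun x => x.1) ?_ (by fun_prop)
      refine REIn.of_re (RE.mem_list ?_ (Computable.const P))
      have h1 : Primrec fun y : (List ℕ × List ℕ) × ℕ => y.1.2.getD y.2 k' :=
        (Primrec.list_getD k').comp (Primrec.snd.comp Primrec.fst) Primrec.snd
      exact h1.to_comp
  obtain ⟨y, hy, hmono, hy0, hF⟩ := core' (computes_col.1 hc) i
    (G := fun l => (∀ s ∈ l, s = 0 ∨ s • α ∈ R) ∧ Q l) (by
      refine REIn.and ?_ hQ
      refine REIn.all_mem (S := fun (_ : List ℕ) (s : ℕ) => s = 0 ∨ s • α ∈ R) (l := fun l => l)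
        ?_ (by fun_prop)
      refine REIn.or (REIn.of_re (RE.eq (by fun_prop) (by fun_prop))) ?_
      exact (enum_iff.1 hE).comp (f := fun x : List ℕ × ℕ => x.2) (by fun_prop))
    ⟨by simp, (hQiff _).2 ⟨g0, hg0, by simpa using hi0⟩⟩ (by
    rintro l hl0 ⟨hl, hlQ⟩ N
    obtain ⟨g, hg, hgl⟩ := (hQiff l).1 hlQ
    let V : Set K := ⋂ s ∈ l.toFinset, {v | s ≠ 0 → s • α + v ∈ R}
    have hV : IsOpen V := by
      refine isOpen_biInter_finset fun s _ => ?_
      by_cases hs : s = 0
      · simp [hs]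
      · have e : {v : K | s ≠ 0 → s • α + v ∈ R} = {v | s • α + v ∈ R} := by
          ext v; simp [hs]
        rw [e]
        exact hR.preimage (continuous_const_add _)
    have hV0 : (0 : K) ∈ V := by
      simp only [V, Set.mem_iInter, Set.mem_ofPred_eq]
      intro s hs hs0
      rw [add_zero]
      exact (hl s (List.mem_toFinset.1 hs)).resolve_left hs0
    obtain ⟨v0, hv0⟩ := mem_closure_iff.1 h0 V hV hV0
    obtain ⟨W, ⟨hWo, hWv⟩, hWc⟩ : ∃ W, (IsOpen W ∧ v0 ∈ W) ∧ closure W ⊆ V ∩ R := by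
      obtain ⟨D, hD, hDc, hDs⟩ := exists_mem_nhds_isClosed_subset ((hV.inter hR).mem_nhds hv0)
      obtain ⟨W, hWD, hWo, hWv⟩ := mem_nhds_iff.1 hD
      exact ⟨W, ⟨hWo, hWv⟩, (closure_minimal hWD hDc).trans hDs⟩
    let B : ℕ := l.sum + 1
    obtain ⟨G, hG⟩ := joint_gap hM hw hg B hd hWo ⟨v0, hWv⟩
    obtain ⟨H, hH⟩ := thick' hM hw hg hg B G
    let C : Set K := ⋃ s ∈ l.toFinset, (fun v => s • α + v) '' closure W
    have hC : IsCompact C := by
      refine l.toFinset.isCompact_biUnion fun s _ => ?_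
      exact (isClosed_closure.isCompact).image (continuous_const_add _)
    have hCR : C ⊆ R := by
      intro x hx
      simp only [C, Set.mem_iUnion] at hx
      obtain ⟨s, hs, v, hv, rfl⟩ := hx
      obtain ⟨h1, h2⟩ := hWc hv
      simp only [V, Set.mem_iInter, Set.mem_ofPred_eq] at h1
      by_cases hs0 : s = 0
      · simpa [hs0] using h2
      · exact h1 s hs hs0
    obtain ⟨n, w, hwM, hn⟩ := h C hCR hC (N + H + G + B)
    obtain ⟨j, hj, hj2⟩ := hH (n + N)
    obtain ⟨i', hi', hi2, hjW⟩ := hG _ (hM.shifts hwM (N + j)) ((n + N + j) • α)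
    obtain ⟨g', hg', e1, e2⟩ := hj2 i' hi'
    have hyW : (n + N + j + i') • α ∈ closure W := by
      rw [add_smul (n + N + j) i']
      exact subset_closure hjW
    have hsC : ∀ s ∈ l, (s + (n + N + j + i')) • α ∈ C := by
      intro s hs
      simp only [C, Set.mem_iUnion]
      exact ⟨s, List.mem_toFinset.2 hs, _, hyW, (add_smul _ _ _).symm⟩
    have hsB : ∀ s ∈ l, s < B := fun s hs => Nat.lt_succ_of_le (List.le_sum_of_mem hs)
    refine ⟨n + N + j + i', by omega, ⟨fun s hs => ?_, (hQiff _).2 ⟨g', hg', fun s hs => ?_⟩⟩,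
      fun s hs => ?_⟩
    · rcases List.mem_append.1 hs with hs | hs
      · exact hl s hs
      · obtain ⟨t, ht, rfl⟩ := List.mem_map.1 hs
        exact Or.inr (hCR (hsC t ht))
    · rcases List.mem_append.1 hs with hs | hs
      · rw [e1 s (hsB s hs)]
        exact hgl s hs
      · obtain ⟨t, ht, rfl⟩ := List.mem_map.1 hs
        show f (g' (t + (n + N + j + i'))) = i
        rw [add_comm t, e2 t (hsB t ht)]
        exact hgl t ht
    · have h1 := hsC s hs
      have h2 := hsB s hs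
      have e : s + (n + N + j + i') = n + (N + j + i' + s) := by omega
      rw [e] at h1 ⊢
      rw [hn (N + j + i' + s) (by omega) h1, ← hgl s hs]
      congr 1
      have h3 : w (N + j + (i' + s)) = g s := hi2 s h2
      rw [← h3]
      congr 1
      omega)
  exact sol_of_seq (c := c) (m := 1) one_pos hy hmono hy0 (fun F hF' => by
    rw [one_mul]; exact hF F hF')

/-- colourings with long blocks coded by a weakly mixing minimal set and a rotation -/
theorem sol_of_coded {A : Set ℕ} {c : ℕ → Fin k} (hc : Computes A (fun n => Part.some (c n).val))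
    {M : Set (ℕ → Fin k')} (hM : Minimal M) (hw : WeaklyMixing M) (hWM : Enum A (Words M))
    {α : K} (hd : DenseRange fun n : ℤ => n • α) {U : Fin k' → Fin k → Set K}
    (hf : ∀ θ, ∃ R : Set K, IsOpen R ∧ (0 : K) ∈ closure R ∧ Enum A {n : ℕ | n • α ∈ R} ∧
      ∀ a, ∃ i, ∀ v ∈ R, θ + v ∈ U a i)
    (h : ∀ L, ∃ n, ∃ w ∈ M, ∃ θ, ∀ j < L, ∀ i, θ + j • α ∈ U (w j) i → c (n + j) = i) :
    ∃ X, Solution c X ∧ Computes A (char X) := by
  choose n w hwM θ hn using h
  let Uf : Ultrafilter ℕ := hyperfilter ℕ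
  obtain ⟨φ, -, hφ⟩ := isCompact_univ.ultrafilter_le_nhds (Uf.map fun L => θ L - n L • α)
    (by simp)
  obtain ⟨R, hR, h0, hE, hi⟩ := hf φ
  choose f hi using hi
  refine sol_of_prod hc hM hw hWM hd hR h0 hE f fun C hCR hC L => ?_
  -- a neighbourhood of the limit phase
  have h1 : ∀ᶠ ψ in 𝓝 φ, ∀ v ∈ C, ψ - φ + v ∈ R := by
    refine hC.eventually_forall_of_forall_eventually fun v hv => ?_
    have h2 : Continuous fun p : K × K => p.1 - φ + p.2 := by fun_prop
    have h3 : IsOpen ((fun p : K × K => p.1 - φ + p.2) ⁻¹' R) := hR.preimage h2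
    have h4 : (φ, v) ∈ (fun p : K × K => p.1 - φ + p.2) ⁻¹' R := by
      simpa using hCR hv
    exact h3.mem_nhds h4
  have h2 : ∀ᶠ l in (Uf : Filter ℕ), ∀ v ∈ C, θ l - n l • α - φ + v ∈ R := hφ h1
  have h3 : ∀ᶠ l in (Uf : Filter ℕ), L ≤ l :=
    Nat.hyperfilter_le_atTop (eventually_ge_atTop L)
  obtain ⟨l, hl, hl2⟩ := (h2.and h3).exists
  refine ⟨n l, w l, hwM l, fun j hj hjC => ?_⟩
  refine hn l j (by omega) _ ?_
  have h5 := hi (w l j) _ (hl _ hjC)
  have e : φ + (θ l - n l • α - φ + (n l + j) • α) = θ l + j • α := by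
    rw [add_smul]
    abel
  rwa [e] at h5

end group

end Pool.Agent.U657.HT
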