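import Pool.Agent.U657.HT.Dep
import Pool.Agent.U657.HT.Per

/-!
Weakly mixing minimal sets.
-/

set_option autoImplicit false

namespace Pool.Agent.U657.HT

open Encodable Pool.Agent.Helper446 Pool.Agent.Helper446.Oracle
open Pool.Agent.Y545.HM Pool.Agent.Y545.HM.St

variable {k : ℕ}

/-- The orbit closure of a colouring under the shift, in the product topology. -/
def OrbitClosure (c : ℕ → Fin k) : Set (ℕ → Fin k) := closure {g | ∃ n, g = fun x => c (n + x)}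

/-- `M` is a minimal set of the shift. -/
structure Minimal (M : Set (ℕ → Fin k)) : Prop where
  nonempty : M.Nonempty
  closed : IsClosed M
  shift : ∀ g ∈ M, (fun x => g (1 + x)) ∈ M
  dense : ∀ g ∈ M, M ⊆ OrbitClosure g

/-- The shift on `M` is weakly mixing: its square is topologically transitive. -/
def WeaklyMixing (M : Set (ℕ → Fin k)) : Prop :=
  ∀ U₁ V₁ U₂ V₂ : Set (ℕ → Fin k), IsOpen U₁ → IsOpen V₁ → IsOpen U₂ → IsOpen V₂ →
    (M ∩ U₁).Nonempty → (M ∩ V₁).Nonempty → (M ∩ U₂).Nonempty → (M ∩ V₂).Nonempty →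
    ∃ n, (∃ g ∈ M ∩ U₁, (fun x => g (n + x)) ∈ V₁) ∧ ∃ g ∈ M ∩ U₂, (fun x => g (n + x)) ∈ V₂

theorem oc_iff {c g : ℕ → Fin k} :
    g ∈ OrbitClosure c ↔ ∀ L, ∃ n, ∀ x < L, c (n + x) = g x := by
  unfold OrbitClosure
  constructor
  · intro h L
    obtain ⟨f, hf, n, rfl⟩ := mem_closure_iff.1 h (PiNat.cylinder g L)
      (PiNat.isOpen_cylinder _ g _) (PiNat.self_mem_cylinder g _)
    rw [PiNat.mem_cylinder_iff] at hf
    exact ⟨n, hf⟩
  · intro h
    rw [mem_closure_iff]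
    intro U hU hg
    obtain ⟨V, ⟨y, n, rfl⟩, h1, h2⟩ :=
      (PiNat.isTopologicalBasis_cylinders (fun _ : ℕ => Fin k)).mem_nhds_iff.1 (hU.mem_nhds hg)
    obtain ⟨p, hp⟩ := h n
    refine ⟨fun x => c (p + x), h2 ?_, p, rfl⟩
    rw [PiNat.mem_cylinder_iff] at h1 ⊢
    intro i hi
    rw [hp i hi, h1 i hi]

theorem Minimal.shifts {M : Set (ℕ → Fin k)} (hM : Minimal M) {g : ℕ → Fin k} (hg : g ∈ M) (n : ℕ) :
    (fun x => g (n + x)) ∈ M := by
  induction n with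
  | zero => simpa using hg
  | succ n ih =>
    have h1 := hM.shift _ ih
    have h2 : (fun x => g (n + (1 + x))) = fun x => g (n + 1 + x) := by
      funext x
      rw [add_assoc]
    rwa [← h2]

/-- uniform gaps -/
theorem Minimal.gap {M : Set (ℕ → Fin k)} (hM : Minimal M) {g : ℕ → Fin k} (hg : g ∈ M) (L : ℕ) :
    ∃ G, ∀ h ∈ M, ∃ j < G, ∀ x < L, h (j + x) = g x := by
  have hc : IsCompact M := hM.closed.isCompact
  obtain ⟨G, hG⟩ := hc.elim_directed_cover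
    (fun G : ℕ => {h : ℕ → Fin k | ∃ j < G, ∀ x < L, h (j + x) = g x}) (fun G => by
      have e : {h : ℕ → Fin k | ∃ j < G, ∀ x < L, h (j + x) = g x} =
          ⋃ j ∈ Finset.range G, ⋂ x ∈ Finset.range L, {h | h (j + x) = g x} := by
        ext h; simp
      rw [e]
      refine isOpen_biUnion fun j _ => isOpen_biInter_finset fun x _ => ?_
      have h2 : Continuous fun h : ℕ → Fin k => h (j + x) := continuous_apply _
      exact (isOpen_discrete {p : Fin k | p = g x}).preimage h2) (fun h hh => by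
      obtain ⟨n, hn⟩ := oc_iff.1 (hM.dense h hh hg) L
      exact Set.mem_iUnion.2 ⟨n + 1, n, Nat.lt_succ_self n, hn⟩) (by
      refine directed_of_isDirected_le fun G G' hGG h => ?_
      rintro ⟨j, hj, hx⟩
      exact ⟨j, by omega, hx⟩)
  exact ⟨G, fun h hh => hG hh⟩

/-- hitting times of words -/
def Nn (M : Set (ℕ → Fin k)) (u v : ℕ → Fin k) (L n : ℕ) : Prop :=
  ∃ h ∈ M, (∀ x < L, h x = u x) ∧ ∀ x < L, h (n + x) = v x

theorem Nn.mono {M : Set (ℕ → Fin k)} {u v : ℕ → Fin k} {L L' n : ℕ} (hL : L ≤ L')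
    (h : Nn M u v L' n) : Nn M u v L n := by
  obtain ⟨f, hf, h1, h2⟩ := h
  exact ⟨f, hf, fun x hx => h1 x (by omega), fun x hx => h2 x (by omega)⟩

/-- Furstenberg's intersection lemma -/
theorem inter {M : Set (ℕ → Fin k)} (hM : Minimal M) (hw : WeaklyMixing M)
    {u₁ v₁ u₂ v₂ : ℕ → Fin k} (h1 : u₁ ∈ M) (h2 : v₁ ∈ M) (h3 : u₂ ∈ M) (h4 : v₂ ∈ M) (L : ℕ) :
    ∃ u ∈ M, ∃ v ∈ M, ∃ L', ∀ n, Nn M u v L' n → Nn M u₁ v₁ L n ∧ Nn M u₂ v₂ L n := by
  obtain ⟨p, ⟨a, ⟨ha, ha1⟩, ha2⟩, b, ⟨hb, hb1⟩, hb2⟩ := hw (PiNat.cylinder u₁ L)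
    (PiNat.cylinder u₂ L) (PiNat.cylinder v₁ L) (PiNat.cylinder v₂ L)
    (PiNat.isOpen_cylinder _ _ _) (PiNat.isOpen_cylinder _ _ _) (PiNat.isOpen_cylinder _ _ _)
    (PiNat.isOpen_cylinder _ _ _) ⟨_, h1, PiNat.self_mem_cylinder _ _⟩
    ⟨_, h3, PiNat.self_mem_cylinder _ _⟩ ⟨_, h2, PiNat.self_mem_cylinder _ _⟩
    ⟨_, h4, PiNat.self_mem_cylinder _ _⟩
  rw [PiNat.mem_cylinder_iff] at ha1 ha2 hb1 hb2
  refine ⟨a, ha, b, hb, p + L, fun n hn => ?_⟩
  obtain ⟨h, hh, e1, e2⟩ := hn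
  refine ⟨⟨h, hh, fun x hx => ?_, fun x hx => ?_⟩, _, hM.shifts hh p, fun x hx => ?_,
    fun x hx => ?_⟩
  · rw [e1 x (by omega), ha1 x hx]
  · rw [e2 x (by omega), hb1 x hx]
  · show h (p + x) = u₂ x
    rw [e1 (p + x) (by omega)]
    exact ha2 x hx
  · show h (p + (n + x)) = v₂ x
    rw [show p + (n + x) = n + (p + x) by omega, e2 (p + x) (by omega)]
    exact hb2 x hx

theorem inter_many {M : Set (ℕ → Fin k)} (hM : Minimal M) (hw : WeaklyMixing M)
    (u v : ℕ → ℕ → Fin k) (hu : ∀ i, u i ∈ M) (hv : ∀ i, v i ∈ M) (l : ℕ → ℕ) (G : ℕ) :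
    ∃ a ∈ M, ∃ b ∈ M, ∃ L', ∀ n, Nn M a b L' n → ∀ i < G, Nn M (u i) (v i) (l i) n := by
  induction G with
  | zero => exact ⟨u 0, hu 0, u 0, hu 0, 0, fun n _ i hi => absurd hi (by omega)⟩
  | succ G ih =>
    obtain ⟨a, ha, b, hb, L, hL⟩ := ih
    obtain ⟨a', ha', b', hb', L', hL'⟩ := inter hM hw ha hb (hu G) (hv G) (max L (l G))
    refine ⟨a', ha', b', hb', L', fun n hn i hi => ?_⟩
    obtain ⟨h1, h2⟩ := hL' n hn
    rcases Nat.lt_succ_iff_lt_or_eq.1 hi with hi | rfl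
    · exact hL n (h1.mono (le_max_left _ _)) i hi
    · exact h2.mono (le_max_right _ _)

/-- the return times of a word contain long intervals, with bounded gaps -/
theorem thick {M : Set (ℕ → Fin k)} (hM : Minimal M) (hw : WeaklyMixing M) {g : ℕ → Fin k}
    (hg : g ∈ M) (N G : ℕ) : ∃ H, ∀ n, ∃ j < H, ∀ i < G, Nn M g g N (n + j + i) := by
  have hz : ∀ i, ∃ z ∈ M, ∀ x < N, z (i + x) = g x := by
    intro i
    obtain ⟨q, hq⟩ := oc_iff.1 (hM.dense _ (hM.shifts hg i) hg) N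
    refine ⟨_, hM.shifts hg q, fun x hx => ?_⟩
    rw [← hq x hx]
    show g (q + (i + x)) = g (i + (q + x))
    congr 1
    omega
  choose z hz1 hz2 using hz
  obtain ⟨a, ha, b, hb, L, hL⟩ := inter_many hM hw (fun _ => g) z (fun _ => hg) hz1
    (fun i => N + i) G
  obtain ⟨H, hH⟩ := hM.gap hb L
  refine ⟨H, fun n => ?_⟩
  obtain ⟨j, hj, hj2⟩ := hH _ (hM.shifts ha n)
  refine ⟨j, hj, fun i hi => ?_⟩
  obtain ⟨h, hh, e1, e2⟩ := hL (n + j) ⟨a, ha, fun _ _ => rfl, fun x hx => by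
    have := hj2 x hx
    rw [← this]
    show a (n + j + x) = a (n + (j + x))
    rw [add_assoc]⟩ i hi
  refine ⟨h, hh, fun x hx => e1 x (by omega), fun x hx => ?_⟩
  rw [show n + j + i + x = n + j + (i + x) by omega, e2 (i + x) (by omega), hz2 i x hx]

/-- the hypothesis of the construction -/
theorem step_of_wm {c : ℕ → Fin k} {M : Set (ℕ → Fin k)} (hM : Minimal M) (hw : WeaklyMixing M)
    (hc : M ⊆ OrbitClosure c) : ∀ g ∈ M, ∀ N, ∃ g' ∈ M, ∃ y, N ≤ y ∧ (∀ x < N, g' x = g x) ∧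
      ∀ x < N, c (x + y) = g x ∧ g' (x + y) = g x := by
  intro g hg N
  obtain ⟨G, hG⟩ := hM.gap hg N
  obtain ⟨H, hH⟩ := thick hM hw hg N G
  obtain ⟨n, hn⟩ := oc_iff.1 (hc hg) (N + H + G + N)
  obtain ⟨j, hj, hj2⟩ := hH (n + N)
  obtain ⟨i, hi, hi2⟩ := hG _ (hM.shifts hg (N + j))
  obtain ⟨g', hg', e1, e2⟩ := hj2 i hi
  refine ⟨g', hg', n + N + j + i, by omega, e1, fun x hx => ⟨?_, ?_⟩⟩
  · have h1 := hn (N + j + i + x) (by omega)
    have h2 : g (N + j + (i + x)) = g x := hi2 x hx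
    rw [show x + (n + N + j + i) = n + (N + j + i + x) by omega, h1, ← h2]
    congr 1
    omega
  · rw [add_comm x, e2 x hx]

/-- the main construction -/
theorem sol_of_wm {A : Set ℕ} {c : ℕ → Fin k} (hc : Computes A (fun n => Part.some (c n).val))
    {m : ℕ} (hm : 0 < m) {M : Set (ℕ → Fin k)} (hM : Minimal M) (hw : WeaklyMixing M)
    (hMc : M ⊆ OrbitClosure fun x => c (m * x)) (hW : Enum A (Words M)) :
    ∃ X, Solution c X ∧ Computes A (char X) := by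
  have hc' : Gr A fun x => c (m * x) :=
    (computes_col.1 hc).pre (g := fun x : ℕ => m * x) (by fun_prop)
  obtain ⟨i, y, hy, hmono, h0, hF⟩ := core hc' hM.nonempty (enum_iff.1 hW) (step_of_wm hM hw hMc)
  exact sol_of_seq hm hy hmono h0 hF

/-- the words of the least closed invariant set -/
theorem words_iff {c : ℕ → Fin k} {M : Set (ℕ → Fin k)} (hM : Minimal M)
    (hc : M ⊆ OrbitClosure c)
    (hleast : ∀ Y ⊆ OrbitClosure c, IsClosed Y → Y.Nonempty →
      (∀ g ∈ Y, (fun x => g (1 + x)) ∈ Y) → M ⊆ Y) (w : List ℕ) :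
    (∃ g ∈ M, ∀ x < w.length, w[x]? = some (g x).val) ↔
      ∃ L, ∀ n, ∃ j < L, ∀ x < w.length, w[x]? = some (c (n + j + x)).val := by
  constructor
  · rintro ⟨g, hg, hgw⟩
    by_contra hno
    push Not at hno
    let Y : Set (ℕ → Fin k) := OrbitClosure c ∩
      {h | ∀ j, ∃ x < w.length, w[x]? ≠ some (h (j + x)).val}
    have hYc : IsClosed Y := by
      refine isClosed_closure.inter ?_
      have e : {h : ℕ → Fin k | ∀ j, ∃ x < w.length, w[x]? ≠ some (h (j + x)).val} =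
          ⋂ j, ⋃ x ∈ Finset.range w.length, {h | w[x]? ≠ some (h (j + x)).val} := by
        ext h; simp
      rw [e]
      refine isClosed_iInter fun j => ?_
      refine Set.Finite.isClosed_biUnion (Finset.range w.length).finite_toSet fun x _ => ?_
      have h2 : Continuous fun h : ℕ → Fin k => h (j + x) := continuous_apply _
      exact (isClosed_discrete {p : Fin k | w[x]? ≠ some p.val}).preimage h2
    have hYi : ∀ g ∈ Y, (fun x => g (1 + x)) ∈ Y := by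
      rintro h ⟨h1, h2⟩
      refine ⟨oc_iff.2 fun L => ?_, fun j => ?_⟩
      · obtain ⟨n, hn⟩ := oc_iff.1 h1 (L + 1)
        refine ⟨n + 1, fun x hx => ?_⟩
        rw [show n + 1 + x = n + (1 + x) by omega]
        exact hn (1 + x) (by omega)
      · obtain ⟨x, hx, hx2⟩ := h2 (1 + j)
        refine ⟨x, hx, ?_⟩
        show w[x]? ≠ some (h (1 + (j + x))).val
        rwa [← add_assoc]
    have hYn : Y.Nonempty := by
      choose n hn using hno
      let U : Ultrafilter ℕ := Filter.hyperfilter ℕ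
      obtain ⟨h, hh⟩ := Pool.Agent.R603.HCB.exists_lim_fun U fun L x => c (n L + x)
      refine ⟨h, oc_iff.2 fun L => ?_, fun j => ?_⟩
      · obtain ⟨l, hl⟩ := (hh L).exists
        exact ⟨n l, hl⟩
      · have h3 : ∀ᶠ l in (U : Filter ℕ), j < l := Nat.hyperfilter_le_atTop (Filter.eventually_gt_atTop j)
        obtain ⟨l, hl, hl2⟩ := ((hh (j + w.length)).and h3).exists
        obtain ⟨x, hx, hx2⟩ := hn l j hl2
        refine ⟨x, hx, ?_⟩
        rw [← hl (j + x) (by omega)]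
        rwa [← add_assoc]
    obtain ⟨x, hx, hx2⟩ := ((hleast Y Set.inter_subset_left hYc hYn hYi) hg).2 0
    apply hx2
    rw [zero_add]
    exact hgw x hx
  · rintro ⟨L, hL⟩
    obtain ⟨g, hg⟩ := hM.nonempty
    obtain ⟨n, hn⟩ := oc_iff.1 (hc hg) (L + w.length)
    obtain ⟨j, hj, hj2⟩ := hL n
    refine ⟨_, hM.shifts hg j, fun x hx => ?_⟩
    rw [hj2 x hx, ← hn (j + x) (by omega), add_assoc]

end Pool.Agent.U657.HT
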